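import Pool.Agent.Work.MP_0fba91_ag.Half

/-!
The divisor class group of the curve: division by `2`, `4`-torsion, Weierstrass points.
-/

open Polynomial

set_option linter.unusedVariables false
set_option linter.unusedSectionVars false

noncomputable section

namespace Pool.Agent.Work.MP_0fba91_ag

theorem cls_eq_zero_iff {K F : Type} [Field K] [Field F] [Algebra K F] {D : Divisor K F} :
    D.cls = 0 ↔ D ∈ principal K F := by
  have h := cls_eq_iff (D := D) (E := 0)
  rwa [map_zero, sub_zero] at h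

theorem mem_Pic0_iff {K F : Type} [Field K] [Field F] [Algebra K F] {m : Pic K F} :
    m ∈ Pic0 K F ↔ ∃ D : Divisor K F, deg D = 0 ∧ D.cls = m := Iff.rfl

theorem deg_single {K F : Type} [Field K] [Field F] [Algebra K F] (P : Place K F) (n : ℤ) :
    deg (Finsupp.single P n : Divisor K F) = n := by
  simp [deg, Finsupp.degree_single]

theorem smul_single_place {K F : Type} [Field K] [Field F] [Algebra K F] (φ : SemiAut K F)
    (P : Place K F) (n : ℤ) :
    φ • (Finsupp.single P n : Divisor K F) = Finsupp.single (φ • P) n := by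
  rw [Divisor.smul_def, Finsupp.mapDomain_single]

namespace Model

variable {K F : Type} [Field K] [IsAlgClosed K] [CharZero K] [Field F] [Algebra K F]
  {e : Fin 5 → K} (M : Model K F e)

include M in
theorem deg_of_mem_principal (he : Function.Injective e) {D : Divisor K F}
    (hD : D ∈ principal K F) : deg D = 0 := by
  obtain ⟨g, hg⟩ := mem_principal_iff.1 hD
  exact M.deg_of_isDiv he hg

include M in
/-- `Pic⁰` is `2`-divisible -/
theorem pic0_divisible (he : Function.Injective e) (m : Pic K F) (hm : m ∈ Pic0 K F) :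
    ∃ m' ∈ Pic0 K F, (2 : ℤ) • m' = m := by
  obtain ⟨D, hD, rfl⟩ := mem_Pic0_iff.1 hm
  obtain ⟨φ, G, D1, hG, -, hEq⟩ := M.exists_half_divisor he ⊤
    (fun x _ => by
      obtain ⟨y, hy⟩ := IsAlgClosed.exists_pow_nat_eq x (n := 2) two_pos
      exact ⟨y, Subfield.mem_top y, hy⟩) (fun i => Subfield.mem_top _) D
    (fun Q _ => by
      rcases M.cases_place Q with h | ⟨a, b, ha, hb⟩
      · exact Or.inl h
      · exact Or.inr ⟨a, b, Subfield.mem_top _, Subfield.mem_top _, ha, hb⟩)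
  rw [hD, Finsupp.single_zero, sub_zero] at hEq
  have hdeg : deg D1 = 0 := by
    have h1 := congrArg deg hEq
    rw [hD, map_add, map_zsmul, M.deg_of_isDiv he hG, add_zero, smul_eq_mul] at h1
    omega
  refine ⟨D1.cls, mem_Pic0_iff.2 ⟨D1, hdeg, rfl⟩, ?_⟩
  rw [← map_zsmul, cls_eq_iff, hEq]
  have : (2 : ℤ) • D1 - ((2 : ℤ) • D1 + G) = -G := by abel
  rw [this]
  exact (principal K F).neg_mem hG.mem_principal

/-- The involution acts as `-1` on `Pic⁰`. -/
theorem inv_smul_cls (he : Function.Injective e) {D : Divisor K F} (hD : deg D = 0) :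
    (M.invS • D).cls = -D.cls := by
  obtain ⟨h, E, hE, -, hEq⟩ := M.exists_add_inv he D
  rw [hD, mul_zero, Finsupp.single_zero, add_zero] at hEq
  rw [eq_neg_iff_add_eq_zero, ← map_add, cls_eq_zero_iff, add_comm, hEq]
  exact hE.mem_principal

/-- `2`-torsion classes are supported at the fixed places -/
theorem two_torsion_cls (he : Function.Injective e) (m : Pic K F) (hm : m ∈ Pic0 K F)
    (h2 : (2 : ℤ) • m = 0) : ∃ D : Divisor K F, deg D = 0 ∧
      (∀ Q : Place K F, M.invS • Q ≠ Q → D Q = 0) ∧ D.cls = m := by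
  obtain ⟨D, hD, rfl⟩ := mem_Pic0_iff.1 hm
  rw [← map_zsmul, cls_eq_zero_iff] at h2
  obtain ⟨g, hg⟩ := mem_principal_iff.1 h2
  obtain ⟨ψ, E, hE, hs⟩ := M.two_torsion he hD hg
  refine ⟨D - E, ?_, hs, ?_⟩
  · rw [map_sub, hD, M.deg_of_isDiv he hE, sub_zero]
  · rw [cls_eq_iff]
    have : D - E - D = -E := by abel
    rw [this]
    exact (principal K F).neg_mem hE.mem_principal

theorem good_of_fixed (he : Function.Injective e) (E0 : Subfield K) (hei : ∀ i, e i ∈ E0)
    {Q : Place K F} (hQ : M.invS • Q = Q) : M.Good E0 Q := by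
  rcases (M.fixed_iff he Q).1 hQ with h | ⟨i, hi, hw⟩
  · exact Or.inl h
  · exact Or.inr ⟨e i, 0, hei i, E0.zero_mem, hi, hw⟩

/-- `4`-torsion classes have coordinates in the quadratically closed field `E0`. -/
theorem four_torsion_cls (he : Function.Injective e) (E0 : Subfield K)
    (hsq : ∀ x ∈ E0, ∃ y ∈ E0, y ^ 2 = x) (hei : ∀ i, e i ∈ E0) (m : Pic K F)
    (hm : m ∈ Pic0 K F) (h4 : (4 : ℤ) • m = 0) : ∃ D : Divisor K F, deg D = 0 ∧
      (∀ Q : Place K F, D Q ≠ 0 → M.Good E0 Q) ∧ D.cls = m := by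
  obtain ⟨D1, hD1, hs1, hcls1⟩ := M.two_torsion_cls he ((2 : ℤ) • m)
    ((Pic0 K F).zsmul_mem hm 2) (by rw [smul_smul]; norm_num; exact h4)
  have hgood1 : ∀ Q : Place K F, D1 Q ≠ 0 → M.Good E0 Q := by
    intro Q hQ
    apply M.good_of_fixed he E0 hei
    by_contra h
    exact hQ (hs1 Q h)
  obtain ⟨φ, G, D2, hG, hgood2, hEq⟩ := M.exists_half_divisor he E0 hsq hei D1 hgood1
  rw [hD1, Finsupp.single_zero, sub_zero] at hEq
  have hdeg2 : deg D2 = 0 := by
    have h1 := congrArg deg hEq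
    rw [hD1, map_add, map_zsmul, M.deg_of_isDiv he hG, add_zero, smul_eq_mul] at h1
    omega
  have h2 : (2 : ℤ) • (m - D2.cls) = 0 := by
    rw [zsmul_sub, ← hcls1, ← map_zsmul, ← map_sub, cls_eq_zero_iff, hEq]
    have : (2 : ℤ) • D2 + G - (2 : ℤ) • D2 = G := by abel
    rw [this]
    exact hG.mem_principal
  obtain ⟨D3, hD3, hs3, hcls3⟩ := M.two_torsion_cls he (m - D2.cls)
    ((Pic0 K F).sub_mem hm (mem_Pic0_iff.2 ⟨D2, hdeg2, rfl⟩)) h2
  refine ⟨D2 + D3, by rw [map_add, hdeg2, hD3, add_zero], ?_, ?_⟩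
  · intro Q hQ
    by_cases h : D2 Q = 0
    · apply M.good_of_fixed he E0 hei
      by_contra h'
      apply hQ
      rw [Finsupp.add_apply, h, hs3 Q h', add_zero]
    · exact hgood2 Q h
  · rw [map_add, hcls3]
    abel

/-! ### automorphisms fixing or negating the coordinates -/

theorem smul_inf_of_fix (φ : SemiAut K F) (hu : φ.1 M.u = M.u) : φ • M.inf = M.inf := by
  apply M.eq_inf
  have := Place.smul_ord_apply φ M.inf M.u
  rw [hu] at this
  rw [this]
  exact M.ord_inf_neg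

theorem smul_of_fix (he : Function.Injective e) (φ : SemiAut K F) (hu : φ.1 M.u = M.u)
    (hw : φ.1 M.w = M.w) {P : Place K F} {a b : K} (ha : P.At M.u a) (hb : P.At M.w b)
    (hfa : φ.1 (algebraMap K F a) = algebraMap K F a)
    (hfb : φ.1 (algebraMap K F b) = algebraMap K F b) : φ • P = P := by
  have h1 := ha.smul φ hfa
  have h2 := hb.smul φ hfb
  rw [hu] at h1
  rw [hw] at h2
  exact M.eq_of_at he h1 h2 ha hb

theorem smul_of_neg (he : Function.Injective e) (φ : SemiAut K F) (hu : φ.1 M.u = M.u)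
    (hw : φ.1 M.w = -M.w) {P : Place K F} {a b : K} (ha : P.At M.u a) (hb : P.At M.w b)
    (hfa : φ.1 (algebraMap K F a) = algebraMap K F a)
    (hfb : φ.1 (algebraMap K F b) = algebraMap K F b) : φ • P = M.invS • P := by
  have h1 := ha.smul φ hfa
  have h2 := (hb.smul φ hfb).neg
  rw [hu] at h1
  rw [hw, neg_neg] at h2
  exact M.eq_of_at he h1 h2 (M.inv_at_u ha) (M.inv_at_w hb)

theorem smul_good_of_fix (he : Function.Injective e) (E0 : Subfield K) (φ : SemiAut K F)
    (hu : φ.1 M.u = M.u) (hw : φ.1 M.w = M.w)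
    (hφ : ∀ x ∈ E0, φ.1 (algebraMap K F x) = algebraMap K F x) {P : Place K F}
    (hP : M.Good E0 P) : φ • P = P := by
  rcases hP with rfl | ⟨a, b, ha0, hb0, ha, hb⟩
  · exact M.smul_inf_of_fix φ hu
  · exact M.smul_of_fix he φ hu hw ha hb (hφ a ha0) (hφ b hb0)

theorem smul_good_of_neg (he : Function.Injective e) (E0 : Subfield K) (φ : SemiAut K F)
    (hu : φ.1 M.u = M.u) (hw : φ.1 M.w = -M.w)
    (hφ : ∀ x ∈ E0, φ.1 (algebraMap K F x) = algebraMap K F x) {P : Place K F}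
    (hP : M.Good E0 P) : φ • P = M.invS • P := by
  rcases hP with rfl | ⟨a, b, ha0, hb0, ha, hb⟩
  · rw [M.smul_inf_of_fix φ hu, M.inv_smul_inf]
  · exact M.smul_of_neg he φ hu hw ha hb (hφ a ha0) (hφ b hb0)

theorem smul_divisor_congr (φ ψ : SemiAut K F) (D : Divisor K F)
    (h : ∀ Q : Place K F, D Q ≠ 0 → φ • Q = ψ • Q) : φ • D = ψ • D := by
  rw [Divisor.smul_def, Divisor.smul_def]
  apply Finsupp.mapDomain_congr
  intro Q hQ
  exact h Q (Finsupp.mem_support_iff.1 hQ)

/-- an automorphism negating `w` acts by `-1` on the `4`-torsion -/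
theorem smul_four_torsion_of_neg (he : Function.Injective e) (E0 : Subfield K)
    (hsq : ∀ x ∈ E0, ∃ y ∈ E0, y ^ 2 = x) (hei : ∀ i, e i ∈ E0) (φ : SemiAut K F)
    (hu : φ.1 M.u = M.u) (hw : φ.1 M.w = -M.w)
    (hφ : ∀ x ∈ E0, φ.1 (algebraMap K F x) = algebraMap K F x) (m : Pic K F)
    (hm : m ∈ Pic0 K F) (h4 : (4 : ℤ) • m = 0) : φ • m = -m := by
  obtain ⟨D, hD, hgood, rfl⟩ := M.four_torsion_cls he E0 hsq hei m hm h4
  rw [Divisor.smul_cls, ← M.inv_smul_cls he hD]
  congr 1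
  exact smul_divisor_congr _ _ _ fun Q hQ => M.smul_good_of_neg he E0 φ hu hw hφ (hgood Q hQ)

/-- an automorphism fixing the coordinates acts trivially on the `4`-torsion -/
theorem smul_four_torsion_of_fix (he : Function.Injective e) (E0 : Subfield K)
    (hsq : ∀ x ∈ E0, ∃ y ∈ E0, y ^ 2 = x) (hei : ∀ i, e i ∈ E0) (φ : SemiAut K F)
    (hu : φ.1 M.u = M.u) (hw : φ.1 M.w = M.w)
    (hφ : ∀ x ∈ E0, φ.1 (algebraMap K F x) = algebraMap K F x) (m : Pic K F)
    (hm : m ∈ Pic0 K F) (h4 : (4 : ℤ) • m = 0) : φ • m = m := by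
  obtain ⟨D, hD, hgood, rfl⟩ := M.four_torsion_cls he E0 hsq hei m hm h4
  rw [Divisor.smul_cls]
  congr 1
  have h1 : φ • D = (1 : SemiAut K F) • D := smul_divisor_congr _ _ _ fun Q hQ => by
    rw [one_smul]
    exact M.smul_good_of_fix he E0 φ hu hw hφ (hgood Q hQ)
  rw [h1, one_smul]

/-- differences of fixed places are `2`-torsion -/
theorem two_smul_fixed (he : Function.Injective e) {P : Place K F} (hP : M.invS • P = P) :
    (2 : ℤ) • (Divisor.cls (Finsupp.single P 1 : Divisor K F) - Divisor.cls (Finsupp.single M.inf 1 : Divisor K F))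
      = 0 := by
  have h1 := M.inv_smul_cls he (D := Finsupp.single P 1 - Finsupp.single M.inf 1)
    (by rw [map_sub, deg_single, deg_single, sub_self])
  rw [smul_sub, smul_single_place, smul_single_place, hP, M.inv_smul_inf, map_sub] at h1
  rw [two_zsmul]
  nth_rewrite 1 [h1]
  abel

/-- The final combinatorial contradiction: no theta characteristic is fixed. -/
theorem no_fixed_theta (he : Function.Injective e) (W : Fin 6 → Place K F)
    (hWinj : Function.Injective W) (hW : ∀ j, M.invS • W j = W j)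
    (hWall : ∀ P : Place K F, M.invS • P = P → ∃ j, P = W j) (hW5 : W 5 = M.inf)
    (φ₁ φ₂ : SemiAut K F)
    (h₁ : φ₁ • W 0 = W 1 ∧ φ₁ • W 1 = W 0 ∧ φ₁ • W 2 = W 2 ∧ φ₁ • W 3 = W 3 ∧
      φ₁ • W 4 = W 5 ∧ φ₁ • W 5 = W 4)
    (h₂ : φ₂ • W 0 = W 0 ∧ φ₂ • W 1 = W 1 ∧ φ₂ • W 2 = W 3 ∧ φ₂ • W 3 = W 2 ∧
      φ₂ • W 4 = W 5 ∧ φ₂ • W 5 = W 4)
    (m : Pic K F) (hm : m ∈ Pic0 K F) (hm2 : (2 : ℤ) • m = 0)
    (hf₁ : φ₁ • (Divisor.cls (Finsupp.single M.inf 1 : Divisor K F) + m) =
      Divisor.cls (Finsupp.single M.inf 1 : Divisor K F) + m)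
    (hf₂ : φ₂ • (Divisor.cls (Finsupp.single M.inf 1 : Divisor K F) + m) =
      Divisor.cls (Finsupp.single M.inf 1 : Divisor K F) + m) : False := by
  classical
  obtain ⟨D, hD, hs, rfl⟩ := M.two_torsion_cls he m hm hm2
  set H : Divisor K F := Finsupp.single M.inf 1 + D with hH
  have hHs : ∀ Q : Place K F, M.invS • Q ≠ Q → H Q = 0 := by
    intro Q hQ
    have h1 : M.inf ≠ Q := by
      rintro rfl
      exact hQ M.inv_smul_inf
    rw [hH, Finsupp.add_apply, hs Q hQ, Finsupp.single_apply, if_neg h1, add_zero]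
  have hHW : ∀ Q : Place K F, (∀ j, Q ≠ W j) → H Q = 0 := by
    intro Q hQ
    apply hHs
    intro h
    obtain ⟨j, hj⟩ := hWall Q h
    exact hQ j hj
  have hdegH : deg H = 1 := by rw [hH, map_add, deg_single, hD, add_zero]
  have hdegH' : deg H = ∑ j, H (W j) := by
    show Finsupp.degree H = _
    rw [Finsupp.degree_apply]
    have h1 : H.support ⊆ Finset.univ.image W := by
      intro Q hQ
      rw [Finset.mem_image]
      by_contra h
      push Not at h
      exact (Finsupp.mem_support_iff.1 hQ) (hHW Q fun j hj => h j (Finset.mem_univ j) hj.symm)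
    rw [Finset.sum_subset h1 (fun Q _ hQ => Finsupp.notMem_support_iff.1 hQ),
      Finset.sum_image (fun i _ j _ h => hWinj h)]
  rw [← map_add, ← hH, Divisor.smul_cls, cls_eq_iff] at hf₁ hf₂
  -- parity for an automorphism permuting the fixed places
  have key : ∀ φ : SemiAut K F, (∀ j, ∃ j', φ⁻¹ • W j = W j') → φ • H - H ∈ principal K F →
      ∀ i j, Even ((H (φ⁻¹ • W i) - H (W i)) - (H (φ⁻¹ • W j) - H (W j))) := by
    intro φ hφ hprin i j
    obtain ⟨g, hg⟩ := mem_principal_iff.1 hprin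
    have hsupp : ∀ Q : Place K F, M.invS • Q ≠ Q → (φ • H - H) Q = 0 := by
      intro Q hQ
      rw [Finsupp.sub_apply, Divisor.smul_apply, hHs Q hQ, sub_zero]
      by_contra h
      have h1 : ¬ ∀ j, φ⁻¹ • Q ≠ W j := fun h2 => h (hHW _ h2)
      push Not at h1
      obtain ⟨j, hj⟩ := h1
      -- Q = φ • W j is a fixed place
      have h3 : ∃ j', φ⁻¹ • W j' = W j := by
        -- the map induced by φ⁻¹ on indices is injective, hence surjective
        choose π hπ using hφ
        have hπinj : Function.Injective π := by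
          intro a b hab
          have h4 : φ⁻¹ • W a = φ⁻¹ • W b := by rw [hπ, hπ, hab]
          exact hWinj ((MulAction.injective φ⁻¹) h4)
        obtain ⟨j', hj'⟩ := (Finite.injective_iff_surjective.1 hπinj) j
        exact ⟨j', by rw [hπ, hj']⟩
      obtain ⟨j', hj'⟩ := h3
      have h4 : Q = W j' := (MulAction.injective φ⁻¹) (hj.trans hj'.symm)
      exact hQ (by rw [h4, hW])
    have h1 := M.parity he hg hsupp (hW i) (hW j)
    simpa only [Finsupp.sub_apply, Divisor.smul_apply] using h1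
  have hinv : ∀ (φ : SemiAut K F) (i j : Fin 6), φ • W i = W j → φ⁻¹ • W j = W i := by
    intro φ i j h
    rw [← h, inv_smul_smul]
  obtain ⟨a0, a1, a2, a3, a4, a5⟩ := h₁
  obtain ⟨b0, b1, b2, b3, b4, b5⟩ := h₂
  have a0' := hinv _ _ _ a0
  have a1' := hinv _ _ _ a1
  have a2' := hinv _ _ _ a2
  have a3' := hinv _ _ _ a3
  have a4' := hinv _ _ _ a4
  have a5' := hinv _ _ _ a5
  have b0' := hinv _ _ _ b0
  have b1' := hinv _ _ _ b1
  have b2' := hinv _ _ _ b2
  have b3' := hinv _ _ _ b3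
  have b4' := hinv _ _ _ b4
  have b5' := hinv _ _ _ b5
  have k1 := key φ₁ (by
    intro j
    fin_cases j
    · exact ⟨1, a1'⟩
    · exact ⟨0, a0'⟩
    · exact ⟨2, a2'⟩
    · exact ⟨3, a3'⟩
    · exact ⟨5, a5'⟩
    · exact ⟨4, a4'⟩) hf₁
  have k2 := key φ₂ (by
    intro j
    fin_cases j
    · exact ⟨0, b0'⟩
    · exact ⟨1, b1'⟩
    · exact ⟨3, b3'⟩
    · exact ⟨2, b2'⟩
    · exact ⟨5, b5'⟩
    · exact ⟨4, b4'⟩) hf₂
  have c1 := k1 0 2
  have c2 := k1 4 2
  have c3 := k2 2 0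
  rw [a1', a2'] at c1
  rw [a5', a2'] at c2
  rw [b3', b0'] at c3
  rw [hdegH', Fin.sum_univ_six] at hdegH
  obtain ⟨x1, hx1⟩ := c1
  obtain ⟨x2, hx2⟩ := c2
  obtain ⟨x3, hx3⟩ := c3
  omega

end Model

end Pool.Agent.Work.MP_0fba91_ag
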