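import Pool.Agent.Work.MP_0fba91_ag.Residue
import Pool.Agent.Work.MP_0fba91_ag.Jac

/-!
The curve `w² = ∏ (u - e i)` has genus two.
-/

open Polynomial

set_option linter.unusedVariables false
set_option linter.unusedSectionVars false

noncomputable section

namespace Pool.Agent.Work.MP_0fba91_ag

section

variable {K F : Type} [Field K] [Field F] [Algebra K F]

theorem mem_rr {D : Divisor K F} {g : F} :
    g ∈ rrSpace D ↔ ∀ P : Place K F, P.val g ≤ WithZero.exp (D P) := Iff.rfl

theorem mem_rr_iff {D : Divisor K F} {g : F} (hg : g ≠ 0) :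
    g ∈ rrSpace D ↔ ∀ P : Place K F, -D P ≤ P.ord g := by
  rw [mem_rr]
  refine forall_congr' fun P => ?_
  rw [Place.val_eq_exp hg, WithZero.exp_le_exp]
  omega

theorem rr_mono {D E : Divisor K F} (h : ∀ P, D P ≤ E P) : rrSpace D ≤ rrSpace E := by
  intro g hg P
  exact (hg P).trans (WithZero.exp_le_exp.2 (h P))

theorem deg_nonneg {D : Divisor K F} (h : ∀ P, 0 ≤ D P) : 0 ≤ deg D := by
  show 0 ≤ Finsupp.degree D
  rw [Finsupp.degree_apply]
  exact Finset.sum_nonneg fun P _ => h P

/-- splitting off a point of an effective divisor -/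
theorem exists_sub_point {E : Divisor K F} (h : ∀ P, 0 ≤ E P) (hE : E ≠ 0) :
    ∃ P : Place K F, ∀ Q, 0 ≤ (E - Finsupp.single P 1 : Divisor K F) Q := by
  classical
  obtain ⟨P, hP⟩ : ∃ P, E P ≠ 0 := by
    by_contra hcon
    push Not at hcon
    exact hE (Finsupp.ext hcon)
  refine ⟨P, fun Q => ?_⟩
  rw [Finsupp.sub_apply, Finsupp.single_apply]
  by_cases hPQ : P = Q
  · rw [if_pos hPQ, ← hPQ]
    have := h P
    omega
  · rw [if_neg hPQ, sub_zero]
    exact h Q

/-- multiplication by a function -/
theorem mul_mem_rr {D E G : Divisor K F} {h : F} (hG : Model.IsDiv G h) (hE : E = D - G) {g : F}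
    (hg : g ∈ rrSpace D) : g * h ∈ rrSpace E := by
  by_cases hg0 : g = 0
  · rw [hg0, zero_mul]
    exact (rrSpace E).zero_mem
  · rw [mem_rr_iff (mul_ne_zero hg0 hG.1)]
    intro P
    have h1 := (mem_rr_iff hg0).1 hg P
    rw [Place.ord_mul hg0 hG.1, hE, Finsupp.sub_apply, hG.2]
    omega

end

namespace Model

variable {K F : Type} [Field K] [IsAlgClosed K] [CharZero K] [Field F] [Algebra K F]
  {e : Fin 5 → K} (M : Model K F e)

include M in
theorem rr_step (he : Function.Injective e) (D : Divisor K F) (P : Place K F)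
    (hfin : Module.Finite K (rrSpace D)) :
    Module.Finite K (rrSpace (D + Finsupp.single P 1)) ∧
      Module.finrank K (rrSpace (D + Finsupp.single P 1)) ≤ Module.finrank K (rrSpace D) + 1 := by
  classical
  have hle : rrSpace D ≤ rrSpace (D + Finsupp.single P 1) := by
    apply rr_mono
    intro Q
    rw [Finsupp.add_apply, Finsupp.single_apply]
    split_ifs <;> omega
  by_cases h : rrSpace (D + Finsupp.single P 1) ≤ rrSpace D
  · have heq := le_antisymm hle h
    rw [← heq]
    exact ⟨hfin, Nat.le_succ _⟩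
  · obtain ⟨g0, hg0, hg0'⟩ := SetLike.not_le_iff_exists.1 h
    have hne : ∀ g ∈ rrSpace (D + Finsupp.single P 1), ∀ Q : Place K F, Q ≠ P →
        Q.val g ≤ WithZero.exp (D Q) := by
      intro g hg Q hQ
      have := hg Q
      rwa [Finsupp.add_apply, Finsupp.single_apply, if_neg (fun h => hQ h.symm), add_zero] at this
    have hPle : ∀ g ∈ rrSpace (D + Finsupp.single P 1), P.val g ≤ WithZero.exp (D P + 1) := by
      intro g hg
      have := hg P
      rwa [Finsupp.add_apply, Finsupp.single_apply, if_pos rfl] at this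
    have hlt_le : ∀ g : F, P.val g < WithZero.exp (D P + 1) → P.val g ≤ WithZero.exp (D P) := by
      intro g hg
      by_cases hg0 : g = 0
      · rw [hg0, map_zero]
        exact zero_le
      · rw [Place.val_eq_exp hg0, WithZero.exp_lt_exp] at hg
        rw [Place.val_eq_exp hg0, WithZero.exp_le_exp]
        omega
    have hmem : ∀ g ∈ rrSpace (D + Finsupp.single P 1), P.val g < WithZero.exp (D P + 1) →
        g ∈ rrSpace D := by
      intro g hg hlt Q
      by_cases hQ : Q = P
      · rw [hQ]
        exact hlt_le g hlt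
      · exact hne g hg Q hQ
    have hg0P : P.val g0 = WithZero.exp (D P + 1) := by
      rcases lt_or_eq_of_le (hPle g0 hg0) with h1 | h1
      · exact absurd (hmem g0 hg0 h1) hg0'
      · exact h1
    have hg00 : g0 ≠ 0 := by
      rintro rfl
      exact hg0' (rrSpace D).zero_mem
    have hkey : rrSpace (D + Finsupp.single P 1) = rrSpace D ⊔ Submodule.span K {g0} := by
      apply le_antisymm
      · intro g hg
        have h1 : P.val (g / g0) ≤ 1 := by
          rw [map_div₀, hg0P]
          exact div_le_one_of_le₀ (hPle g hg) zero_le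
        obtain ⟨c, hc⟩ := M.exists_residue he P (g / g0) h1
        have h2 : P.val (g - c • g0) < WithZero.exp (D P + 1) := by
          have h3 : g - c • g0 = (g / g0 - algebraMap K F c) * g0 := by
            rw [Algebra.smul_def]
            field_simp
          rw [h3, map_mul, hg0P]
          exact mul_lt_of_lt_one_left WithZero.exp_pos hc
        have h4 : c • g0 ∈ rrSpace (D + Finsupp.single P 1) := Submodule.smul_mem _ c hg0
        have h5 : g - c • g0 ∈ rrSpace (D + Finsupp.single P 1) := sub_mem hg h4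
        have h3 : g - c • g0 ∈ rrSpace D := hmem _ h5 h2
        rw [Submodule.mem_sup]
        exact ⟨_, h3, c • g0, Submodule.smul_mem _ _ (Submodule.mem_span_singleton_self g0),
          by ring⟩
      · rw [sup_le_iff, Submodule.span_singleton_le_iff_mem]
        exact ⟨hle, hg0⟩
    rw [hkey]
    have hfin2 : Module.Finite K (Submodule.span K {g0}) := inferInstance
    refine ⟨Submodule.finite_sup _ _, ?_⟩
    refine (Submodule.finrank_add_le_finrank_add_finrank _ _).trans ?_
    have h1 := finrank_span_le_card (R := K) ({g0} : Set F)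
    simp only [Set.toFinset_singleton, Finset.card_singleton] at h1
    omega

include M in
theorem rr_add (he : Function.Injective e) (n : ℕ) : ∀ (D E : Divisor K F), (∀ P, 0 ≤ E P) →
    deg E = n → Module.Finite K (rrSpace D) →
      Module.Finite K (rrSpace (D + E)) ∧
        Module.finrank K (rrSpace (D + E)) ≤ Module.finrank K (rrSpace D) + n := by
  induction n with
  | zero =>
    intro D E hE hn hfin
    have hE0 : E = 0 := by
      by_contra h
      obtain ⟨P, hP⟩ := exists_sub_point hE h
      have h1 := deg_nonneg hP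
      rw [map_sub, deg_single, hn] at h1
      norm_num at h1
    rw [hE0, add_zero]
    exact ⟨hfin, le_rfl⟩
  | succ n ih =>
    intro D E hE hn hfin
    have hE0 : E ≠ 0 := by
      rintro rfl
      rw [map_zero] at hn
      norm_cast at hn
    obtain ⟨P, hP⟩ := exists_sub_point hE hE0
    obtain ⟨h1, h2⟩ := ih D (E - Finsupp.single P 1) hP (by
      rw [map_sub, deg_single, hn]
      push_cast
      ring) hfin
    obtain ⟨h3, h4⟩ := M.rr_step he _ P h1
    have h5 : D + (E - Finsupp.single P 1) + Finsupp.single P 1 = D + E := by abel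
    rw [h5] at h3 h4
    exact ⟨h3, by omega⟩

include M in
theorem rr_neg (he : Function.Injective e) {D : Divisor K F} (hD : deg D < 0) :
    rrSpace D = ⊥ := by
  rw [Submodule.eq_bot_iff]
  intro g hg
  by_contra hg0
  obtain ⟨G, hG, hG0⟩ := M.exists_isDiv he g hg0
  have h1 : 0 ≤ deg (D + G) := by
    apply deg_nonneg
    intro P
    have := (mem_rr_iff hg0).1 hg P
    rw [Finsupp.add_apply, hG.2]
    omega
  rw [map_add, hG0] at h1
  omega

include M in
theorem rr_finite (he : Function.Injective e) (D : Divisor K F) :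
    Module.Finite K (rrSpace D) := by
  classical
  obtain ⟨n, hn⟩ : ∃ n : ℕ, deg D < n := ⟨(deg D + 1).toNat, by omega⟩
  have h1 : deg (D - Finsupp.single M.inf (n : ℤ)) < 0 := by
    rw [map_sub, deg_single]
    omega
  have h2 := M.rr_neg he h1
  have h3 := M.rr_add he n (D - Finsupp.single M.inf (n : ℤ)) (Finsupp.single M.inf (n : ℤ))
    (by
      intro P
      rw [Finsupp.single_apply]
      split_ifs <;> omega) (deg_single _ _) (by rw [h2]; infer_instance)
  rw [sub_add_cancel] at h3
  exact h3.1

include M in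
theorem rr_lin (he : Function.Injective e) {D E G : Divisor K F} {h : F} (hG : IsDiv G h)
    (hE : E = D - G) : Module.finrank K (rrSpace D) ≤ Module.finrank K (rrSpace E) := by
  have := M.rr_finite he E
  let φ : rrSpace D →ₗ[K] rrSpace E :=
    ((LinearMap.mulRight K h).comp (rrSpace D).subtype).codRestrict (rrSpace E)
      (fun g => mul_mem_rr hG hE g.2)
  apply LinearMap.finrank_le_finrank_of_injective (f := φ)
  intro x y hxy
  have h1 : (x : F) * h = y * h := congrArg Subtype.val hxy
  exact Subtype.ext (mul_right_cancel₀ hG.1 h1)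

theorem rr_inf_ge (he : Function.Injective e) (m : ℕ) :
    2 * m + 3 ≤ Module.finrank K (rrSpace (Finsupp.single M.inf ((2 * m + 4 : ℕ) : ℤ) : Divisor K F)) := by
  classical
  have := M.rr_finite he (Finsupp.single M.inf ((2 * m + 4 : ℕ) : ℤ) : Divisor K F)
  have hmem : ∀ A ∈ degreeLT K (m + 3), ∀ B ∈ degreeLT K m,
      aeval M.u A + aeval M.u B * M.w ∈
        rrSpace (Finsupp.single M.inf ((2 * m + 4 : ℕ) : ℤ) : Divisor K F) := by
    intro A hA B hB P
    by_cases hP : M.inf = P
    · rw [Finsupp.single_apply, if_pos hP, ← hP]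
      refine (M.inf.val.map_add _ _).trans (max_le ?_ ?_)
      · apply M.val_inf_aeval_le
        by_cases hA0 : A = 0
        · rw [hA0, natDegree_zero]
          push_cast
          positivity
        · rw [mem_degreeLT, degree_eq_natDegree hA0] at hA
          have : A.natDegree < m + 3 := by exact_mod_cast hA
          push_cast
          omega
      · by_cases hB0 : B = 0
        · rw [hB0, map_zero, zero_mul, map_zero]
          exact zero_le
        · rw [mem_degreeLT, degree_eq_natDegree hB0] at hB
          have h1 : B.natDegree < m := by exact_mod_cast hB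
          have h2 := M.aeval_ne_zero hB0
          rw [Place.val_eq_exp (mul_ne_zero h2 M.w_ne_zero), Place.ord_mul h2 M.w_ne_zero,
            M.ord_inf_aeval B hB0, M.ord_inf_w, WithZero.exp_le_exp]
          push_cast
          omega
    · rw [Finsupp.single_apply, if_neg hP, WithZero.exp_zero]
      rcases M.cases_place P with h | ⟨a, b, ha, hb⟩
      · exact absurd h.symm hP
      · exact Reg.val_le M ⟨A, B, rfl⟩ ha hb
  let φ : (degreeLT K (m + 3) × degreeLT K m) →ₗ[K]
      rrSpace (Finsupp.single M.inf ((2 * m + 4 : ℕ) : ℤ) : Divisor K F) :=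
    LinearMap.codRestrict _
      (((aeval M.u : K[X] →ₐ[K] F).toLinearMap.comp ((degreeLT K (m + 3)).subtype.comp
        (LinearMap.fst K _ _))) +
      (LinearMap.mulRight K M.w).comp ((aeval M.u : K[X] →ₐ[K] F).toLinearMap.comp
        ((degreeLT K m).subtype.comp (LinearMap.snd K _ _))))
      (fun x => hmem _ x.1.2 _ x.2.2)
  have hφ : Function.Injective φ := by
    rw [← LinearMap.ker_eq_bot, LinearMap.ker_eq_bot']
    rintro ⟨⟨A, hA⟩, ⟨B, hB⟩⟩ h0
    have h1 : aeval M.u A + aeval M.u B * M.w = 0 := congrArg Subtype.val h0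
    have h2 := congrArg M.inv h1
    rw [map_add, map_mul, M.inv_aeval_u, M.inv_aeval_u, M.inv_w, map_zero] at h2
    have h3 : 2 * aeval M.u A = 0 := by linear_combination h1 + h2
    have h4 : 2 * (aeval M.u B * M.w) = 0 := by linear_combination h1 - h2
    have h5 := (mul_eq_zero.1 h3).resolve_left (two_ne_zero_F K F)
    have h6 := (mul_eq_zero.1 ((mul_eq_zero.1 h4).resolve_left (two_ne_zero_F K F))).resolve_right
      M.w_ne_zero
    have h7 := M.trans A h5
    have h8 := M.trans B h6
    subst h7 h8
    rfl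
  have h1 := LinearMap.finrank_le_finrank_of_injective hφ
  have h2 : ∀ n : ℕ, Module.finrank K (degreeLT K n) = n := by
    intro n
    rw [(degreeLTEquiv K n).finrank_eq, Module.finrank_fin_fun]
  have h3 : ∀ n : ℕ, Module.Finite K (degreeLT K n) := fun n =>
    Module.Finite.equiv (degreeLTEquiv K n).symm
  have h4 := h3 (m + 3)
  have h5 := h3 m
  rw [Module.finrank_prod, h2, h2] at h1
  omega

include M in
/-- `deg D + 1 - dim L(D) ≤ 2` -/
theorem rr_bound (he : Function.Injective e) (D : Divisor K F) :
    deg D + 1 - Module.finrank K (rrSpace D) ≤ 2 := by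
  classical
  -- positive part
  let Dp : Divisor K F := Finsupp.mapRange (fun n : ℤ => max n 0) (max_self 0) D
  have hDp : ∀ P, Dp P = max (D P) 0 := fun P => Finsupp.mapRange_apply
  have hDp0 : ∀ P, 0 ≤ Dp P := fun P => by
    rw [hDp]
    exact le_max_right _ _
  obtain ⟨h, E0, hE0, -, hEq⟩ := M.exists_add_inv he Dp
  obtain ⟨m, hm⟩ := Int.eq_ofNat_of_zero_le (deg_nonneg hDp0)
  have hdeg0 := M.deg_of_isDiv he hE0
  let D' : Divisor K F := Dp + M.invS • Dp + Finsupp.single M.inf 4
  have hD' : D' = E0 + Finsupp.single M.inf ((2 * m + 4 : ℕ) : ℤ) := by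
    show Dp + M.invS • Dp + Finsupp.single M.inf 4 = _
    rw [hEq, add_assoc, ← Finsupp.single_add, hm]
    push_cast
    rfl
  have hdegD' : deg D' = 2 * m + 4 := by
    rw [hD', map_add, hdeg0, deg_single, zero_add]
    push_cast
    rfl
  have hE : ∀ P, 0 ≤ (D' - D) P := by
    intro P
    have h1 : D' P = Dp P + Dp (M.invS⁻¹ • P) + (Finsupp.single M.inf 4 : Divisor K F) P := by
      show (Dp + M.invS • Dp + Finsupp.single M.inf 4 : Divisor K F) P = _
      rw [Finsupp.add_apply, Finsupp.add_apply, Divisor.smul_apply]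
    have h2 : 0 ≤ (Finsupp.single M.inf 4 : Divisor K F) P := by
      rw [Finsupp.single_apply]
      split_ifs <;> norm_num
    have h3 := hDp0 (M.invS⁻¹ • P)
    have h4 : D P ≤ Dp P := by
      rw [hDp]
      exact le_max_left _ _
    rw [Finsupp.sub_apply, h1]
    omega
  obtain ⟨n, hn⟩ := Int.eq_ofNat_of_zero_le (deg_nonneg hE)
  have h1 := (M.rr_add he n D (D' - D) hE hn (M.rr_finite he D)).2
  rw [add_sub_cancel] at h1
  have h2 : Module.finrank K (rrSpace (Finsupp.single M.inf ((2 * m + 4 : ℕ) : ℤ) : Divisor K F)) ≤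
      Module.finrank K (rrSpace D') := by
    apply M.rr_lin he hE0.inv
    rw [hD']
    abel
  have h3 := M.rr_inf_ge he m
  have h4 : deg D' - deg D = n := by rw [← map_sub, hn]
  omega

/-! ### small pole orders at infinity -/

theorem ord_w_nonneg_fin (he : Function.Injective e) {P : Place K F} (hP : P ≠ M.inf) :
    (M.invS • P = P ∧ P.ord M.w = 1) ∨ P.ord M.w = 0 := by
  rcases M.cases_place P with h | ⟨a, b, ha, hb⟩
  · exact absurd h hP
  · by_cases hb0 : b = 0
    · subst hb0
      have h := M.at_eqn ha hb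
      rw [zero_pow two_ne_zero] at h
      obtain ⟨i, rfl⟩ := eval_quintic_eq_zero h.symm
      exact Or.inl ⟨(M.fixed_iff he P).2 (Or.inr ⟨i, ha, hb⟩), M.ord_w_of_fixed he ha hb⟩
    · right
      rw [← Place.val_eq_one_iff M.w_ne_zero]
      exact hb.val_eq_one hb0

theorem inv_mem_rr {n : ℤ} {g : F}
    (hg : g ∈ rrSpace (Finsupp.single M.inf n : Divisor K F)) :
    M.inv g ∈ rrSpace (Finsupp.single M.inf n : Divisor K F) := by
  classical
  intro P
  have h1 := Place.smul_val_apply M.invS (M.invS • P) g
  rw [M.smul_smul_self] at h1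
  have h2 : P.val (M.inv g) = (M.invS • P).val g := h1
  rw [h2]
  refine (hg (M.invS • P)).trans ?_
  rw [WithZero.exp_le_exp, Finsupp.single_apply, Finsupp.single_apply]
  by_cases h : M.inf = P
  · rw [if_pos h, if_pos (by rw [← h, M.inv_smul_inf])]
  · rw [if_neg h, if_neg]
    intro h3
    apply h
    rw [← M.smul_smul_self P, ← h3, M.inv_smul_inf]

theorem inv_eq_of_mem (he : Function.Injective e) {g : F}
    (hg : g ∈ rrSpace (Finsupp.single M.inf 4 : Divisor K F)) : M.inv g = g := by
  classical
  by_contra hne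
  obtain ⟨d, hd⟩ : ∃ d, d = g - M.inv g := ⟨_, rfl⟩
  have hd0 : d ≠ 0 := by
    rw [hd, sub_ne_zero]
    exact fun h => hne h.symm
  have hdmem : d ∈ rrSpace (Finsupp.single M.inf 4 : Divisor K F) := by
    rw [hd]
    exact sub_mem hg (M.inv_mem_rr hg)
  have hdinv : M.inv d = -d := by
    rw [hd, map_sub, M.inv_inv]
    ring
  have hq0 : d / M.w ≠ 0 := div_ne_zero hd0 M.w_ne_zero
  have hqinv : M.inv (d / M.w) = d / M.w := by
    rw [map_div₀, hdinv, M.inv_w, neg_div_neg_eq]
  have hordd : ∀ P : Place K F, P ≠ M.inf → 0 ≤ P.ord d := by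
    intro P hP
    have := (mem_rr_iff hd0).1 hdmem P
    rwa [Finsupp.single_apply, if_neg (fun h => hP h.symm), neg_zero] at this
  have hinf : -4 ≤ M.inf.ord d := by
    have := (mem_rr_iff hd0).1 hdmem M.inf
    rwa [Finsupp.single_apply, if_pos rfl] at this
  have hordinf : 1 ≤ M.inf.ord (d / M.w) := by
    rw [Place.ord_div hd0 M.w_ne_zero, M.ord_inf_w]
    omega
  obtain ⟨c, hc⟩ := M.exists_const (d / M.w) (by
    intro P
    rw [Place.val_le_one_iff hq0]
    by_cases hP : P = M.inf
    · rw [hP]
      omega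
    · have h1 := hordd P hP
      rcases M.ord_w_nonneg_fin he hP with ⟨h2, h3⟩ | h3
      · have h4 := M.even_ord_of_inv he h2 hq0 hqinv
        rw [Place.ord_div hd0 M.w_ne_zero, h3] at h4 ⊢
        obtain ⟨j, hj⟩ := h4
        omega
      · rw [Place.ord_div hd0 M.w_ne_zero, h3]
        omega)
  have hc0 : c ≠ 0 := by
    rintro rfl
    rw [map_zero] at hc
    exact hq0 hc
  rw [hc, Place.ord_const hc0] at hordinf
  omega

theorem even_of_mem (he : Function.Injective e) {g : F} (hg0 : g ≠ 0)
    (hg : g ∈ rrSpace (Finsupp.single M.inf 4 : Divisor K F)) : Even (M.inf.ord g) :=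
  M.even_ord_of_inv he M.inv_smul_inf hg0 (M.inv_eq_of_mem he hg)

theorem rr_odd_eq (he : Function.Injective e) (n : ℤ) (hn : n = 1 ∨ n = 3) :
    rrSpace (Finsupp.single M.inf n : Divisor K F) ≤
      rrSpace (Finsupp.single M.inf (n - 1) : Divisor K F) := by
  classical
  intro g hg
  by_cases hg0 : g = 0
  · rw [hg0]
    exact Submodule.zero_mem _
  have h4 : g ∈ rrSpace (Finsupp.single M.inf 4 : Divisor K F) := by
    refine rr_mono ?_ hg
    intro P
    rw [Finsupp.single_apply, Finsupp.single_apply]
    split_ifs <;> omega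
  have hev := M.even_of_mem he hg0 h4
  rw [mem_rr_iff hg0] at hg ⊢
  intro P
  have h1 := hg P
  rw [Finsupp.single_apply] at h1 ⊢
  by_cases h : M.inf = P
  · rw [if_pos h, ← h] at h1 ⊢
    obtain ⟨j, hj⟩ := hev
    omega
  · rw [if_neg h] at h1 ⊢
    exact h1

theorem rr_three (he : Function.Injective e) :
    Module.finrank K (rrSpace (Finsupp.single M.inf 3 : Divisor K F)) ≤ 2 := by
  classical
  have f1 := M.rr_finite he (Finsupp.single M.inf 1 : Divisor K F)
  have f2 := M.rr_finite he (Finsupp.single M.inf (3 - 1) : Divisor K F)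
  have f0 := M.rr_finite he (Finsupp.single M.inf (1 - 1) : Divisor K F)
  have h1 := Submodule.finrank_mono (M.rr_odd_eq he 3 (Or.inr rfl))
  have h2 := Submodule.finrank_mono (M.rr_odd_eq he 1 (Or.inl rfl))
  have h3 := (M.rr_step he (Finsupp.single M.inf 1) M.inf f1).2
  have h4 : Module.finrank K (rrSpace (Finsupp.single M.inf (1 - 1) : Divisor K F)) ≤ 1 := by
    have h5 : rrSpace (Finsupp.single M.inf (1 - 1) : Divisor K F) ≤ Submodule.span K {1} := by
      intro g hg
      obtain ⟨c, hc⟩ := M.exists_const g (by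
        intro P
        have := hg P
        rwa [sub_self, Finsupp.single_zero, Finsupp.zero_apply, WithZero.exp_zero] at this)
      rw [Submodule.mem_span_singleton]
      exact ⟨c, by rw [hc, Algebra.smul_def, mul_one]⟩
    have h6 := Submodule.finrank_mono h5
    have h7 := finrank_span_le_card (R := K) ({1} : Set F)
    simp only [Set.toFinset_singleton, Finset.card_singleton] at h7
    omega
  rw [← Finsupp.single_add] at h3
  have h5 : (3 - 1 : ℤ) = 1 + 1 := by norm_num
  rw [h5] at h1
  omega

include M in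
theorem hasGenus_two (he : Function.Injective e) : HasGenus K F 2 := by
  refine ⟨M.rr_finite he, ⟨Finsupp.single M.inf 3, ?_⟩, ?_⟩
  · have h1 := M.rr_three he
    have h2 := M.rr_bound he (Finsupp.single M.inf 3)
    rw [deg_single] at h2 ⊢
    omega
  · rintro m ⟨D, rfl⟩
    exact M.rr_bound he D

end Model

end Pool.Agent.Work.MP_0fba91_ag
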