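import Pool.Agent.Work.MP_0fba91_ag.Defs

/-!
Cocycle computations and a Kummer type vanishing statement.
-/

open Polynomial

set_option linter.unusedVariables false
set_option linter.unusedSectionVars false

noncomputable section

namespace Pool.Agent.Work.MP_0fba91_ag

section

variable {Γ M : Type} [Group Γ] [AddCommGroup M] [DistribMulAction Γ M]

/-- Correct a cocycle by a coboundary so that `2 z' = (σ ↦ σ W - W)`. -/
theorem coh_adjust (J : AddSubgroup M) (hJ : ∀ (σ : Γ) (m : M), m ∈ J → σ • m ∈ J) (W p : M)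
    (z : Γ → M) (hz : ∀ σ τ, z (σ * τ) = z σ + σ • z τ) (hzJ : ∀ σ, z σ ∈ J)
    (h2z : ∀ σ : Γ, (2 : ℤ) • z σ = σ • p - p) (hpW : p - W ∈ J)
    (hdiv : ∀ m ∈ J, ∃ m' ∈ J, (2 : ℤ) • m' = m) :
    ∃ z' : Γ → M, (∀ σ τ, z' (σ * τ) = z' σ + σ • z' τ) ∧ (∀ σ, z' σ ∈ J) ∧
      (∀ σ : Γ, (2 : ℤ) • z' σ = σ • W - W) ∧ ∃ m' ∈ J, ∀ σ : Γ, z' σ = z σ - (σ • m' - m') := by
  obtain ⟨m', hm', h2m'⟩ := hdiv _ hpW
  refine ⟨fun σ => z σ - (σ • m' - m'), ?_, ?_, ?_, m', hm', fun σ => rfl⟩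
  · intro σ τ
    simp only [hz, smul_sub, mul_smul]
    abel
  · intro σ
    exact J.sub_mem (hzJ σ) (J.sub_mem (hJ σ _ hm') hm')
  · intro σ
    have h1 : (2 : ℤ) • (σ • m' - m') = σ • (p - W) - (p - W) := by
      rw [smul_sub, smul_comm (2 : ℤ) σ m', h2m']
    show (2 : ℤ) • (z σ - (σ • m' - m')) = σ • W - W
    rw [smul_sub, h2z, h1, smul_sub]
    abel

/-- The key computation: an element `τ` acting as `-1` on the `4`-torsion and commuting with `g`
up to an element `n` with `z' n = 0` forces a fixed class. -/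
theorem coh_fix (J : AddSubgroup M) (W : M) (z' : Γ → M)
    (hz : ∀ σ τ, z' (σ * τ) = z' σ + σ • z' τ) (hzJ : ∀ σ, z' σ ∈ J)
    (h2z : ∀ σ : Γ, (2 : ℤ) • z' σ = σ • W - W)
    (hW : ∀ σ : Γ, (2 : ℤ) • (σ • W - W) = 0) (τ g n : Γ) (hn : τ * g = g * τ * n)
    (hzn : z' n = 0) (hτ : ∀ m ∈ J, (4 : ℤ) • m = 0 → τ • m = -m) :
    g • (W + z' τ) = W + z' τ := by
  have h4 : (4 : ℤ) • z' g = 0 := by
    have : (4 : ℤ) • z' g = (2 : ℤ) • ((2 : ℤ) • z' g) := by
      rw [smul_smul]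
      norm_num
    rw [this, h2z, hW]
  have h1 : z' (τ * g) = z' (g * τ) := by
    rw [hn, hz (g * τ) n, hzn, smul_zero, add_zero]
  rw [hz, hz, hτ _ (hzJ g) h4] at h1
  have h2 := h2z g
  rw [two_smul] at h2
  rw [smul_add]
  have h3 : g • W = W + (z' g + z' g) := by
    rw [h2]
    abel
  have h5 : g • z' τ = z' τ - z' g - z' g := by
    have : z' g + g • z' τ = z' τ + -z' g := h1.symm
    have h6 : g • z' τ = z' τ + -z' g - z' g := by
      rw [← this]
      abel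
    rw [h6]
    abel
  rw [h3, h5]
  abel

end

section

variable {k Ω : Type} [Field k] [CharZero k] [Field Ω] [Algebra k Ω] [IsGalois k Ω]

/-- Over a quadratically closed intermediate field there are no nontrivial continuous
homomorphisms to elementary abelian `2`-groups. -/
theorem kummer_vanish (E : IntermediateField k Ω) (hsq : ∀ x ∈ E, ∃ y ∈ E, y ^ 2 = x)
    {A : Type} [AddCommGroup A] (h : Gal(Ω/k) → A) (hloc : IsLocallyConstant h)
    (hadd : ∀ n ∈ E.fixingSubgroup, ∀ n' ∈ E.fixingSubgroup, h (n * n') = h n + h n')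
    (h2 : ∀ n ∈ E.fixingSubgroup, (2 : ℤ) • h n = 0) (n₀ : Gal(Ω/k))
    (hn₀ : n₀ ∈ E.fixingSubgroup) : h n₀ = 0 := by
  classical
  by_contra hne
  have hchar : CharZero Ω := charZero_of_injective_algebraMap (algebraMap k Ω).injective
  -- the 2-torsion of A as a vector space
  let T : AddSubgroup A := (zsmulAddGroupHom (2 : ℤ) : A →+ A).ker
  have hT : ∀ a : A, a ∈ T ↔ (2 : ℤ) • a = 0 := fun a => Iff.rfl
  letI : Module (ZMod 2) T := AddCommGroup.zmodModule (by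
    intro x
    apply Subtype.ext
    have := (hT x.1).1 x.2
    rw [two_zsmul] at this
    rw [two_nsmul]
    exact this)
  let t₀ : T := ⟨h n₀, (hT _).2 (h2 n₀ hn₀)⟩
  have ht₀ : t₀ ≠ 0 := fun h0 => hne (congrArg Subtype.val h0)
  obtain ⟨l, hl⟩ : ∃ l : Module.Dual (ZMod 2) T, l t₀ ≠ 0 := by
    by_contra hcon
    push Not at hcon
    exact ht₀ ((Module.forall_dual_apply_eq_zero_iff (ZMod 2) t₀).1 hcon)
  -- the induced function on the Galois group
  let c : A → ZMod 2 := fun a => if ha : (2 : ℤ) • a = 0 then l ⟨a, (hT a).2 ha⟩ else 0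
  let c' : Gal(Ω/k) → ZMod 2 := fun n => c (h n)
  have hc'loc : IsLocallyConstant c' := hloc.comp c
  have hc'val : ∀ n (hn : n ∈ E.fixingSubgroup), c' n = l ⟨h n, (hT _).2 (h2 n hn)⟩ := by
    intro n hn
    simp only [c', c, dif_pos (h2 n hn)]
  have hc'add : ∀ n ∈ E.fixingSubgroup, ∀ n' ∈ E.fixingSubgroup, c' (n * n') = c' n + c' n' := by
    intro n hn n' hn'
    rw [hc'val n hn, hc'val n' hn', hc'val _ (mul_mem hn hn'), ← map_add]
    congr 1
    exact Subtype.ext (hadd n hn n' hn')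
  have hc'one : c' 1 = 0 := by
    have h3 := hc'add 1 (one_mem _) 1 (one_mem _)
    rw [mul_one] at h3
    have h4 : c' 1 + 0 = c' 1 + c' 1 := by rw [add_zero]; exact h3
    exact (add_left_cancel h4).symm
  have hc'inv : ∀ n ∈ E.fixingSubgroup, c' n⁻¹ = - c' n := by
    intro n hn
    have h3 := hc'add n hn n⁻¹ (inv_mem hn)
    rw [mul_inv_cancel, hc'one] at h3
    exact (neg_eq_of_add_eq_zero_right h3.symm).symm
  have hn₀c : c' n₀ ≠ 0 := by
    rw [hc'val n₀ hn₀]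
    exact hl
  have htwo : ∀ a : ZMod 2, a ≠ 0 → a = 1 := by decide
  -- the kernel
  let V : Subgroup Gal(Ω/k) :=
    { carrier := {n | n ∈ E.fixingSubgroup ∧ c' n = 0}
      mul_mem' := fun {a b} ha hb => ⟨mul_mem ha.1 hb.1, by rw [hc'add a ha.1 b hb.1, ha.2, hb.2, add_zero]⟩
      one_mem' := ⟨one_mem _, hc'one⟩
      inv_mem' := fun {a} ha => ⟨inv_mem ha.1, by rw [hc'inv a ha.1, ha.2, neg_zero]⟩ }
  have hVmem : ∀ n, n ∈ V ↔ n ∈ E.fixingSubgroup ∧ c' n = 0 := fun n => Iff.rfl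
  have hVclosed : IsClosed (V : Set Gal(Ω/k)) := by
    have h3 : (V : Set Gal(Ω/k)) = (E.fixingSubgroup : Set Gal(Ω/k)) ∩ c' ⁻¹' {0} := by
      ext n
      exact hVmem n
    rw [h3]
    exact (InfiniteGalois.fixingSubgroup_isClosed E).inter (hc'loc.isClosed_fiber 0)
  have hVfix := InfiniteGalois.fixingSubgroup_fixedField (⟨V, hVclosed⟩ : ClosedSubgroup Gal(Ω/k))
  have hn₀V : n₀ ∉ V := fun h3 => hn₀c h3.2
  have hn₀V' : n₀ ∉ (IntermediateField.fixedField V).fixingSubgroup := by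
    rw [show (IntermediateField.fixedField V).fixingSubgroup = V from hVfix]
    exact hn₀V
  rw [IntermediateField.mem_fixingSubgroup_iff] at hn₀V'
  push Not at hn₀V'
  obtain ⟨x, hxV, hx⟩ := hn₀V'
  have hxV' : ∀ n ∈ V, n x = x := by
    intro n hn
    exact (IntermediateField.mem_fixedField_iff V x).1 hxV n hn
  have hn₀sq : n₀ * n₀ ∈ V := by
    refine ⟨mul_mem hn₀ hn₀, ?_⟩
    rw [hc'add n₀ hn₀ n₀ hn₀, htwo _ hn₀c]
    decide
  obtain ⟨y, hy⟩ : ∃ y : Ω, y = x - n₀ x := ⟨_, rfl⟩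
  have hy0 : y ≠ 0 := by
    intro h3
    rw [hy, sub_eq_zero] at h3
    exact hx h3.symm
  have hn₀y : n₀ y = -y := by
    have h3 : n₀ (n₀ x) = x := hxV' _ hn₀sq
    rw [hy, map_sub, h3]
    ring
  have hVy : ∀ n ∈ V, n y = y := by
    intro n hn
    have h3 : n₀⁻¹ * n * n₀ ∈ V := by
      refine ⟨mul_mem (mul_mem (inv_mem hn₀) hn.1) hn₀, ?_⟩
      rw [hc'add _ (mul_mem (inv_mem hn₀) hn.1) _ hn₀, hc'add _ (inv_mem hn₀) _ hn.1,
        hc'inv _ hn₀, hn.2]
      ring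
    have h4 : n (n₀ x) = n₀ x := by
      have h5 : n * n₀ = n₀ * (n₀⁻¹ * n * n₀) := by group
      have h6 : (n * n₀) x = n₀ x := by
        rw [h5, AlgEquiv.mul_apply, hxV' _ h3]
      exact h6
    rw [hy, map_sub, hxV' n hn, h4]
  have hysq : y ^ 2 ∈ E := by
    rw [← InfiniteGalois.fixedField_fixingSubgroup E, IntermediateField.mem_fixedField_iff]
    intro n hn
    rw [map_pow]
    by_cases hc : c' n = 0
    · rw [hVy n ⟨hn, hc⟩]
    · have h3 : n₀⁻¹ * n ∈ V := by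
        refine ⟨mul_mem (inv_mem hn₀) hn, ?_⟩
        rw [hc'add _ (inv_mem hn₀) _ hn, hc'inv _ hn₀, htwo _ hn₀c, htwo _ hc]
        decide
      have h4 : n y = -y := by
        have h5 : n = n₀ * (n₀⁻¹ * n) := by group
        rw [h5, AlgEquiv.mul_apply, hVy _ h3, hn₀y]
      rw [h4, neg_sq]
  obtain ⟨d, hd, hd2⟩ := hsq _ hysq
  have hyE : y ∈ E := by
    rcases sq_eq_sq_iff_eq_or_eq_neg.1 hd2.symm with h3 | h3
    · rw [h3]
      exact hd
    · rw [h3]
      exact neg_mem hd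
  have h3 : n₀ y = y := (IntermediateField.mem_fixingSubgroup_iff E n₀).1 hn₀ y hyE
  rw [h3] at hn₀y
  have h4 : 2 * y = 0 := by linear_combination hn₀y
  exact hy0 ((mul_eq_zero.1 h4).resolve_left two_ne_zero)

end

end Pool.Agent.Work.MP_0fba91_ag
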