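import Mathlib

/-!
Definitions used in the statement: closed points (places) of a curve over an algebraically closed
field, divisors, the Picard group, its Galois action, and `H¹`.
-/

open Polynomial

set_option linter.unusedVariables false

noncomputable section

namespace Pool.Agent.Work.MP_0fba91_ag

/-! ### Curves over an algebraically closed field through their function field -/

/-- A closed point of the smooth projective curve with function field `F` over the algebraically
closed field `K`: a normalized (surjective) discrete valuation of `F` which is trivial on `K`. -/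
structure Place (K F : Type) [Field K] [CommRing F] [Algebra K F] where
  /-- the valuation, written multiplicatively -/
  val : Valuation F (WithZero (Multiplicative ℤ))
  surjective : Function.Surjective val
  trivial_on : ∀ c : K, c ≠ 0 → val (algebraMap K F c) = 1

/-- The divisors: the free abelian group on the closed points. -/
abbrev Divisor (K F : Type) [Field K] [CommRing F] [Algebra K F] : Type := Place K F →₀ ℤ

section

variable {K F : Type} [Field K] [CommRing F] [Algebra K F]

@[ext]
theorem Place.ext {P Q : Place K F} (h : ∀ g, P.val g = Q.val g) : P = Q := by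
  cases P
  cases Q
  congr
  exact Valuation.ext h

/-- The order of vanishing of `g` at the closed point `P` (and `0` if `g = 0`). -/
def Place.ord (P : Place K F) (g : F) : ℤ := - WithZero.log (P.val g)

theorem Place.algebraMap_injective (P : Place K F) : Function.Injective (algebraMap K F) := by
  rw [injective_iff_map_eq_zero]
  intro c hc
  by_contra hne
  have := P.trivial_on c hne
  rw [hc, map_zero] at this
  exact zero_ne_one this

/-- The degree of a divisor, the sum of its coefficients (`K` being algebraically closed, all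
closed points have degree one). -/
def deg : Divisor K F →+ ℤ := Finsupp.degree

/-- `D` is a principal divisor: `D = ∑ ord_P(g) P` for an invertible element `g` of `F`. -/
def IsPrincipal (D : Divisor K F) : Prop := ∃ g : F, IsUnit g ∧ ∀ P : Place K F, D P = P.ord g

theorem IsPrincipal.zero : IsPrincipal (0 : Divisor K F) :=
  ⟨1, isUnit_one, fun P => by simp [Place.ord]⟩

theorem IsPrincipal.add {D E : Divisor K F} (hD : IsPrincipal D) (hE : IsPrincipal E) :
    IsPrincipal (D + E) := by
  obtain ⟨g, hg, hD⟩ := hD
  obtain ⟨h, hh, hE⟩ := hE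
  refine ⟨g * h, hg.mul hh, fun P => ?_⟩
  have h1 : P.val g ≠ 0 := (hg.map P.val).ne_zero
  have h2 : P.val h ≠ 0 := (hh.map P.val).ne_zero
  simp only [Finsupp.add_apply, hD, hE, Place.ord, map_mul, WithZero.log_mul h1 h2]
  ring

theorem IsPrincipal.neg {D : Divisor K F} (hD : IsPrincipal D) : IsPrincipal (-D) := by
  obtain ⟨g, ⟨u, rfl⟩, hD⟩ := hD
  refine ⟨((u⁻¹ : Fˣ) : F), Units.isUnit _, fun P => ?_⟩
  have h1 : P.val (u : F) ≠ 0 := (u.isUnit.map P.val).ne_zero
  have h2 : P.val ((u⁻¹ : Fˣ) : F) ≠ 0 := ((u⁻¹).isUnit.map P.val).ne_zero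
  have h3 : WithZero.log (P.val (u : F)) + WithZero.log (P.val ((u⁻¹ : Fˣ) : F)) = 0 := by
    rw [← WithZero.log_mul h1 h2, ← map_mul, Units.mul_inv, map_one, WithZero.log_one]
  simp only [Finsupp.neg_apply, hD, Place.ord]
  omega

end

section

variable (K F : Type) [Field K] [CommRing F] [Algebra K F]

/-- The group of principal divisors. -/
def principal : AddSubgroup (Divisor K F) where
  carrier := {D | IsPrincipal D}
  zero_mem' := IsPrincipal.zero
  add_mem' := IsPrincipal.add
  neg_mem' := IsPrincipal.neg

/-- The Picard group: divisors modulo principal divisors. -/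
def Pic : Type := Divisor K F ⧸ principal K F

instance : AddCommGroup (Pic K F) := QuotientAddGroup.Quotient.addCommGroup (principal K F)

/-- The class of a divisor. -/
def Divisor.cls {K F : Type} [Field K] [CommRing F] [Algebra K F] : Divisor K F →+ Pic K F :=
  QuotientAddGroup.mk' (principal K F)

theorem cls_surjective {K F : Type} [Field K] [CommRing F] [Algebra K F] :
    Function.Surjective (Divisor.cls (K := K) (F := F)) :=
  QuotientAddGroup.mk'_surjective (principal K F)

theorem cls_eq_iff {K F : Type} [Field K] [CommRing F] [Algebra K F] {D E : Divisor K F} :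
    D.cls = E.cls ↔ D - E ∈ principal K F :=
  QuotientAddGroup.eq_iff_sub_mem

/-- `Pic⁰`: the classes of divisors of degree `0`. -/
def Pic0 : AddSubgroup (Pic K F) := (deg (K := K) (F := F)).ker.map Divisor.cls

/-- `Pic¹`: the classes of divisors of degree `1`. -/
def Pic1 : Set (Pic K F) := Divisor.cls '' {D | deg D = 1}

end

/-! ### Group actions -/

/-- The group `G`, which acts on the ring `F` by automorphisms, maps constants (elements of `K`)
to constants. -/
class ActsOnConst (G K F : Type) [Group G] [Field K] [CommRing F] [Algebra K F]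
    [MulSemiringAction G F] : Prop where
  smul_const : ∀ (g : G) (c : K), ∃ c' : K, g • algebraMap K F c = algebraMap K F c'

section

variable {G K F : Type} [Group G] [Field K] [CommRing F] [Algebra K F] [MulSemiringAction G F]
  [ActsOnConst G K F]

omit [ActsOnConst G K F] in
theorem Place.surj_comap (g : G) (P : Place K F) :
    Function.Surjective (P.val.comap (MulSemiringAction.toRingHom G F g⁻¹)) := by
  intro a
  obtain ⟨x, hx⟩ := P.surjective a
  refine ⟨g • x, ?_⟩
  show P.val (g⁻¹ • g • x) = a
  rw [inv_smul_smul, hx]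

theorem Place.trivial_comap (g : G) (P : Place K F) (c : K) (hc : c ≠ 0) :
    P.val.comap (MulSemiringAction.toRingHom G F g⁻¹) (algebraMap K F c) = 1 := by
  show P.val (g⁻¹ • algebraMap K F c) = 1
  obtain ⟨c', hc'⟩ := ActsOnConst.smul_const g⁻¹ c (F := F)
  rw [hc']
  apply P.trivial_on
  rintro rfl
  rw [map_zero, inv_smul_eq_iff, smul_zero] at hc'
  exact hc (P.algebraMap_injective (by rw [hc', map_zero]))

/-- The action on closed points: `ord_{g P}(x) = ord_P(g⁻¹ x)`. -/
instance : SMul G (Place K F) where
  smul g P := ⟨P.val.comap (MulSemiringAction.toRingHom G F g⁻¹), P.surj_comap g,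
    P.trivial_comap g⟩

theorem Place.smul_val' (g : G) (P : Place K F) (x : F) : (g • P).val x = P.val (g⁻¹ • x) := rfl

theorem Place.one_smul' (P : Place K F) : (1 : G) • P = P := by
  apply Place.ext
  intro x
  rw [Place.smul_val', inv_one, one_smul]

theorem Place.mul_smul' (g h : G) (P : Place K F) : (g * h) • P = g • h • P := by
  apply Place.ext
  intro x
  rw [Place.smul_val', Place.smul_val', Place.smul_val', mul_inv_rev, mul_smul]

/-- The action on closed points: `ord_{g P}(x) = ord_P(g⁻¹ x)`. -/
instance : MulAction G (Place K F) :=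
  { one_smul := Place.one_smul', mul_smul := Place.mul_smul' }

/-- The action on divisors: `g (∑ n_P P) = ∑ n_P (g P)`. -/
def smulDivisor (g : G) : Divisor K F →+ Divisor K F :=
  Finsupp.mapDomain.addMonoidHom (fun P => g • P)

instance : SMul G (Divisor K F) where
  smul g D := smulDivisor g D

theorem Divisor.smul_def' (g : G) (D : Divisor K F) :
    g • D = Finsupp.mapDomain (fun P => g • P) D := rfl

theorem Divisor.one_smul' (D : Divisor K F) : (1 : G) • D = D := by
  rw [Divisor.smul_def']
  simp only [one_smul]
  exact Finsupp.mapDomain_id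

theorem Divisor.mul_smul' (g h : G) (D : Divisor K F) : (g * h) • D = g • h • D := by
  rw [Divisor.smul_def', Divisor.smul_def', Divisor.smul_def', ← Finsupp.mapDomain_comp]
  simp only [mul_smul]
  rfl

theorem Divisor.smul_zero' (g : G) : g • (0 : Divisor K F) = 0 := map_zero (smulDivisor g)

theorem Divisor.smul_add' (g : G) (D E : Divisor K F) : g • (D + E) = g • D + g • E :=
  map_add (smulDivisor g) D E

/-- The action on divisors: `g (∑ n_P P) = ∑ n_P (g P)`. -/
instance : DistribMulAction G (Divisor K F) :=
  { one_smul := Divisor.one_smul', mul_smul := Divisor.mul_smul'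
    smul_zero := Divisor.smul_zero', smul_add := Divisor.smul_add' }

theorem Divisor.smul_apply' (g : G) (D : Divisor K F) (P : Place K F) :
    (g • D) P = D (g⁻¹ • P) := by
  have h : P = g • (g⁻¹ • P) := by rw [smul_inv_smul]
  conv_lhs => rw [h]
  exact Finsupp.mapDomain_apply (MulAction.injective g) D (g⁻¹ • P)

theorem smulDivisor_principal (g : G) :
    principal K F ≤ (principal K F).comap (smulDivisor g) := by
  rintro D ⟨x, hx, h⟩
  refine ⟨g • x, hx.map (MulSemiringAction.toRingHom G F g), fun P => ?_⟩
  show (g • D) P = P.ord (g • x)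
  rw [Divisor.smul_apply', h, Place.ord, Place.smul_val', inv_inv, Place.ord]

/-- The action on divisor classes. -/
instance : SMul G (Pic K F) where
  smul g x := QuotientAddGroup.map (principal K F) (principal K F) (smulDivisor g)
    (smulDivisor_principal g) x

theorem Divisor.smul_cls' (g : G) (D : Divisor K F) :
    g • (Divisor.cls D) = Divisor.cls (g • D) := rfl

theorem Pic.one_smul' (x : Pic K F) : (1 : G) • x = x := by
  obtain ⟨D, rfl⟩ := cls_surjective x
  rw [Divisor.smul_cls', one_smul]

theorem Pic.mul_smul' (g h : G) (x : Pic K F) : (g * h) • x = g • h • x := by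
  obtain ⟨D, rfl⟩ := cls_surjective x
  rw [Divisor.smul_cls', Divisor.smul_cls', Divisor.smul_cls', mul_smul]

theorem Pic.smul_zero' (g : G) : g • (0 : Pic K F) = 0 := map_zero _

theorem Pic.smul_add' (g : G) (x y : Pic K F) : g • (x + y) = g • x + g • y := map_add _ x y

/-- The action on divisor classes. -/
instance : DistribMulAction G (Pic K F) :=
  { one_smul := Pic.one_smul', mul_smul := Pic.mul_smul'
    smul_zero := Pic.smul_zero', smul_add := Pic.smul_add' }

theorem smul_mem_Pic0' (g : G) {x : Pic K F} (hx : x ∈ Pic0 K F) : g • x ∈ Pic0 K F := by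
  obtain ⟨D, hD, hx⟩ := hx
  refine ⟨g • D, ?_, by rw [← Divisor.smul_cls', hx]⟩
  have h0 : deg D = 0 := hD
  have h1 : Finsupp.degree (Finsupp.mapDomain (fun P => g • P) D) = Finsupp.degree D :=
    Finsupp.degree_mapDomain _ _
  exact h1.trans h0

end

/-! ### First cohomology of a topological group with values in a discrete module -/

section

variable (G M : Type) [Group G] [TopologicalSpace G] [AddCommGroup M] [DistribMulAction G M]

/-- `z : G → M` is a continuous (that is, locally constant) `1`-cocycle of `G` with values in the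
discrete `G`-module `M`. -/
def IsCocycle (z : G → M) : Prop :=
  IsLocallyConstant z ∧ ∀ σ τ : G, z (σ * τ) = z σ + σ • z τ

/-- `z : G → M` is a `1`-coboundary: `z(σ) = σ m - m` for some `m`. -/
def IsCoboundary (z : G → M) : Prop := ∃ m : M, ∀ σ : G, z σ = σ • m - m

variable {G M}

theorem IsCocycle.zero : IsCocycle G M 0 := ⟨IsLocallyConstant.const 0, fun σ τ => by simp⟩

theorem IsCocycle.add {a b : G → M} (ha : IsCocycle G M a) (hb : IsCocycle G M b) :
    IsCocycle G M (a + b) := by
  obtain ⟨ha, ha'⟩ := ha
  obtain ⟨hb, hb'⟩ := hb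
  refine ⟨ha.add hb, fun σ τ => ?_⟩
  simp only [Pi.add_apply, ha', hb', smul_add]
  abel

theorem IsCocycle.neg {a : G → M} (ha : IsCocycle G M a) : IsCocycle G M (-a) := by
  obtain ⟨ha, ha'⟩ := ha
  refine ⟨ha.neg, fun σ τ => ?_⟩
  simp only [Pi.neg_apply, ha', smul_neg]
  abel

omit [TopologicalSpace G] in
theorem IsCoboundary.zero : IsCoboundary G M 0 := ⟨0, fun σ => by simp⟩

omit [TopologicalSpace G] in
theorem IsCoboundary.add {a b : G → M} (ha : IsCoboundary G M a) (hb : IsCoboundary G M b) :
    IsCoboundary G M (a + b) := by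
  obtain ⟨m, hm⟩ := ha
  obtain ⟨n, hn⟩ := hb
  refine ⟨m + n, fun σ => ?_⟩
  rw [Pi.add_apply, hm, hn, smul_add]
  abel

omit [TopologicalSpace G] in
theorem IsCoboundary.neg {a : G → M} (ha : IsCoboundary G M a) : IsCoboundary G M (-a) := by
  obtain ⟨m, hm⟩ := ha
  refine ⟨-m, fun σ => ?_⟩
  rw [Pi.neg_apply, hm, smul_neg]
  abel

variable (G M)

/-- The group of continuous `1`-cocycles. -/
def Z1 : AddSubgroup (G → M) where
  carrier := {z | IsCocycle G M z}
  zero_mem' := IsCocycle.zero
  add_mem' := IsCocycle.add
  neg_mem' := IsCocycle.neg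

omit [TopologicalSpace G] in
/-- The group of `1`-coboundaries. -/
def B1 : AddSubgroup (G → M) where
  carrier := {z | IsCoboundary G M z}
  zero_mem' := IsCoboundary.zero
  add_mem' := IsCoboundary.add
  neg_mem' := IsCoboundary.neg

/-- `H¹(G, M)`: continuous `1`-cocycles modulo `1`-coboundaries. -/
abbrev H1 : Type := Z1 G M ⧸ (B1 G M).addSubgroupOf (Z1 G M)

end

/-! ### The curve `y² = f(x)` over a field `k`, its Jacobian and the torsor `Pic¹` -/

section

variable (k : Type) [Field k] (f : k[X])

/-- The polynomial `y² - f(x)` in the variable `y` over `k̄[x]`. -/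
def curvePoly : (AlgebraicClosure k)[X][X] :=
  X ^ 2 - C (f.map (algebraMap k (AlgebraicClosure k)))

/-- The ring `k̄[x, y]/(y² - f(x))`. -/
abbrev CoordRing : Type := AdjoinRoot (curvePoly k f)

/-- The function field `k̄(x, √f(x))` of the curve `y² = f(x)` over `k̄`: the total ring of
fractions of `k̄[x, y]/(y² - f(x))`. -/
def FunField : Type := FractionRing (CoordRing k f)

instance : CommRing (FunField k f) :=
  (inferInstance : CommRing (FractionRing (CoordRing k f)))

instance : Algebra (CoordRing k f) (FunField k f) :=
  (inferInstance : Algebra (CoordRing k f) (FractionRing (CoordRing k f)))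

instance : Algebra (AlgebraicClosure k) (FunField k f) :=
  (inferInstance : Algebra (AlgebraicClosure k) (FractionRing (CoordRing k f)))

instance : IsFractionRing (CoordRing k f) (FunField k f) :=
  (inferInstance : IsFractionRing (CoordRing k f) (FractionRing (CoordRing k f)))

instance : IsScalarTower (AlgebraicClosure k) (CoordRing k f) (FunField k f) :=
  (inferInstance : IsScalarTower (AlgebraicClosure k) (CoordRing k f)
    (FractionRing (CoordRing k f)))

theorem curvePoly_map (σ : Gal(AlgebraicClosure k/k)) :
    (curvePoly k f).map ((Polynomial.mapEquiv σ.toRingEquiv :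
      (AlgebraicClosure k)[X] ≃+* (AlgebraicClosure k)[X]) :
      (AlgebraicClosure k)[X] →+* (AlgebraicClosure k)[X]) = curvePoly k f := by
  have h : (Polynomial.mapEquiv σ.toRingEquiv :
      (AlgebraicClosure k)[X] ≃+* (AlgebraicClosure k)[X])
        (f.map (algebraMap k (AlgebraicClosure k))) =
      f.map (algebraMap k (AlgebraicClosure k)) := by
    rw [Polynomial.mapEquiv_apply, Polynomial.map_map]
    congr 1
    ext c
    simp
  rw [curvePoly, Polynomial.map_sub, Polynomial.map_pow, Polynomial.map_X, Polynomial.map_C]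
  congr 2

/-- The action of `σ` in the absolute Galois group on `k̄[x, y]/(y² - f(x))`: it fixes `x` and `y`
and acts on the coefficients. -/
def galCoord (σ : Gal(AlgebraicClosure k/k)) : CoordRing k f ≃+* CoordRing k f :=
  AdjoinRoot.mapRingEquiv (Polynomial.mapEquiv σ.toRingEquiv) (curvePoly k f) (curvePoly k f)
    (by rw [curvePoly_map])

/-- The action of `σ` in the absolute Galois group on the function field of the curve over
`k̄`. -/
def galFun (σ : Gal(AlgebraicClosure k/k)) : FunField k f ≃+* FunField k f :=
  IsFractionRing.ringEquivOfRingEquiv (galCoord k f σ)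

theorem galCoord_of (σ : Gal(AlgebraicClosure k/k)) (p : (AlgebraicClosure k)[X]) :
    galCoord k f σ (AdjoinRoot.of (curvePoly k f) p) =
      AdjoinRoot.of (curvePoly k f) (p.map (σ.toRingEquiv : AlgebraicClosure k →+* _)) := by
  exact AdjoinRoot.map_of _ _ _ (by rw [curvePoly_map]) _

theorem galCoord_root (σ : Gal(AlgebraicClosure k/k)) :
    galCoord k f σ (AdjoinRoot.root (curvePoly k f)) = AdjoinRoot.root (curvePoly k f) := by
  exact AdjoinRoot.map_root _ _ _ (by rw [curvePoly_map])

theorem galFun_coord (σ : Gal(AlgebraicClosure k/k)) (r : CoordRing k f) :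
    galFun k f σ (algebraMap _ _ r) = algebraMap _ _ (galCoord k f σ r) :=
  IsFractionRing.ringEquivOfRingEquiv_algebraMap _ _

theorem galFun_algebraMap (σ : Gal(AlgebraicClosure k/k)) (c : AlgebraicClosure k) :
    galFun k f σ (algebraMap _ _ c) = algebraMap _ _ (σ c) := by
  rw [IsScalarTower.algebraMap_apply (AlgebraicClosure k) (CoordRing k f) (FunField k f),
    IsScalarTower.algebraMap_apply (AlgebraicClosure k) (CoordRing k f) (FunField k f),
    galFun_coord]
  congr 1
  rw [AdjoinRoot.algebraMap_eq']
  simp only [RingHom.comp_apply, galCoord_of, Polynomial.algebraMap_apply, Polynomial.map_C,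
    Algebra.algebraMap_self, RingHom.id_apply]
  rfl

theorem galCoord_one (x : CoordRing k f) : galCoord k f 1 x = x := by
  have h : ((galCoord k f 1 : CoordRing k f ≃+* CoordRing k f) :
      CoordRing k f →+* CoordRing k f) = RingHom.id _ := by
    apply AdjoinRoot.ringHom_ext
    · ext x <;> simp [galCoord]
    · simp [galCoord]
  exact RingHom.congr_fun h x

theorem galCoord_mul (σ τ : Gal(AlgebraicClosure k/k)) (x : CoordRing k f) :
    galCoord k f (σ * τ) x = galCoord k f σ (galCoord k f τ x) := by
  have h : ((galCoord k f (σ * τ) : CoordRing k f ≃+* CoordRing k f) :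
      CoordRing k f →+* CoordRing k f) =
      ((galCoord k f σ : CoordRing k f ≃+* CoordRing k f) : CoordRing k f →+* CoordRing k f).comp
        ((galCoord k f τ : CoordRing k f ≃+* CoordRing k f) :
          CoordRing k f →+* CoordRing k f) := by
    apply AdjoinRoot.ringHom_ext
    · ext x <;> simp [galCoord]
    · simp [galCoord]
  exact RingHom.congr_fun h x

theorem galFun_ext {φ ψ : FunField k f →+* FunField k f}
    (h : ∀ r : CoordRing k f, φ (algebraMap _ _ r) = ψ (algebraMap _ _ r))
    (x : FunField k f) : φ x = ψ x := by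
  have h1 : φ = ψ := IsLocalization.ringHom_ext (nonZeroDivisors (CoordRing k f))
    (RingHom.ext h)
  rw [h1]

theorem galFun_one (x : FunField k f) : galFun k f 1 x = x :=
  galFun_ext k f (φ := (galFun k f 1 : FunField k f →+* FunField k f)) (ψ := RingHom.id _)
    (fun r => by
      show galFun k f 1 (algebraMap _ _ r) = algebraMap _ _ r
      rw [galFun_coord, galCoord_one]) x

theorem galFun_mul (σ τ : Gal(AlgebraicClosure k/k)) (x : FunField k f) :
    galFun k f (σ * τ) x = galFun k f σ (galFun k f τ x) :=
  galFun_ext k f (φ := (galFun k f (σ * τ) : FunField k f →+* FunField k f))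
    (ψ := (galFun k f σ : FunField k f →+* FunField k f).comp
      (galFun k f τ : FunField k f →+* FunField k f))
    (fun r => by
      show galFun k f (σ * τ) (algebraMap _ _ r) = galFun k f σ (galFun k f τ (algebraMap _ _ r))
      rw [galFun_coord, galFun_coord, galFun_coord, galCoord_mul]) x

instance : SMul Gal(AlgebraicClosure k/k) (FunField k f) where
  smul σ x := galFun k f σ x

/-- The action of the absolute Galois group on the function field of the curve over `k̄`. -/
instance : MulSemiringAction Gal(AlgebraicClosure k/k) (FunField k f) :=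
  { one_smul := galFun_one k f
    mul_smul := galFun_mul k f
    smul_zero := fun σ => map_zero (galFun k f σ)
    smul_add := fun σ => map_add (galFun k f σ)
    smul_one := fun σ => map_one (galFun k f σ)
    smul_mul := fun σ => map_mul (galFun k f σ) }

instance : ActsOnConst Gal(AlgebraicClosure k/k) (AlgebraicClosure k) (FunField k f) :=
  ⟨fun σ c => ⟨σ c, galFun_algebraMap k f σ c⟩⟩

/-- The group `J(k̄)` of geometric points of the Jacobian of the curve `y² = f(x)`: divisor
classes of degree `0` over `k̄`. -/
def Jac : Type := Pic0 (AlgebraicClosure k) (FunField k f)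

instance : AddCommGroup (Jac k f) := (Pic0 (AlgebraicClosure k) (FunField k f)).toAddCommGroup

/-- The inclusion `J(k̄) = Pic⁰ → Pic`. -/
def Jac.toPic : Jac k f →+ Pic (AlgebraicClosure k) (FunField k f) :=
  (Pic0 (AlgebraicClosure k) (FunField k f)).subtype

variable {k f}

theorem Jac.ext {m n : Jac k f} (h : Jac.toPic k f m = Jac.toPic k f n) : m = n := Subtype.ext h

theorem Jac.toPic_mem (m : Jac k f) : Jac.toPic k f m ∈ Pic0 (AlgebraicClosure k) (FunField k f) :=
  m.2

/-- The Galois action on `J(k̄)`. -/
instance : SMul Gal(AlgebraicClosure k/k) (Jac k f) where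
  smul σ m := ⟨σ • Jac.toPic k f m, smul_mem_Pic0' σ (Jac.toPic_mem m)⟩

theorem Jac.toPic_smul (σ : Gal(AlgebraicClosure k/k)) (m : Jac k f) :
    Jac.toPic k f (σ • m) = σ • Jac.toPic k f m := rfl

theorem Jac.one_smul' (m : Jac k f) : (1 : Gal(AlgebraicClosure k/k)) • m = m := by
  apply Jac.ext
  rw [Jac.toPic_smul, one_smul]

theorem Jac.mul_smul' (σ τ : Gal(AlgebraicClosure k/k)) (m : Jac k f) :
    (σ * τ) • m = σ • τ • m := by
  apply Jac.ext
  rw [Jac.toPic_smul, Jac.toPic_smul, Jac.toPic_smul, mul_smul]

theorem Jac.smul_zero' (σ : Gal(AlgebraicClosure k/k)) : σ • (0 : Jac k f) = 0 := by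
  apply Jac.ext
  rw [Jac.toPic_smul, map_zero, smul_zero]

theorem Jac.smul_add' (σ : Gal(AlgebraicClosure k/k)) (m n : Jac k f) :
    σ • (m + n) = σ • m + σ • n := by
  apply Jac.ext
  rw [Jac.toPic_smul, map_add, smul_add, map_add, Jac.toPic_smul, Jac.toPic_smul]

/-- The Galois action on `J(k̄)`. -/
instance : DistribMulAction Gal(AlgebraicClosure k/k) (Jac k f) :=
  { one_smul := Jac.one_smul', mul_smul := Jac.mul_smul'
    smul_zero := Jac.smul_zero', smul_add := Jac.smul_add' }

variable (k f)

/-- The group `H¹(k, J) = H¹(Gal(k̄/k), J(k̄))`. -/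
def H1Jac : Type := H1 Gal(AlgebraicClosure k/k) (Jac k f)

instance : AddCommGroup (H1Jac k f) :=
  (inferInstance : AddCommGroup (H1 Gal(AlgebraicClosure k/k) (Jac k f)))

/-- The class in `H¹(k, J)` of a continuous cocycle. -/
def H1Jac.mk (z : Z1 Gal(AlgebraicClosure k/k) (Jac k f)) : H1Jac k f := QuotientAddGroup.mk z

/-- `c` is the class in `H¹(k, J)` of the torsor `Pic¹` of divisor classes of degree `1`: for
some `p ∈ Pic¹(k̄)`, it is the class of the cocycle `σ ↦ σ p - p`. -/
def IsClassOfPic1 (c : H1Jac k f) : Prop :=
  ∃ (p : Pic (AlgebraicClosure k) (FunField k f)) (z : Z1 Gal(AlgebraicClosure k/k) (Jac k f)),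
    p ∈ Pic1 (AlgebraicClosure k) (FunField k f) ∧
    (∀ σ : Gal(AlgebraicClosure k/k), Jac.toPic k f (z.1 σ) = σ • p - p) ∧
    c = H1Jac.mk k f z

end

end Pool.Agent.Work.MP_0fba91_ag
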