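import Pool.Agent.Work.MP_0fba91_ag.Exist

/-!
Divisors of functions, degree zero, constants, and the `2`-torsion of the divisor class group.
-/

open Polynomial

set_option linter.unusedVariables false
set_option linter.unusedSectionVars false

noncomputable section

namespace Pool.Agent.Work.MP_0fba91_ag

namespace Model

variable {K F : Type} [Field K] [IsAlgClosed K] [CharZero K] [Field F] [Algebra K F]
  {e : Fin 5 → K} (M : Model K F e)

/-- `D` is the divisor of `g` -/
def IsDiv (D : Divisor K F) (g : F) : Prop := g ≠ 0 ∧ ∀ P : Place K F, D P = P.ord g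

theorem IsDiv.mul {D E : Divisor K F} {g h : F} (hD : IsDiv D g) (hE : IsDiv E h) :
    IsDiv (D + E) (g * h) :=
  ⟨mul_ne_zero hD.1 hE.1, fun P => by
    rw [Finsupp.add_apply, hD.2, hE.2, Place.ord_mul hD.1 hE.1]⟩

theorem IsDiv.inv {D : Divisor K F} {g : F} (hD : IsDiv D g) : IsDiv (-D) g⁻¹ :=
  ⟨inv_ne_zero hD.1, fun P => by rw [Finsupp.neg_apply, hD.2, Place.ord_inv hD.1]⟩

theorem IsDiv.div {D E : Divisor K F} {g h : F} (hD : IsDiv D g) (hE : IsDiv E h) :
    IsDiv (D - E) (g / h) := by
  rw [sub_eq_add_neg, div_eq_mul_inv]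
  exact hD.mul hE.inv

theorem IsDiv.zpow {D : Divisor K F} {g : F} (hD : IsDiv D g) (n : ℤ) : IsDiv (n • D) (g ^ n) :=
  ⟨zpow_ne_zero _ hD.1, fun P => by
    rw [Finsupp.smul_apply, hD.2, Place.ord_zpow hD.1, smul_eq_mul]⟩

theorem IsDiv.const {c : K} (hc : c ≠ 0) : IsDiv (0 : Divisor K F) (algebraMap K F c) :=
  ⟨(_root_.map_ne_zero _).2 hc, fun P => by rw [Finsupp.zero_apply, Place.ord_const hc]⟩

theorem IsDiv.unique {D E : Divisor K F} {g : F} (hD : IsDiv D g) (hE : IsDiv E g) : D = E := by
  ext P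
  rw [hD.2, hE.2]

theorem IsDiv.smul {D : Divisor K F} {g : F} (hD : IsDiv D g) (φ : SemiAut K F) :
    IsDiv (φ • D) (φ.1 g) :=
  ⟨(map_ne_zero_iff _ φ.1.injective).2 hD.1, fun P => by
    rw [Divisor.smul_apply, hD.2, Place.smul_ord, _root_.inv_inv]⟩

theorem IsDiv.mem_principal {D : Divisor K F} {g : F} (hD : IsDiv D g) : D ∈ principal K F :=
  ⟨g, hD.1.isUnit, hD.2⟩

theorem mem_principal_iff {D : Divisor K F} : D ∈ principal K F ↔ ∃ g, IsDiv D g :=
  ⟨fun ⟨g, hg, h⟩ => ⟨g, hg.ne_zero, h⟩, fun ⟨_, h⟩ => h.mem_principal⟩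

/-- the divisor of `u - a` -/
theorem isDiv_u_sub (he : Function.Injective e) {P : Place K F} {a : K} (ha : P.At M.u a) :
    IsDiv (Finsupp.single P 1 + Finsupp.single (M.invS • P) 1 - Finsupp.single M.inf 2)
      (M.u - algebraMap K F a) := by
  classical
  refine ⟨M.u_sub_ne_zero a, fun Q => ?_⟩
  obtain ⟨b, hb⟩ := M.exists_at_w ha
  rw [Finsupp.sub_apply, Finsupp.add_apply, Finsupp.single_apply, Finsupp.single_apply,
    Finsupp.single_apply]
  rcases M.cases_place Q with rfl | ⟨a', b', ha', hb'⟩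
  · have h1 : P ≠ M.inf := M.ne_inf_of_at ha
    have h2 : M.invS • P ≠ M.inf := M.ne_inf_of_at (M.inv_at_u ha)
    have h3 := M.ord_aeval_inf M.ord_inf_neg (X - C a) (X_sub_C_ne_zero a)
    rw [map_sub, aeval_X, aeval_C, natDegree_X_sub_C, M.ord_inf_u] at h3
    rw [if_neg h1, if_neg h2, if_pos rfl, h3]
    norm_num
  · have h0 : Q ≠ M.inf := M.ne_inf_of_at ha'
    rw [if_neg h0.symm]
    by_cases haa : a' = a
    · subst haa
      have h1 := M.at_eqn ha hb
      have h2 := M.at_eqn ha' hb'
      rw [← h1] at h2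
      by_cases hb0 : b = 0
      · subst hb0
        rw [zero_pow two_ne_zero] at h2
        have hb0' : b' = 0 := pow_eq_zero_iff two_ne_zero |>.1 h2
        subst hb0'
        rw [zero_pow two_ne_zero] at h1
        obtain ⟨i, rfl⟩ := eval_quintic_eq_zero h1.symm
        have h3 : P = Q := M.eq_of_at he ha hb ha' hb'
        subst h3
        have h4 : M.invS • P = P := (M.fixed_iff he P).2 (Or.inr ⟨i, ha, hb⟩)
        rw [h4, if_pos rfl, M.ord_u_sub_of_fixed he ha hb]
        norm_num
      · have hb0' : b' ≠ 0 := by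
          rintro rfl
          rw [zero_pow two_ne_zero] at h2
          exact hb0 (pow_eq_zero_iff two_ne_zero |>.1 h2.symm)
        rw [M.ord_u_sub_of_eq ha' hb' hb0']
        rcases sq_eq_sq_iff_eq_or_eq_neg.1 h2 with h3 | h3
        · subst h3
          have h4 : P = Q := M.eq_of_at he ha hb ha' hb'
          subst h4
          have h5 : M.invS • P ≠ P := by
            intro h6
            have h7 := M.inv_at_w hb
            rw [h6] at h7
            have h8 := hb.unique h7
            have h9 : 2 * b' = 0 := by linear_combination h8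
            exact hb0 ((mul_eq_zero.1 h9).resolve_left two_ne_zero)
          rw [if_pos rfl, if_neg h5]
          norm_num
        · subst h3
          have h4 : M.invS • P = Q := M.eq_of_at he (M.inv_at_u ha) (M.inv_at_w hb) ha' hb'
          have h5 : P ≠ Q := by
            rintro rfl
            have h8 := hb.unique hb'
            have h9 : 2 * b = 0 := by linear_combination h8
            exact hb0 ((mul_eq_zero.1 h9).resolve_left two_ne_zero)
          rw [if_pos h4, if_neg h5]
          norm_num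
    · rw [M.ord_u_sub_of_ne ha' haa]
      have h1 : P ≠ Q := by
        rintro rfl
        exact haa (ha'.unique ha)
      have h2 : M.invS • P ≠ Q := by
        rintro rfl
        exact haa (ha'.unique (M.inv_at_u ha))
      rw [if_neg h1, if_neg h2]
      norm_num

/-- polynomials in `u` have a divisor, of degree `0` -/
theorem exists_isDiv_aeval (he : Function.Injective e) (p : K[X]) (hp : p ≠ 0) :
    ∃ D : Divisor K F, IsDiv D (aeval M.u p) ∧ deg D = 0 := by
  refine poly_induction
    (motive := fun p => ∃ D : Divisor K F, IsDiv D (aeval M.u p) ∧ deg D = 0) ?_ ?_ ?_ p hp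
  · intro c hc
    refine ⟨0, ?_, map_zero _⟩
    rw [aeval_C]
    exact IsDiv.const hc
  · intro a
    obtain ⟨P, hP⟩ := exists_place_at M.u M.w M.trans M.gen a
    refine ⟨Finsupp.single P 1 + Finsupp.single (M.invS • P) 1 - Finsupp.single M.inf 2, ?_, ?_⟩
    · rw [map_sub, aeval_X, aeval_C]
      exact M.isDiv_u_sub he hP
    · simp [deg, Finsupp.degree_single]
  · rintro p q hp hq ⟨D, hD, hD'⟩ ⟨E, hE, hE'⟩
    refine ⟨D + E, ?_, ?_⟩
    · rw [map_mul]
      exact hD.mul hE
    · rw [map_add, hD', hE', add_zero]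

/-- the norm of `A(u) + B(u) w` -/
theorem mul_inv_eq (A B : K[X]) :
    (aeval M.u A + aeval M.u B * M.w) * M.inv (aeval M.u A + aeval M.u B * M.w) =
      aeval M.u (A ^ 2 - B ^ 2 * quintic e) := by
  simp only [map_add, map_mul, map_sub, map_pow, M.inv_aeval_u, M.inv_w, ← M.eqn']
  ring

theorem exists_isDiv_reg (he : Function.Injective e) (A B : K[X])
    (h0 : aeval M.u A + aeval M.u B * M.w ≠ 0) :
    ∃ D : Divisor K F, IsDiv D (aeval M.u A + aeval M.u B * M.w) ∧ deg D = 0 := by
  classical
  set g := aeval M.u A + aeval M.u B * M.w with hg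
  have hinv0 : M.inv g ≠ 0 := (map_ne_zero_iff _ M.inv.injective).2 h0
  have hN0 : A ^ 2 - B ^ 2 * quintic e ≠ 0 := by
    intro h
    have h1 := M.mul_inv_eq A B
    rw [h, map_zero] at h1
    exact mul_ne_zero h0 hinv0 h1
  obtain ⟨N, hN, hN'⟩ := M.exists_isDiv_aeval he _ hN0
  have hfin : (Function.support fun P : Place K F => P.ord g).Finite := by
    refine ((N.support : Set (Place K F)).toFinite.union (Set.finite_singleton M.inf)).subset ?_
    intro P hP
    rw [Function.mem_support] at hP
    rcases M.cases_place P with h1 | ⟨a, b, ha, hb⟩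
    · exact Or.inr h1
    · left
      have h1 : 0 ≤ P.ord g :=
        (Place.val_le_one_iff h0).1 (Reg.val_le M ⟨A, B, rfl⟩ ha hb)
      have h2 : 0 ≤ P.ord (M.inv g) := by
        refine (Place.val_le_one_iff hinv0).1 (Reg.val_le M ⟨A, -B, ?_⟩ ha hb)
        rw [hg]
        simp only [map_add, map_mul, map_neg, M.inv_aeval_u, M.inv_w]
        ring
      have h3 : N P = P.ord g + P.ord (M.inv g) := by
        rw [hN.2, ← M.mul_inv_eq, Place.ord_mul h0 hinv0]
      rw [Finset.mem_coe, Finsupp.mem_support_iff, h3]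
      omega
  let D : Divisor K F := Finsupp.ofSupportFinite (fun P : Place K F => P.ord g) hfin
  have hD : IsDiv D g := ⟨h0, fun P => rfl⟩
  refine ⟨D, hD, ?_⟩
  have hD2 : IsDiv (M.invS • D) (M.inv g) := hD.smul M.invS
  have h4 : D + M.invS • D = N := by
    refine (hD.mul hD2).unique ?_
    rw [M.mul_inv_eq]
    exact hN
  have h5 := congrArg deg h4
  rw [map_add, deg_smul, hN'] at h5
  omega

include M in
/-- every nonzero function has a divisor, of degree `0` -/
theorem exists_isDiv (he : Function.Injective e) (g : F) (hg : g ≠ 0) :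
    ∃ D : Divisor K F, IsDiv D g ∧ deg D = 0 := by
  obtain ⟨A, B, D, hD, hgD⟩ := M.gen g
  have hD0 := M.aeval_ne_zero hD
  have h10 : aeval M.u A + aeval M.u B * M.w ≠ 0 := by
    rw [← hgD]
    exact mul_ne_zero hg hD0
  obtain ⟨E, hE, hE'⟩ := M.exists_isDiv_reg he A B h10
  obtain ⟨G, hG, hG'⟩ := M.exists_isDiv_aeval he D hD
  refine ⟨E - G, ?_, ?_⟩
  · have h1 : g = (aeval M.u A + aeval M.u B * M.w) / aeval M.u D := by
      rw [← hgD, mul_div_cancel_right₀ _ hD0]
    rw [h1]
    exact hE.div hG
  · rw [map_sub, hE', hG', sub_zero]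

include M in
theorem deg_of_isDiv (he : Function.Injective e) {D : Divisor K F} {g : F} (hD : IsDiv D g) :
    deg D = 0 := by
  obtain ⟨E, hE, hE'⟩ := M.exists_isDiv he g hD.1
  rw [hD.unique hE, hE']

/-! ### constants -/

theorem const_aux (n : ℕ) : ∀ (p q : K[X]) (h : F), q ≠ 0 → q.natDegree ≤ n →
    h * aeval M.u q = aeval M.u p → (∀ P : Place K F, P.val h ≤ 1) → ∃ c : K, h = algebraMap K F c := by
  induction n with
  | zero =>
    intro p q h hq hn hpq hP
    obtain ⟨c, hc⟩ := natDegree_eq_zero.1 (Nat.le_zero.1 hn)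
    have hc0 : c ≠ 0 := by
      rintro rfl
      rw [C_0] at hc
      exact hq hc.symm
    rw [← hc, aeval_C] at hpq
    have hc1 : algebraMap K F c ≠ 0 := (_root_.map_ne_zero _).2 hc0
    by_cases hp : p = 0
    · refine ⟨0, ?_⟩
      rw [hp, map_zero] at hpq
      rw [map_zero]
      exact (mul_eq_zero.1 hpq).resolve_right hc1
    · have hh0 : h ≠ 0 := by
        rintro rfl
        rw [zero_mul] at hpq
        exact M.aeval_ne_zero hp hpq.symm
      have h1 := (Place.val_le_one_iff hh0).1 (hP M.inf)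
      have h2 : M.inf.ord h = p.natDegree * M.inf.ord M.u := by
        have h3 : M.inf.ord (h * algebraMap K F c) = M.inf.ord (aeval M.u p) := by rw [hpq]
        rwa [Place.ord_mul hh0 hc1, Place.ord_const hc0, add_zero,
          M.ord_aeval_inf M.ord_inf_neg p hp] at h3
      rw [h2, M.ord_inf_u] at h1
      have h4 : p.natDegree = 0 := by omega
      obtain ⟨d, hd⟩ := natDegree_eq_zero.1 h4
      rw [← hd, aeval_C] at hpq
      refine ⟨d / c, ?_⟩
      rw [map_div₀, eq_div_iff hc1]
      exact hpq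
  | succ n ih =>
    intro p q h hq hn hpq hP
    by_cases hdeg : q.natDegree = 0
    · exact ih p q h hq (by omega) hpq hP
    · have hdeg' : q.degree ≠ 0 := by
        intro h0
        exact hdeg (natDegree_eq_of_degree_eq_some h0)
      obtain ⟨a, ha⟩ := IsAlgClosed.exists_root q hdeg'
      obtain ⟨q', hq'⟩ := dvd_iff_isRoot.2 ha
      obtain ⟨P, hPa⟩ := exists_place_at M.u M.w M.trans M.gen a
      have h1 := hPa.aeval q
      have h2 := hPa.aeval p
      rw [IsRoot.def.1 ha, Place.at_zero_iff] at h1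
      have h3 : P.val (aeval M.u p) < 1 := by
        rw [← hpq, map_mul]
        calc P.val h * P.val (aeval M.u q) ≤ 1 * P.val (aeval M.u q) := by
              gcongr
              exact hP P
          _ < 1 := by rwa [one_mul]
      have h4 := h2.eq_zero h3
      obtain ⟨p', hp'⟩ := dvd_iff_isRoot.2 h4
      have hq'0 : q' ≠ 0 := by
        rintro rfl
        rw [mul_zero] at hq'
        exact hq hq'
      refine ih p' q' h hq'0 ?_ ?_ hP
      · rw [hq', natDegree_mul (X_sub_C_ne_zero a) hq'0, natDegree_X_sub_C] at hn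
        omega
      · rw [hq', hp'] at hpq
        have h5 := M.u_sub_ne_zero a
        simp only [map_mul, map_sub, aeval_X, aeval_C] at hpq
        apply mul_left_cancel₀ h5
        linear_combination hpq

include M in
/-- a function without poles is constant -/
theorem exists_const (g : F) (hg : ∀ P : Place K F, P.val g ≤ 1) :
    ∃ c : K, g = algebraMap K F c := by
  obtain ⟨A, B, D, hD, hgD⟩ := M.gen g
  have hD0 := M.aeval_ne_zero hD
  have hinv : ∀ P : Place K F, P.val (M.inv g) ≤ 1 := by
    intro P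
    have h1 := Place.smul_val_apply M.invS (M.invS • P) g
    rw [M.smul_smul_self] at h1
    have h2 : P.val (M.inv g) = (M.invS • P).val g := h1
    rw [h2]
    exact hg _
  have hinvD : M.inv g * aeval M.u D = aeval M.u A - aeval M.u B * M.w := by
    have h1 := congrArg M.inv hgD
    simp only [map_add, map_mul, M.inv_aeval_u, M.inv_w] at h1
    rw [h1]
    ring
  obtain ⟨s, hs⟩ := M.const_aux D.natDegree (2 * A) D (g + M.inv g) hD le_rfl (by
    rw [add_mul, hgD, hinvD]
    simp only [map_mul, map_ofNat]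
    ring) (fun P => (P.val.map_add _ _).trans (max_le (hg P) (hinv P)))
  obtain ⟨t, ht⟩ := M.const_aux (D ^ 2).natDegree (A ^ 2 - B ^ 2 * quintic e) (D ^ 2)
    (g * M.inv g) (pow_ne_zero _ hD) le_rfl (by
      have h2 : g * M.inv g * aeval M.u (D ^ 2) =
          (g * aeval M.u D) * (M.inv g * aeval M.u D) := by
        simp only [map_pow]
        ring
      rw [h2, hgD, hinvD]
      simp only [map_mul, map_sub, map_pow, ← M.eqn']
      ring) (fun P => by
      rw [map_mul]
      exact mul_le_one' (hg P) (hinv P))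
  obtain ⟨r, hr⟩ := IsAlgClosed.exists_pow_nat_eq (s ^ 2 - 4 * t) (n := 2) two_pos
  have h3 : (2 * g - algebraMap K F s) ^ 2 = (algebraMap K F r) ^ 2 := by
    rw [← map_pow, hr, map_sub, map_mul, map_pow, ← hs, ← ht, map_ofNat]
    ring
  have h20 : (2 : F) ≠ 0 := by
    have : algebraMap K F 2 ≠ 0 := (_root_.map_ne_zero _).2 two_ne_zero
    rwa [map_ofNat] at this
  rcases sq_eq_sq_iff_eq_or_eq_neg.1 h3 with h4 | h4
  · refine ⟨(s + r) / 2, ?_⟩
    rw [map_div₀, map_add, map_ofNat, eq_div_iff h20]
    linear_combination h4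
  · refine ⟨(s - r) / 2, ?_⟩
    rw [map_div₀, map_sub, map_ofNat, eq_div_iff h20]
    linear_combination h4

include M in
/-- functions with the same divisor differ by a constant -/
theorem exists_const_of_isDiv {D : Divisor K F} {g h : F} (hg : IsDiv D g) (hh : IsDiv D h) :
    ∃ c : K, c ≠ 0 ∧ g = algebraMap K F c * h := by
  have h0 := hg.div hh
  rw [sub_self] at h0
  obtain ⟨c, hc⟩ := M.exists_const (g / h) (fun P => by
    rw [Place.val_le_one_iff h0.1, ← h0.2, Finsupp.zero_apply])
  refine ⟨c, ?_, ?_⟩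
  · rintro rfl
    rw [map_zero] at hc
    exact h0.1 hc
  · rw [← hc, div_mul_cancel₀ _ hh.1]

end Model

end Pool.Agent.Work.MP_0fba91_ag
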