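import Pool.Agent.Work.MP_0fba91_ag.Places

/-!
Existence of closed points with a prescribed value of `u`.
-/

open Polynomial

set_option linter.unusedVariables false
set_option linter.unusedSectionVars false

noncomputable section

namespace Pool.Agent.Work.MP_0fba91_ag

theorem exists_place_at {K F : Type} [Field K] [CharZero K] [Field F] [Algebra K F] (u w : F)
    (trans : ∀ p : K[X], aeval u p = 0 → p = 0)
    (gen : ∀ g : F, ∃ A B D : K[X], D ≠ 0 ∧ g * aeval u D = aeval u A + aeval u B * w)
    (a : K) : ∃ P : Place K F, P.At u a := by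
  classical
  let : Algebra K[X] F := (aeval u : K[X] →ₐ[K] F).toRingHom.toAlgebra
  have hmap : ∀ p : K[X], algebraMap K[X] F p = aeval u p := fun p => rfl
  have : IsScalarTower K K[X] F := IsScalarTower.of_algebraMap_eq (fun c => by
    rw [hmap, Polynomial.algebraMap_apply, aeval_C]
    simp)
  have : FaithfulSMul K[X] F := (faithfulSMul_iff_algebraMap_injective _ _).2 (by
    rw [injective_iff_map_eq_zero]
    exact trans)
  let : Algebra (FractionRing K[X]) F := FractionRing.liftAlgebra K[X] F
  have : IsScalarTower K[X] (FractionRing K[X]) F := FractionRing.isScalarTower_liftAlgebra _ _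
  have : CharZero (FractionRing K[X]) :=
    charZero_of_injective_algebraMap (IsFractionRing.injective K[X] (FractionRing K[X]))
  have : Module.Finite (FractionRing K[X]) F := by
    refine ⟨⟨{1, w}, ?_⟩⟩
    rw [eq_top_iff]
    intro g _
    obtain ⟨A, B, D, hD, hg⟩ := gen g
    have hD' : algebraMap K[X] (FractionRing K[X]) D ≠ 0 := by
      rw [Ne, FaithfulSMul.algebraMap_eq_zero_iff]
      exact hD
    have hD'' : aeval u D ≠ 0 := fun h => hD (trans _ h)
    rw [Finset.coe_insert, Finset.coe_singleton, Submodule.mem_span_pair]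
    refine ⟨algebraMap K[X] (FractionRing K[X]) A / algebraMap K[X] (FractionRing K[X]) D,
      algebraMap K[X] (FractionRing K[X]) B / algebraMap K[X] (FractionRing K[X]) D, ?_⟩
    rw [Algebra.smul_def, Algebra.smul_def, map_div₀, map_div₀,
      ← IsScalarTower.algebraMap_apply, ← IsScalarTower.algebraMap_apply,
      ← IsScalarTower.algebraMap_apply, hmap, hmap, hmap]
    field_simp
    linear_combination -hg
  have : IsDedekindDomain (integralClosure K[X] F) :=
    integralClosure.isDedekindDomain K[X] (FractionRing K[X]) F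
  have : IsFractionRing (integralClosure K[X] F) F :=
    integralClosure.isFractionRing_of_finite_extension (FractionRing K[X]) F
  have hmax : (Ideal.span {X - C a} : Ideal K[X]).IsMaximal :=
    PrincipalIdealRing.isMaximal_of_irreducible (irreducible_X_sub_C a)
  have : FaithfulSMul K[X] (integralClosure K[X] F) := inferInstance
  obtain ⟨Q, hQmax, hQ⟩ := Ideal.exists_ideal_over_maximal_of_isIntegral
    (S := integralClosure K[X] F) (Ideal.span {X - C a}) (by
      rw [(RingHom.injective_iff_ker_eq_bot (algebraMap K[X] (integralClosure K[X] F))).1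
        (FaithfulSMul.algebraMap_injective _ _)]
      exact bot_le)
  have hmem : algebraMap K[X] (integralClosure K[X] F) (X - C a) ∈ Q := by
    rw [← Ideal.mem_comap]
    have : Q.comap (algebraMap K[X] (integralClosure K[X] F)) = Ideal.span {X - C a} := hQ
    rw [this]
    exact Ideal.mem_span_singleton_self _
  have hne : Q ≠ ⊥ := by
    rintro rfl
    rw [Ideal.mem_bot, FaithfulSMul.algebraMap_eq_zero_iff] at hmem
    exact X_sub_C_ne_zero a hmem
  let v : IsDedekindDomain.HeightOneSpectrum (integralClosure K[X] F) :=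
    ⟨Q, hQmax.isPrime, hne⟩
  refine ⟨⟨v.valuation F, v.valuation_surjective F, ?_⟩, ?_⟩
  · intro c hc
    have h1 : algebraMap K F c =
        algebraMap (integralClosure K[X] F) F (algebraMap K[X] (integralClosure K[X] F) (C c)) := by
      rw [← IsScalarTower.algebraMap_apply, hmap, aeval_C]
    rw [h1, v.valuation_eq_one_iff_notMem]
    intro hmem'
    have hunit : IsUnit (algebraMap K[X] (integralClosure K[X] F) (C c)) :=
      (isUnit_C.2 (isUnit_iff_ne_zero.2 hc)).map _
    exact hQmax.ne_top (Ideal.eq_top_of_isUnit_mem _ hmem' hunit)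
  · show v.valuation F (u - algebraMap K F a) < 1
    have h1 : u - algebraMap K F a =
        algebraMap (integralClosure K[X] F) F
          (algebraMap K[X] (integralClosure K[X] F) (X - C a)) := by
      rw [← IsScalarTower.algebraMap_apply, hmap, map_sub, aeval_X, aeval_C]
    rw [h1, v.valuation_lt_one_iff_mem]
    exact hmem

namespace Place

variable {K F : Type} [Field K] [Field F] [Algebra K F]

theorem smul_val_apply (φ : SemiAut K F) (P : Place K F) (g : F) :
    (φ • P).val (φ.1 g) = P.val g := by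
  rw [Place.smul_val, ← RingAut.mul_apply, ← Subgroup.coe_mul, inv_mul_cancel, Subgroup.coe_one,
    RingAut.one_apply]

theorem smul_ord_apply (φ : SemiAut K F) (P : Place K F) (g : F) :
    (φ • P).ord (φ.1 g) = P.ord g := by
  rw [Place.ord, smul_val_apply, Place.ord]

theorem At.smul {P : Place K F} {x : F} {c c' : K} (hx : P.At x c) (φ : SemiAut K F)
    (hc : φ.1 (algebraMap K F c) = algebraMap K F c') : (φ • P).At (φ.1 x) c' := by
  rw [At, ← hc, ← map_sub, smul_val_apply]
  exact hx

end Place

namespace Model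

variable {K F : Type} [Field K] [IsAlgClosed K] [CharZero K] [Field F] [Algebra K F]
  {e : Fin 5 → K} (M : Model K F e)

/-- the hyperelliptic involution -/
def invS : SemiAut K F := ⟨M.inv.toRingEquiv, by
  intro x
  constructor
  · rintro ⟨c, hc⟩
    refine ⟨c, ?_⟩
    apply M.inv.injective
    rw [AlgEquiv.commutes]
    exact hc
  · rintro ⟨c, rfl⟩
    exact ⟨c, (M.inv.commutes c).symm⟩⟩

theorem invS_apply (g : F) : M.invS.1 g = M.inv g := rfl

theorem invS_algebraMap (c : K) : M.invS.1 (algebraMap K F c) = algebraMap K F c :=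
  M.inv.commutes c

theorem inv_aeval_u (p : K[X]) : M.inv (aeval M.u p) = aeval M.u p := by
  have h : aeval (M.inv M.u) p = M.inv (aeval M.u p) :=
    Polynomial.aeval_algHom_apply (M.inv : F →ₐ[K] F) M.u p
  rw [← h, M.inv_u]

theorem inv_inv (g : F) : M.inv (M.inv g) = g := by
  obtain ⟨A, B, D, hD, hg⟩ := M.gen g
  have hD0 := M.aeval_ne_zero hD
  have h1 := congrArg (fun x => M.inv (M.inv x)) hg
  simp only [map_mul, map_add, M.inv_aeval_u, M.inv_w, map_neg, neg_neg] at h1
  rw [← hg] at h1
  exact mul_right_cancel₀ hD0 h1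

theorem invS_mul_self : M.invS * M.invS = 1 := by
  apply Subtype.ext
  apply RingEquiv.ext
  intro x
  exact M.inv_inv x

theorem invS_inv : M.invS⁻¹ = M.invS := inv_eq_of_mul_eq_one_left M.invS_mul_self

theorem smul_smul_self (P : Place K F) : M.invS • (M.invS • P) = P := by
  rw [← mul_smul, M.invS_mul_self, one_smul]

theorem exists_at (a b : K) (hab : b ^ 2 = (quintic e).eval a) :
    ∃ P : Place K F, P.At M.u a ∧ P.At M.w b := by
  obtain ⟨P, hP⟩ := exists_place_at M.u M.w M.trans M.gen a
  obtain ⟨b', hb'⟩ := M.exists_at_w hP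
  have h1 := M.at_eqn hP hb'
  rw [← hab] at h1
  rcases sq_eq_sq_iff_eq_or_eq_neg.1 h1 with h | h
  · subst h
    exact ⟨P, hP, hb'⟩
  · refine ⟨M.invS • P, ?_, ?_⟩
    · have := hP.smul M.invS (M.invS_algebraMap a)
      rwa [invS_apply, M.inv_u] at this
    · have := (hb'.smul M.invS (M.invS_algebraMap b')).neg
      rwa [invS_apply, M.inv_w, neg_neg, h, neg_neg] at this

theorem aeval_inv_u (p : K[X]) :
    aeval M.u⁻¹ p = aeval M.u p.reverse * M.u⁻¹ ^ p.natDegree := by
  let _ := invertibleOfNonzero (inv_ne_zero M.u_ne_zero)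
  have h := eval₂_reverse_mul_pow (algebraMap K F) M.u⁻¹ p
  rw [invOf_eq_inv, _root_.inv_inv] at h
  exact h.symm

theorem aeval_u_inv (p : K[X]) :
    aeval M.u p = aeval M.u⁻¹ p.reverse * M.u ^ p.natDegree := by
  let _ := invertibleOfNonzero M.u_ne_zero
  have h := eval₂_reverse_mul_pow (algebraMap K F) M.u p
  rw [invOf_eq_inv] at h
  exact h.symm

theorem exists_inf : ∃ P : Place K F, P.ord M.u < 0 := by
  have htrans : ∀ p : K[X], aeval M.u⁻¹ p = 0 → p = 0 := by
    intro p hp
    rw [M.aeval_inv_u] at hp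
    have h1 := (mul_eq_zero.1 hp).resolve_right (pow_ne_zero _ (inv_ne_zero M.u_ne_zero))
    exact reverse_eq_zero.1 (M.trans _ h1)
  have hgen : ∀ g : F, ∃ A B D : K[X], D ≠ 0 ∧
      g * aeval M.u⁻¹ D = aeval M.u⁻¹ A + aeval M.u⁻¹ B * M.w := by
    intro g
    obtain ⟨A, B, D, hD, hg⟩ := M.gen g
    refine ⟨A.reverse * X ^ (B.natDegree + D.natDegree), B.reverse * X ^ (A.natDegree + D.natDegree),
      D.reverse * X ^ (A.natDegree + B.natDegree), ?_, ?_⟩
    · exact mul_ne_zero (by rwa [Ne, reverse_eq_zero]) (pow_ne_zero _ X_ne_zero)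
    · rw [M.aeval_u_inv D, M.aeval_u_inv A, M.aeval_u_inv B] at hg
      have hu := M.u_ne_zero
      simp only [map_mul, map_pow, aeval_X, inv_pow]
      generalize aeval M.u⁻¹ A.reverse = a' at *
      generalize aeval M.u⁻¹ B.reverse = b' at *
      generalize aeval M.u⁻¹ D.reverse = d' at *
      rw [pow_add, pow_add, pow_add]
      field_simp
      linear_combination hg
  obtain ⟨P, hP⟩ := exists_place_at (K := K) M.u⁻¹ M.w htrans hgen 0
  refine ⟨P, ?_⟩
  rw [Place.at_zero_iff, Place.val_lt_one_iff (inv_ne_zero M.u_ne_zero),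
    Place.ord_inv M.u_ne_zero] at hP
  omega

/-- the place at infinity -/
def inf : Place K F := M.exists_inf.choose

theorem ord_inf_neg : M.inf.ord M.u < 0 := M.exists_inf.choose_spec

theorem eq_inf {P : Place K F} (hP : P.ord M.u < 0) : P = M.inf := (M.eq_of_inf hP M.ord_inf_neg).1

theorem ord_inf_u : M.inf.ord M.u = -2 := (M.eq_of_inf M.ord_inf_neg M.ord_inf_neg).2.1

theorem ord_inf_w : M.inf.ord M.w = -5 := (M.eq_of_inf M.ord_inf_neg M.ord_inf_neg).2.2

theorem ne_inf_of_at {P : Place K F} {a : K} (ha : P.At M.u a) : P ≠ M.inf := by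
  rintro rfl
  have h1 := (Place.val_le_one_iff M.u_ne_zero).1 ha.val_le
  rw [M.ord_inf_u] at h1
  omega

/-- every place is the place at infinity or has a center -/
theorem cases_place (P : Place K F) : P = M.inf ∨ ∃ a b : K, P.At M.u a ∧ P.At M.w b := by
  by_cases h : P.ord M.u < 0
  · exact Or.inl (M.eq_inf h)
  · right
    obtain ⟨a, ha⟩ := M.exists_at_u P ((Place.val_le_one_iff M.u_ne_zero).2 (not_lt.1 h))
    obtain ⟨b, hb⟩ := M.exists_at_w ha
    exact ⟨a, b, ha, hb⟩

theorem eval_quintic_eq_zero {a : K} (h : (quintic e).eval a = 0) : ∃ i, a = e i := by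
  rw [quintic, eval_prod, Finset.prod_eq_zero_iff] at h
  obtain ⟨i, -, hi⟩ := h
  refine ⟨i, ?_⟩
  rwa [eval_sub, eval_X, eval_C, sub_eq_zero] at hi

/-- uniqueness of places with given center -/
theorem eq_of_at (he : Function.Injective e) {P Q : Place K F} {a b : K} (haP : P.At M.u a)
    (hbP : P.At M.w b) (haQ : Q.At M.u a) (hbQ : Q.At M.w b) : P = Q := by
  by_cases hb : b = 0
  · subst hb
    have h := M.at_eqn haP hbP
    rw [zero_pow two_ne_zero] at h
    obtain ⟨i, rfl⟩ := eval_quintic_eq_zero h.symm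
    exact (M.eq_of_at_zero he haP hbP haQ hbQ).1
  · exact (M.eq_of_at_of_ne two_ne_zero hb haP hbP haQ hbQ).1

theorem inv_at_u {P : Place K F} {a : K} (ha : P.At M.u a) : (M.invS • P).At M.u a := by
  have := ha.smul M.invS (M.invS_algebraMap a)
  rwa [invS_apply, M.inv_u] at this

theorem inv_at_w {P : Place K F} {b : K} (hb : P.At M.w b) : (M.invS • P).At M.w (-b) := by
  have := (hb.smul M.invS (M.invS_algebraMap b)).neg
  rwa [invS_apply, M.inv_w, neg_neg] at this

theorem inv_smul_inf : M.invS • M.inf = M.inf := by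
  apply M.eq_inf
  have := Place.smul_ord_apply M.invS M.inf M.u
  rw [invS_apply, M.inv_u] at this
  rw [this]
  exact M.ord_inf_neg

/-- places fixed by the involution -/
theorem fixed_iff (he : Function.Injective e) (P : Place K F) : M.invS • P = P ↔
    P = M.inf ∨ ∃ i, P.At M.u (e i) ∧ P.At M.w 0 := by
  constructor
  · intro h
    rcases M.cases_place P with h1 | ⟨a, b, ha, hb⟩
    · exact Or.inl h1
    · right
      have h2 := M.inv_at_w hb
      rw [h] at h2
      have h3 := hb.unique h2
      have hb0 : b = 0 := by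
        have : 2 * b = 0 := by linear_combination h3
        exact (mul_eq_zero.1 this).resolve_left two_ne_zero
      subst hb0
      have h4 := M.at_eqn ha hb
      rw [zero_pow two_ne_zero] at h4
      obtain ⟨i, rfl⟩ := eval_quintic_eq_zero h4.symm
      exact ⟨i, ha, hb⟩
  · rintro (rfl | ⟨i, ha, hb⟩)
    · exact M.inv_smul_inf
    · have h1 := M.inv_at_u ha
      have h2 := M.inv_at_w hb
      rw [neg_zero] at h2
      exact M.eq_of_at he h1 h2 ha hb

/-- order of `u - a` -/
theorem ord_u_sub_of_ne {P : Place K F} {a a' : K} (ha : P.At M.u a') (h : a' ≠ a) :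
    P.ord (M.u - algebraMap K F a) = 0 := by
  rw [← Place.val_eq_one_iff (M.u_sub_ne_zero a)]
  exact (ha.sub (Place.at_const a)).val_eq_one (sub_ne_zero.2 h)

theorem ord_u_sub_of_eq {P : Place K F} {a b : K} (ha : P.At M.u a) (hb : P.At M.w b)
    (hb0 : b ≠ 0) : P.ord (M.u - algebraMap K F a) = 1 :=
  (M.eq_of_at_of_ne two_ne_zero hb0 ha hb ha hb).2

theorem ord_w_of_fixed (he : Function.Injective e) {P : Place K F} {i : Fin 5}
    (ha : P.At M.u (e i)) (hb : P.At M.w 0) : P.ord M.w = 1 :=
  (M.eq_of_at_zero he ha hb ha hb).2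

theorem aeval_quintic (e : Fin 5 → K) (x : F) :
    aeval x (quintic e) = ∏ i, (x - algebraMap K F (e i)) := by
  rw [quintic, map_prod]
  simp

theorem ord_prod {P : Place K F} {ι : Type} (s : Finset ι) (g : ι → F) (hg : ∀ i ∈ s, g i ≠ 0) :
    P.ord (∏ i ∈ s, g i) = ∑ i ∈ s, P.ord (g i) := by
  classical
  induction s using Finset.induction_on with
  | empty => simp [Place.ord_one]
  | insert i s hi ih =>
    rw [Finset.prod_insert hi, Finset.sum_insert hi, Place.ord_mul, ih]
    · exact fun j hj => hg j (Finset.mem_insert_of_mem hj)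
    · exact hg i (Finset.mem_insert_self _ _)
    · rw [Finset.prod_ne_zero_iff]
      exact fun j hj => hg j (Finset.mem_insert_of_mem hj)

theorem ord_u_sub_of_fixed (he : Function.Injective e) {P : Place K F} {i : Fin 5}
    (ha : P.At M.u (e i)) (hb : P.At M.w 0) : P.ord (M.u - algebraMap K F (e i)) = 2 := by
  have h1 := M.ord_w_of_fixed he ha hb
  have h2 : P.ord (M.w ^ 2) = 2 := by
    rw [Place.ord_pow M.w_ne_zero, h1]
    norm_num
  rw [M.eqn', aeval_quintic, ord_prod _ _ (fun j _ => M.u_sub_ne_zero (e j)),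
    Finset.sum_eq_single i] at h2
  · exact h2
  · intro j _ hj
    exact M.ord_u_sub_of_ne ha (fun h => hj (he h).symm)
  · intro h
    exact absurd (Finset.mem_univ i) h

end Model

end Pool.Agent.Work.MP_0fba91_ag
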