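import Pool.Agent.Work.MP_0fba91_ag.Half

/-!
The function field of `y² = f(x)` (degree `6`) and its quintic model.
-/

open Polynomial

set_option linter.unusedVariables false
set_option linter.unusedSectionVars false

noncomputable section

namespace Pool.Agent.Work.MP_0fba91_ag

/-- A presentation `y² = f(x)` of a function field. -/
structure XYModel (K F : Type) [Field K] [Field F] [Algebra K F] (f : K[X]) where
  x : F
  y : F
  inv : F ≃ₐ[K] F
  inv_x : inv x = x
  inv_y : inv y = -y
  trans : ∀ p : K[X], aeval x p = 0 → p = 0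
  eqn : y ^ 2 = aeval x f
  gen : ∀ g : F, ∃ A B D : K[X], D ≠ 0 ∧ g * aeval x D = aeval x A + aeval x B * y

namespace XYModel

variable {K F : Type} [Field K] [CharZero K] [Field F] [Algebra K F] {f : K[X]}
  (N : XYModel K F f)

theorem x_sub_ne_zero (a : K) : N.x - algebraMap K F a ≠ 0 := by
  intro h
  have := N.trans (X - C a) (by rw [map_sub, aeval_X, aeval_C, h])
  exact X_sub_C_ne_zero a this

/-- change of variable `x = a + 1/u` in a polynomial -/
theorem aeval_x_eq (a : K) (p : K[X]) :
    aeval N.x p = aeval (N.x - algebraMap K F a)⁻¹ (p.comp (X + C a)).reverse *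
      (N.x - algebraMap K F a) ^ (p.comp (X + C a)).natDegree := by
  let _ := invertibleOfNonzero (N.x_sub_ne_zero a)
  have h := eval₂_reverse_mul_pow (algebraMap K F) (N.x - algebraMap K F a) (p.comp (X + C a))
  rw [invOf_eq_inv] at h
  have h2 : aeval N.x p = eval₂ (algebraMap K F) (N.x - algebraMap K F a) (p.comp (X + C a)) := by
    have h3 : eval₂ (algebraMap K F) (N.x - algebraMap K F a) (p.comp (X + C a)) =
        aeval (N.x - algebraMap K F a) (p.comp (X + C a)) := rfl
    rw [h3, aeval_comp]
    congr 1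
    simp
  rw [h2, ← h]
  rfl

theorem aeval_u_eq (a : K) (p : K[X]) :
    aeval (N.x - algebraMap K F a)⁻¹ p * (N.x - algebraMap K F a) ^ p.natDegree =
      aeval N.x (p.reverse.comp (X - C a)) := by
  let _ := invertibleOfNonzero (inv_ne_zero (N.x_sub_ne_zero a))
  have h := eval₂_reverse_mul_pow (algebraMap K F) (N.x - algebraMap K F a)⁻¹ p
  rw [invOf_eq_inv, _root_.inv_inv] at h
  have h2 : aeval N.x (p.reverse.comp (X - C a)) =
      eval₂ (algebraMap K F) (N.x - algebraMap K F a) p.reverse := by
    rw [aeval_comp]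
    simp only [map_sub, aeval_X, aeval_C]
    rfl
  have h3 : aeval (N.x - algebraMap K F a)⁻¹ p =
      eval₂ (algebraMap K F) (N.x - algebraMap K F a)⁻¹ p := rfl
  rw [h2, h3, ← h, mul_assoc, ← mul_pow, inv_mul_cancel₀ (N.x_sub_ne_zero a), one_pow, mul_one]

/-- The quintic model obtained by sending the Weierstrass point `x = θ₅` to infinity. -/
def toModel (t : K) (θ : Fin 6 → K) (hf : f = C t * ∏ i, (X - C (θ i)))
    (hθ : Function.Injective θ) (δ : K) (hδ : δ ^ 2 * t * ∏ i : Fin 5, (θ 5 - θ i.castSucc) = 1) :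
    Model K F (fun i : Fin 5 => (θ i.castSucc - θ 5)⁻¹) where
  u := (N.x - algebraMap K F (θ 5))⁻¹
  w := algebraMap K F δ * N.y * (N.x - algebraMap K F (θ 5))⁻¹ ^ 3
  inv := N.inv
  inv_u := by rw [map_inv₀, map_sub, N.inv_x, AlgEquiv.commutes]
  inv_w := by
    rw [map_mul, map_mul, map_pow, map_inv₀, map_sub, N.inv_x, AlgEquiv.commutes,
      AlgEquiv.commutes, N.inv_y]
    ring
  trans := by
    intro p hp
    have h1 := N.aeval_u_eq (θ 5) p
    rw [hp, zero_mul] at h1
    have h2 := N.trans _ h1.symm
    have h3 : p.reverse = 0 := by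
      by_contra h
      have h4 : (p.reverse.comp (X - C (θ 5))).comp (X + C (θ 5)) = p.reverse := by
        rw [comp_assoc]
        simp
      rw [h2, zero_comp] at h4
      exact h h4.symm
    exact reverse_eq_zero.1 h3
  eqn := by
    have hx := N.x_sub_ne_zero (θ 5)
    have hi : ∀ i : Fin 5, θ i.castSucc - θ 5 ≠ 0 := by
      intro i h
      have h1 := hθ (sub_eq_zero.1 h)
      exact absurd h1 (Fin.castSucc_lt_last i).ne
    have h1 : aeval (N.x - algebraMap K F (θ 5))⁻¹
        (∏ i : Fin 5, (X - C (θ i.castSucc - θ 5)⁻¹)) =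
        ∏ i : Fin 5, ((N.x - algebraMap K F (θ 5))⁻¹ - algebraMap K F (θ i.castSucc - θ 5)⁻¹) := by
      rw [map_prod]
      simp
    have h2 : ∀ i : Fin 5, algebraMap K F (θ 5 - θ i.castSucc) *
        ((N.x - algebraMap K F (θ 5))⁻¹ - algebraMap K F (θ i.castSucc - θ 5)⁻¹) *
          (N.x - algebraMap K F (θ 5)) = N.x - algebraMap K F (θ i.castSucc) := by
      intro i
      have h3 : algebraMap K F (θ i.castSucc - θ 5) ≠ 0 := (_root_.map_ne_zero _).2 (hi i)
      rw [map_inv₀]
      rw [map_sub] at h3 ⊢
      rw [map_sub]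
      field_simp
      ring
    have h3 : N.y ^ 2 = algebraMap K F t * ((∏ i : Fin 5, (N.x - algebraMap K F (θ i.castSucc))) *
        (N.x - algebraMap K F (θ 5))) := by
      have hf' := congrArg (aeval N.x) hf
      rw [N.eqn, hf', map_mul, aeval_C, map_prod, Fin.prod_univ_castSucc]
      simp only [map_sub, aeval_X, aeval_C]
      rfl
    have h4 : ∏ i : Fin 5, (N.x - algebraMap K F (θ i.castSucc)) =
        algebraMap K F (∏ i : Fin 5, (θ 5 - θ i.castSucc)) *
        (∏ i : Fin 5, ((N.x - algebraMap K F (θ 5))⁻¹ - algebraMap K F (θ i.castSucc - θ 5)⁻¹)) *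
          (N.x - algebraMap K F (θ 5)) ^ 5 := by
      rw [map_prod, ← Finset.prod_mul_distrib]
      have h5 : (N.x - algebraMap K F (θ 5)) ^ 5 =
          ∏ i : Fin 5, (N.x - algebraMap K F (θ 5)) := by
        rw [Finset.prod_const]
        rfl
      rw [h5, ← Finset.prod_mul_distrib]
      exact Finset.prod_congr rfl fun i _ => (h2 i).symm
    rw [h1]
    have h5 : algebraMap K F δ ^ 2 * algebraMap K F t *
        algebraMap K F (∏ i : Fin 5, (θ 5 - θ i.castSucc)) = 1 := by
      rw [← map_pow, ← map_mul, ← map_mul, hδ, map_one]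
    rw [mul_pow, mul_pow, h3, h4]
    generalize (∏ i : Fin 5, ((N.x - algebraMap K F (θ 5))⁻¹ -
      algebraMap K F (θ i.castSucc - θ 5)⁻¹)) = Pr at *
    generalize algebraMap K F (∏ i : Fin 5, (θ 5 - θ i.castSucc)) = c at *
    generalize N.x - algebraMap K F (θ 5) = v at *
    have h6 : v * v⁻¹ = 1 := mul_inv_cancel₀ hx
    calc algebraMap K F δ ^ 2 * (algebraMap K F t * (c * Pr * v ^ 5 * v)) * (v⁻¹ ^ 3) ^ 2
        = (algebraMap K F δ ^ 2 * algebraMap K F t * c) * Pr * (v * v⁻¹) ^ 6 := by ring
      _ = Pr := by rw [h5, h6]; ring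
  gen := by
    intro g
    obtain ⟨A, B, D, hD, hg⟩ := N.gen g
    have hx := N.x_sub_ne_zero (θ 5)
    have hδ0 : δ ≠ 0 := by
      rintro rfl
      rw [zero_pow two_ne_zero, zero_mul, zero_mul] at hδ
      exact zero_ne_one hδ
    have hδ1 : algebraMap K F δ ≠ 0 := (_root_.map_ne_zero _).2 hδ0
    rw [N.aeval_x_eq (θ 5) A, N.aeval_x_eq (θ 5) B, N.aeval_x_eq (θ 5) D] at hg
    refine ⟨(A.comp (X + C (θ 5))).reverse * X ^ ((D.comp (X + C (θ 5))).natDegree +
        (B.comp (X + C (θ 5))).natDegree + 3),
      C δ⁻¹ * (B.comp (X + C (θ 5))).reverse * X ^ ((D.comp (X + C (θ 5))).natDegree +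
        (A.comp (X + C (θ 5))).natDegree),
      (D.comp (X + C (θ 5))).reverse * X ^ ((A.comp (X + C (θ 5))).natDegree +
        (B.comp (X + C (θ 5))).natDegree + 3), ?_, ?_⟩
    · refine mul_ne_zero ?_ (pow_ne_zero _ X_ne_zero)
      rw [Ne, reverse_eq_zero]
      intro h
      have h4 : (D.comp (X + C (θ 5))).comp (X - C (θ 5)) = D := by
        rw [comp_assoc]
        simp
      rw [h, zero_comp] at h4
      exact hD h4.symm
    · simp only [map_mul, map_pow, aeval_X, aeval_C, map_inv₀]
      generalize aeval (N.x - algebraMap K F (θ 5))⁻¹ (A.comp (X + C (θ 5))).reverse = a' at *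
      generalize aeval (N.x - algebraMap K F (θ 5))⁻¹ (B.comp (X + C (θ 5))).reverse = b' at *
      generalize aeval (N.x - algebraMap K F (θ 5))⁻¹ (D.comp (X + C (θ 5))).reverse = d' at *
      generalize (A.comp (X + C (θ 5))).natDegree = na at *
      generalize (B.comp (X + C (θ 5))).natDegree = nb at *
      generalize (D.comp (X + C (θ 5))).natDegree = nd at *
      generalize N.x - algebraMap K F (θ 5) = v at *
      simp only [inv_pow]
      rw [pow_add, pow_add, pow_add, pow_add, pow_add]
      field_simp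
      linear_combination hg

end XYModel

/-! ### The function field of the curve is such a model -/

section

variable (k : Type) [Field k] [CharZero k] (f : k[X])

theorem curvePoly_monic : (curvePoly k f).Monic := by
  unfold curvePoly
  monicity!

theorem curvePoly_natDegree : (curvePoly k f).natDegree = 2 := by
  unfold curvePoly
  compute_degree!

theorem curvePoly_irreducible (hsq : Squarefree (f.map (algebraMap k (AlgebraicClosure k))))
    (hdeg : f.natDegree ≠ 0) : Irreducible (curvePoly k f) := by
  rw [Monic.irreducible_iff_roots_eq_zero_of_degree_le_three (curvePoly_monic k f)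
    (by rw [curvePoly_natDegree]) (by rw [curvePoly_natDegree]; norm_num)]
  rw [Multiset.eq_zero_iff_forall_notMem]
  intro g hg
  rw [mem_roots (curvePoly_monic k f).ne_zero, IsRoot.def, curvePoly, eval_sub, eval_pow, eval_X,
    eval_C, sub_eq_zero] at hg
  have h1 : IsUnit g := hsq g ⟨1, by rw [← hg]; ring⟩
  have h2 := natDegree_eq_zero_of_isUnit h1
  have h3 := congrArg natDegree hg
  rw [natDegree_pow, h2, natDegree_map] at h3
  exact hdeg (by omega)

variable (hsq : Squarefree (f.map (algebraMap k (AlgebraicClosure k)))) (hdeg : f.natDegree ≠ 0)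

include hsq hdeg in
theorem coordRing_isDomain : IsDomain (CoordRing k f) :=
  AdjoinRoot.isDomain_of_prime (curvePoly_irreducible k f hsq hdeg).prime

/-- the functions `x` and `y` -/
def coordX : FunField k f := algebraMap (CoordRing k f) (FunField k f) (AdjoinRoot.of _ X)

/-- the functions `x` and `y` -/
def coordY : FunField k f := algebraMap (CoordRing k f) (FunField k f) (AdjoinRoot.root _)

theorem aeval_coordX (p : (AlgebraicClosure k)[X]) :
    aeval (coordX k f) p = algebraMap (CoordRing k f) (FunField k f) (AdjoinRoot.of _ p) := by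
  have h1 : ∀ p : (AlgebraicClosure k)[X], aeval (AdjoinRoot.of (curvePoly k f) X) p =
      AdjoinRoot.of (curvePoly k f) p := by
    intro p
    induction p using Polynomial.induction_on' with
    | add p q hp hq => rw [map_add, map_add, hp, hq]
    | monomial n a =>
      rw [aeval_monomial, ← C_mul_X_pow_eq_monomial, map_mul, map_pow]
      congr 1
  rw [coordX, aeval_algebraMap_apply, h1]

theorem eval₂_curvePoly {S : Type} [CommRing S] (i : (AlgebraicClosure k)[X] →+* S) (s : S) :
    (curvePoly k f).eval₂ i s = s ^ 2 - i (f.map (algebraMap k (AlgebraicClosure k))) := by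
  rw [curvePoly, eval₂_sub, eval₂_pow, eval₂_X, eval₂_C]

/-- conjugation on the coordinate ring -/
def conjHom : CoordRing k f →ₐ[AlgebraicClosure k] CoordRing k f :=
  AdjoinRoot.liftAlgHom (curvePoly k f)
    (AdjoinRoot.ofAlgHom (AlgebraicClosure k) (curvePoly k f)) (-AdjoinRoot.root (curvePoly k f))
    (by
      have h := AdjoinRoot.eval₂_root (curvePoly k f)
      rw [eval₂_curvePoly] at h ⊢
      rw [neg_sq]
      exact h)

theorem conjHom_of (p : (AlgebraicClosure k)[X]) :
    conjHom k f (AdjoinRoot.of _ p) = AdjoinRoot.of _ p :=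
  AdjoinRoot.liftAlgHom_of _ _ _ _ p

theorem conjHom_root : conjHom k f (AdjoinRoot.root _) = -AdjoinRoot.root _ :=
  AdjoinRoot.liftAlgHom_root _ _ _ _

theorem conjHom_conjHom : (conjHom k f).comp (conjHom k f) = AlgHom.id _ _ := by
  apply AdjoinRoot.algHom_ext'
  · ext
    simp [conjHom_of]
  · simp [conjHom_root]

/-- conjugation on the coordinate ring -/
def conjEquiv : CoordRing k f ≃ₐ[AlgebraicClosure k] CoordRing k f :=
  AlgEquiv.ofAlgHom (conjHom k f) (conjHom k f) (conjHom_conjHom k f) (conjHom_conjHom k f)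

/-- the hyperelliptic involution of the function field -/
def funInv : FunField k f ≃ₐ[AlgebraicClosure k] FunField k f :=
  IsFractionRing.algEquivOfAlgEquiv (conjEquiv k f)

theorem funInv_algebraMap (r : CoordRing k f) :
    funInv k f (algebraMap _ _ r) = algebraMap _ _ (conjHom k f r) :=
  IsFractionRing.algEquivOfAlgEquiv_algebraMap _ _

theorem funInv_x : funInv k f (coordX k f) = coordX k f := by
  rw [coordX, funInv_algebraMap, conjHom_of]

theorem funInv_y : funInv k f (coordY k f) = -coordY k f := by
  rw [coordY, funInv_algebraMap, conjHom_root, map_neg]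

theorem root_sq : AdjoinRoot.root (curvePoly k f) ^ 2 =
    AdjoinRoot.of (curvePoly k f) (f.map (algebraMap k (AlgebraicClosure k))) := by
  have h := AdjoinRoot.eval₂_root (curvePoly k f)
  rw [eval₂_curvePoly] at h
  exact sub_eq_zero.1 h

theorem coord_rep (r : CoordRing k f) : ∃ A B : (AlgebraicClosure k)[X],
    r = AdjoinRoot.of _ A + AdjoinRoot.of _ B * AdjoinRoot.root _ := by
  obtain ⟨g, rfl⟩ := AdjoinRoot.mk_surjective r
  have h1 : AdjoinRoot.mk (curvePoly k f) g =
      AdjoinRoot.mk (curvePoly k f) (g %ₘ curvePoly k f) := by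
    conv_lhs => rw [← modByMonic_add_div g (curvePoly k f)]
    rw [map_add, map_mul, AdjoinRoot.mk_self, zero_mul, add_zero]
  have h2 : (g %ₘ curvePoly k f).natDegree ≤ 1 := by
    have := natDegree_modByMonic_lt g (curvePoly_monic k f) (by
      intro h
      have h3 := curvePoly_natDegree k f
      rw [h, natDegree_one] at h3
      omega)
    rw [curvePoly_natDegree] at this
    omega
  obtain ⟨B, A, hBA⟩ := exists_eq_X_add_C_of_natDegree_le_one h2
  refine ⟨A, B, ?_⟩
  rw [h1, hBA, map_add, map_mul, AdjoinRoot.mk_C, AdjoinRoot.mk_C, AdjoinRoot.mk_X, add_comm]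

theorem of_injective : Function.Injective (AdjoinRoot.of (curvePoly k f)) := by
  apply AdjoinRoot.of.injective_of_degree_ne_zero
  rw [degree_eq_natDegree (curvePoly_monic k f).ne_zero, curvePoly_natDegree]
  norm_num

instance instFieldFunField [IsDomain (CoordRing k f)] : Field (FunField k f) :=
  (inferInstance : Field (FractionRing (CoordRing k f)))

/-- The function field of `y² = f(x)` as an `XYModel`. -/
def xyModel [IsDomain (CoordRing k f)] :
    XYModel (AlgebraicClosure k) (FunField k f) (f.map (algebraMap k (AlgebraicClosure k))) where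
  x := coordX k f
  y := coordY k f
  inv := funInv k f
  inv_x := funInv_x k f
  inv_y := funInv_y k f
  trans := by
    intro p hp
    rw [aeval_coordX] at hp
    have h1 := (IsFractionRing.injective (CoordRing k f) (FunField k f))
      (hp.trans (map_zero _).symm)
    exact of_injective k f (h1.trans (map_zero _).symm)
  eqn := by
    rw [aeval_coordX, coordY, ← map_pow, root_sq]
  gen := by
    intro g
    obtain ⟨a, b, hb, rfl⟩ := IsFractionRing.div_surjective (CoordRing k f) g
    have hb0 : b ≠ 0 := nonZeroDivisors.ne_zero hb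
    obtain ⟨A, B, hAB⟩ := coord_rep k f b
    have hconj : conjHom k f b ≠ 0 := by
      intro h
      apply hb0
      have h1 : (conjHom k f).comp (conjHom k f) b = b := by
        rw [conjHom_conjHom]
        rfl
      rw [← h1, AlgHom.comp_apply, h, map_zero]
    have hN : b * conjHom k f b = AdjoinRoot.of _
        (A ^ 2 - B ^ 2 * f.map (algebraMap k (AlgebraicClosure k))) := by
      have h2 : conjHom k f b = AdjoinRoot.of _ A - AdjoinRoot.of _ B * AdjoinRoot.root _ := by
        rw [hAB, map_add, map_mul, conjHom_of, conjHom_of, conjHom_root]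
        ring
      rw [h2]
      conv_lhs => rw [hAB]
      rw [map_sub, map_mul, map_pow, map_pow, ← root_sq]
      ring
    obtain ⟨A', B', hAB'⟩ := coord_rep k f (a * conjHom k f b)
    refine ⟨A', B', A ^ 2 - B ^ 2 * f.map (algebraMap k (AlgebraicClosure k)), ?_, ?_⟩
    · intro h
      rw [h, map_zero] at hN
      exact mul_ne_zero hb0 hconj hN
    · have hb1 : algebraMap (CoordRing k f) (FunField k f) b ≠ 0 := by
        rw [Ne, FaithfulSMul.algebraMap_eq_zero_iff]
        exact hb0
      rw [aeval_coordX, aeval_coordX, aeval_coordX, ← hN, coordY, ← map_mul, ← map_add, ← hAB',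
        map_mul, map_mul]
      field_simp

end

end Pool.Agent.Work.MP_0fba91_ag
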