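import Pool.Agent.Work.MP_0fba91_ag.Main

/-!
The cohomological argument and the conclusion.
-/

open Polynomial

set_option linter.unusedVariables false
set_option linter.unusedSectionVars false

noncomputable section

namespace Pool.Agent.Work.MP_0fba91_ag

namespace Setup

variable {k : Type} [Field k] [CharZero k] (S : Setup k (AlgebraicClosure k))

/-- the class of the Weierstrass point `W 5` -/
def W0 : Pic (AlgebraicClosure k) (FunField k S.sextic) :=
  Divisor.cls (Finsupp.single S.M.inf 1)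

theorem smul_W0 (σ : Gal(AlgebraicClosure k/k)) :
    ∃ j, S.ρ σ • S.W0 = Divisor.cls (Finsupp.single (S.W j) 1) := by
  obtain ⟨j, hj⟩ := S.exists_perm σ 5
  refine ⟨j, ?_⟩
  rw [W0, ← W5, Divisor.smul_cls, smul_single_place, S.smul_W σ hj]

theorem two_smul_W0 (σ : Gal(AlgebraicClosure k/k)) :
    (2 : ℤ) • (S.ρ σ • S.W0 - S.W0) = 0 := by
  obtain ⟨j, hj⟩ := S.smul_W0 σ
  rw [hj]
  exact S.M.two_smul_fixed S.e_injective (S.W_fixed j)

theorem smul_W0_of_fix {σ : Gal(AlgebraicClosure k/k)} (h : σ (S.θ 5) = S.θ 5) :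
    S.ρ σ • S.W0 = S.W0 := by
  rw [W0, Divisor.smul_cls, smul_single_place, S.M.smul_inf_of_fix _ (S.ρ_u h)]

theorem W0_mem : S.W0 ∈ Pic1 (AlgebraicClosure k) (FunField k S.sextic) :=
  ⟨_, deg_single _ _, rfl⟩

theorem sub_mem_Pic0 {p q : Pic (AlgebraicClosure k) (FunField k S.sextic)}
    (hp : p ∈ Pic1 (AlgebraicClosure k) (FunField k S.sextic))
    (hq : q ∈ Pic1 (AlgebraicClosure k) (FunField k S.sextic)) :
    p - q ∈ Pic0 (AlgebraicClosure k) (FunField k S.sextic) := by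
  obtain ⟨D, hD, rfl⟩ := hp
  obtain ⟨E, hE, rfl⟩ := hq
  have hD' : deg D = 1 := hD
  have hE' : deg E = 1 := hE
  exact ⟨D - E, by
    show deg (D - E) = 0
    rw [map_sub, hD', hE', sub_self], by rw [map_sub]⟩

theorem τ_fix_θ (i : Fin 6) : S.τ (S.θ i) = S.θ i := S.τE0 _ (S.θ_mem i)

theorem act_eq (σ : Gal(AlgebraicClosure k/k))
    (m : Pic (AlgebraicClosure k) (FunField k S.sextic)) : σ • m = S.ρ σ • m :=
  smul_pic_eq k S.sextic σ m

/-- The core of the argument: half of the cocycle of `Pic¹` gives a fixed theta characteristic. -/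
theorem core (p : Pic (AlgebraicClosure k) (FunField k S.sextic))
    (hp : p ∈ Pic1 (AlgebraicClosure k) (FunField k S.sextic))
    (z : Gal(AlgebraicClosure k/k) → Pic (AlgebraicClosure k) (FunField k S.sextic))
    (hloc : IsLocallyConstant z)
    (hz : ∀ σ τ : Gal(AlgebraicClosure k/k), z (σ * τ) = z σ + σ • z τ)
    (hzJ : ∀ σ, z σ ∈ Pic0 (AlgebraicClosure k) (FunField k S.sextic))
    (h2z : ∀ σ : Gal(AlgebraicClosure k/k), (2 : ℤ) • z σ = σ • p - p) : False := by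
  have hW : ∀ σ : Gal(AlgebraicClosure k/k), (2 : ℤ) • (σ • S.W0 - S.W0) = 0 := by
    intro σ
    rw [act_eq]
    exact S.two_smul_W0 σ
  obtain ⟨z', hz', hz'J, h2z', m', hm', hzz'⟩ :=
    coh_adjust (Γ := Gal(AlgebraicClosure k/k)) (Pic0 (AlgebraicClosure k) (FunField k S.sextic))
      (fun σ m hm => smul_mem_Pic0' σ hm) S.W0 p z hz hzJ h2z
      (S.sub_mem_Pic0 hp S.W0_mem) (S.M.pic0_divisible S.e_injective)
  have hloc' : IsLocallyConstant z' := by
    have h1 : z' = z - ((fun σ => S.ρ σ • m') - fun _ => m') := by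
      funext σ
      rw [hzz', act_eq]
      rfl
    rw [h1]
    exact hloc.sub ((S.locallyConstant_smul m').sub (IsLocallyConstant.const m'))
  have h4 : ∀ σ, (4 : ℤ) • z' σ = 0 := by
    intro σ
    have h1 : (4 : ℤ) • z' σ = (2 : ℤ) • ((2 : ℤ) • z' σ) := by
      rw [smul_smul]
      norm_num
    rw [h1, h2z']
    exact hW σ
  have hNE : ∀ n ∈ S.E.fixingSubgroup, ∀ x ∈ S.E, n x = x := fun n hn x hx =>
    (IntermediateField.mem_fixingSubgroup_iff S.E n).1 hn x hx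
  have hNθ : ∀ n ∈ S.E.fixingSubgroup, n (S.θ 5) = S.θ 5 := fun n hn =>
    hNE n hn _ (S.E0_le _ (S.θ_mem 5))
  have hfix : ∀ n ∈ S.E.fixingSubgroup,
      ∀ m ∈ Pic0 (AlgebraicClosure k) (FunField k S.sextic), (4 : ℤ) • m = 0 →
        S.ρ n • m = m := by
    intro n hn m hm hm4
    exact S.M.smul_four_torsion_of_fix S.e_injective S.E0 S.sqE0 S.e_mem (S.ρ n)
      (S.ρ_u (hNθ n hn)) (S.ρ_w (hNθ n hn) (hNE n hn _ S.δ_mem_E))
      (fun x hx => by rw [ρ_c, hNE n hn x (S.E0_le x hx)]) m hm hm4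
  have hker : ∀ n ∈ S.E.fixingSubgroup, z' n = 0 := by
    intro n₀ hn₀
    refine kummer_vanish S.E S.sqE z' hloc' ?_ ?_ n₀ hn₀
    · intro n hn n' hn'
      rw [hz', act_eq, hfix n hn _ (hz'J n') (h4 n')]
    · intro n hn
      rw [h2z', act_eq, S.smul_W0_of_fix (hNθ n hn), sub_self]
  have hτ : ∀ m ∈ Pic0 (AlgebraicClosure k) (FunField k S.sextic), (4 : ℤ) • m = 0 →
      S.τ • m = -m := by
    intro m hm hm4
    rw [act_eq]
    exact S.M.smul_four_torsion_of_neg S.e_injective S.E0 S.sqE0 S.e_mem (S.ρ S.τ)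
      (S.ρ_u (S.τ_fix_θ 5)) (S.ρ_w_neg (S.τ_fix_θ 5) S.τ_δ)
      (fun x hx => by rw [ρ_c, S.τE0 x hx]) m hm hm4
  have hn : ∀ g : Gal(AlgebraicClosure k/k), (∀ x ∈ S.E, S.τ (g x) = g (S.τ x)) →
      (g * S.τ)⁻¹ * (S.τ * g) ∈ S.E.fixingSubgroup := by
    intro g hg
    rw [IntermediateField.mem_fixingSubgroup_iff]
    intro x hx
    rw [AlgEquiv.mul_apply, AlgEquiv.mul_apply, hg x hx, ← AlgEquiv.mul_apply g,
      ← AlgEquiv.mul_apply, inv_mul_cancel, AlgEquiv.one_apply]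
  have key : ∀ g : Gal(AlgebraicClosure k/k), (∀ x ∈ S.E, S.τ (g x) = g (S.τ x)) →
      S.ρ g • (S.W0 + z' S.τ) = S.W0 + z' S.τ := by
    intro g hg
    have h1 : g • (S.W0 + z' S.τ) = S.W0 + z' S.τ := coh_fix (Γ := Gal(AlgebraicClosure k/k))
      (Pic0 (AlgebraicClosure k) (FunField k S.sextic)) S.W0 z' hz' hz'J h2z'
      hW S.τ g ((g * S.τ)⁻¹ * (S.τ * g)) (by group)
      (hker _ (hn g hg)) hτ
    rwa [act_eq] at h1
  have hf₁ := key S.g₁ S.comm₁
  have hf₂ := key S.g₂ S.comm₂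
  refine S.M.no_fixed_theta S.e_injective S.W S.W_injective S.W_fixed S.W_all S.W5
    (S.ρ S.g₁) (S.ρ S.g₂) ⟨?_, ?_, ?_, ?_, ?_, ?_⟩ ⟨?_, ?_, ?_, ?_, ?_, ?_⟩
    (z' S.τ) (hz'J _) ?_ hf₁ hf₂
  · exact S.smul_W _ (by rw [θ0, θ1, S.g₁α])
  · exact S.smul_W _ (by rw [θ0, θ1, map_neg, S.g₁α, neg_neg])
  · exact S.smul_W _ (by rw [θ2, S.g₁β])
  · exact S.smul_W _ (by rw [θ3, map_neg, S.g₁β])
  · exact S.smul_W _ (by rw [θ4, θ5, map_mul, S.g₁α, S.g₁β, neg_mul])
  · exact S.smul_W _ (by rw [θ4, θ5, map_neg, map_mul, S.g₁α, S.g₁β, neg_mul, neg_neg])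
  · exact S.smul_W _ (by rw [θ0, S.g₂α])
  · exact S.smul_W _ (by rw [θ1, map_neg, S.g₂α])
  · exact S.smul_W _ (by rw [θ2, θ3, S.g₂β])
  · exact S.smul_W _ (by rw [θ2, θ3, map_neg, S.g₂β, neg_neg])
  · exact S.smul_W _ (by rw [θ4, θ5, map_mul, S.g₂α, S.g₂β, mul_neg])
  · exact S.smul_W _ (by rw [θ4, θ5, map_neg, map_mul, S.g₂α, S.g₂β, mul_neg, neg_neg])
  · rw [h2z', act_eq, S.smul_W0_of_fix (S.τ_fix_θ 5), sub_self]

theorem not_divisible (c : H1Jac k S.sextic)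
    (hc : IsClassOfPic1 k S.sextic c) :
    ¬ ∃ ζ : H1Jac k S.sextic, 2 • ζ = c := by
  rintro ⟨ζ, hζ⟩
  obtain ⟨p, zc, hp, hzc, rfl⟩ := hc
  obtain ⟨z0, rfl⟩ := QuotientAddGroup.mk_surjective ζ
  have h1 : (QuotientAddGroup.mk (2 • z0) : H1 Gal(AlgebraicClosure k/k) (Jac k S.sextic)) =
      QuotientAddGroup.mk zc := hζ
  rw [QuotientAddGroup.eq_iff_sub_mem] at h1
  obtain ⟨m, hm⟩ := h1
  -- `2 z0 - zc = σ m - m`
  have h2 : ∀ σ : Gal(AlgebraicClosure k/k),
      (2 : ℤ) • (Jac.toPic k S.sextic (z0.1 σ)) =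
        σ • (p + Jac.toPic k S.sextic m) - (p + Jac.toPic k S.sextic m) := by
    intro σ
    have h3 := hm σ
    have h4 : z0.1 σ + z0.1 σ - zc.1 σ = σ • m - m := by
      rw [← h3]
      have h5 : (Z1 Gal(AlgebraicClosure k/k) (Jac k S.sextic)).subtype (2 • z0 - zc) σ =
        2 • z0.1 σ - zc.1 σ := rfl
      rw [h5, two_nsmul]
    have h7 : Jac.toPic k S.sextic (z0.1 σ) + Jac.toPic k S.sextic (z0.1 σ) -
        Jac.toPic k S.sextic (zc.1 σ) =
        σ • Jac.toPic k S.sextic m - Jac.toPic k S.sextic m :=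
      congrArg (Jac.toPic k S.sextic) h4
    rw [hzc σ] at h7
    have h8 : Jac.toPic k S.sextic (z0.1 σ) + Jac.toPic k S.sextic (z0.1 σ) =
        (σ • Jac.toPic k S.sextic m - Jac.toPic k S.sextic m) + (σ • p - p) := by
      rw [← h7]
      exact (sub_add_cancel _ _).symm
    rw [two_zsmul, h8, smul_add]
    abel
  refine S.core (p + Jac.toPic k S.sextic m) ?_
    (fun σ => Jac.toPic k S.sextic (z0.1 σ)) ?_ ?_ ?_ h2
  · obtain ⟨D, hD, rfl⟩ := hp
    obtain ⟨E, hE, hEm⟩ := (m : Pic0 (AlgebraicClosure k) (FunField k S.sextic)).2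
    refine ⟨D + E, ?_, ?_⟩
    · have hD' : deg D = 1 := hD
      have hE' : deg E = 0 := hE
      show deg (D + E) = 1
      rw [map_add, hD', hE', add_zero]
    · rw [map_add, hEm]
      rfl
  · exact z0.2.1.comp (Jac.toPic k S.sextic)
  · intro σ τ
    exact congrArg (Jac.toPic k S.sextic) (z0.2.2 σ τ)
  · intro σ
    exact (z0.1 σ : Pic0 (AlgebraicClosure k) (FunField k S.sextic)).2

theorem exists_class : ∃ c, IsClassOfPic1 k S.sextic c := by
  have h0 : ∀ σ : Gal(AlgebraicClosure k/k), σ • S.W0 - S.W0 ∈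
      Pic0 (AlgebraicClosure k) (FunField k S.sextic) := by
    intro σ
    obtain ⟨j, hj⟩ := S.smul_W0 σ
    rw [act_eq, hj]
    exact S.sub_mem_Pic0 ⟨_, deg_single _ _, rfl⟩ S.W0_mem
  let z : Gal(AlgebraicClosure k/k) → Jac k S.sextic := fun σ =>
    (⟨σ • S.W0 - S.W0, h0 σ⟩ : Pic0 (AlgebraicClosure k) (FunField k S.sextic))
  have hz : IsCocycle Gal(AlgebraicClosure k/k) (Jac k S.sextic) z := by
    constructor
    · have h1 : IsLocallyConstant (fun σ : Gal(AlgebraicClosure k/k) => σ • S.W0 - S.W0) := by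
        have h2 : (fun σ : Gal(AlgebraicClosure k/k) => σ • S.W0 - S.W0) =
            (fun σ => S.ρ σ • S.W0) - fun _ => S.W0 := by
          funext σ
          rw [act_eq]
          rfl
        rw [h2]
        exact (S.locallyConstant_smul S.W0).sub (IsLocallyConstant.const S.W0)
      intro s
      have h2 : z ⁻¹' s = (fun σ : Gal(AlgebraicClosure k/k) => σ • S.W0 - S.W0) ⁻¹'
          ((Jac.toPic k S.sextic) '' s) := by
        ext σ
        constructor
        · intro h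
          exact ⟨_, h, rfl⟩
        · rintro ⟨x, hx, hx'⟩
          have : x = z σ := Subtype.ext hx'
          rw [this] at hx
          exact hx
      rw [h2]
      exact h1 _
    · intro σ τ
      apply Subtype.ext
      show (σ * τ) • S.W0 - S.W0 = (σ • S.W0 - S.W0) + σ • (τ • S.W0 - S.W0)
      rw [mul_smul, smul_sub]
      abel
  exact ⟨H1Jac.mk _ _ ⟨z, hz⟩, S.W0, ⟨z, hz⟩, S.W0_mem, fun σ => rfl, rfl⟩

/-- two representations of the class of `Pic¹` agree -/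
theorem class_unique {c c' : H1Jac k S.sextic}
    (hc : IsClassOfPic1 k S.sextic c) (hc' : IsClassOfPic1 k S.sextic c') : c' = c := by
  obtain ⟨p, z, hp, hz, rfl⟩ := hc
  obtain ⟨p', z', hp', hz', rfl⟩ := hc'
  show (QuotientAddGroup.mk z' : H1 Gal(AlgebraicClosure k/k) (Jac k S.sextic)) =
    QuotientAddGroup.mk z
  rw [QuotientAddGroup.eq_iff_sub_mem]
  have hd : p' - p ∈ Pic0 (AlgebraicClosure k) (FunField k S.sextic) := S.sub_mem_Pic0 hp' hp
  refine ⟨(⟨p' - p, hd⟩ : Pic0 (AlgebraicClosure k) (FunField k S.sextic)), fun σ => ?_⟩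
  apply Subtype.ext
  show Jac.toPic k S.sextic (z'.1 σ) - Jac.toPic k S.sextic (z.1 σ) =
    σ • (p' - p) - (p' - p)
  rw [hz, hz', smul_sub]
  abel

end Setup

end Pool.Agent.Work.MP_0fba91_ag
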