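import Mathlib

/-!
Quadratically closed fields of Hahn series and their automorphisms given by characters.
-/

open Polynomial

set_option linter.unusedVariables false
set_option linter.unusedSectionVars false

noncomputable section

namespace Pool.Agent.Work.MP_0fba91_ag

section

variable {Λ : Type} [AddCommGroup Λ] [LinearOrder Λ] [IsOrderedAddMonoid Λ]

theorem char_ne_zero (χ : AddChar Λ ℂ) (a : Λ) : χ a ≠ 0 := by
  intro h
  have h1 : χ a * χ (-a) = 1 := by
    rw [← AddChar.map_add_eq_mul, add_neg_cancel, AddChar.map_zero_eq_one]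
  rw [h, zero_mul] at h1
  exact zero_ne_one h1

/-- the underlying map of `twist` -/
def twistFun (χ : AddChar Λ ℂ) (p : HahnSeries Λ ℂ) : HahnSeries Λ ℂ where
  coeff := fun a => χ a * p.coeff a
  isPWO_support' := p.isPWO_support.mono (by
    intro a ha
    rw [Function.mem_support] at ha
    rw [HahnSeries.mem_support]
    exact right_ne_zero_of_mul ha)

theorem twistFun_coeff (χ : AddChar Λ ℂ) (p : HahnSeries Λ ℂ) (a : Λ) :
    (twistFun χ p).coeff a = χ a * p.coeff a := rfl

theorem mem_support_twistFun (χ : AddChar Λ ℂ) (p : HahnSeries Λ ℂ) (a : Λ) :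
    a ∈ (twistFun χ p).support ↔ a ∈ p.support := by
  rw [HahnSeries.mem_support, HahnSeries.mem_support, twistFun_coeff]
  constructor
  · exact right_ne_zero_of_mul
  · exact mul_ne_zero (char_ne_zero χ a)

/-- Multiply the coefficients by a character of the value group. -/
def twist (χ : AddChar Λ ℂ) : HahnSeries Λ ℂ →+* HahnSeries Λ ℂ where
  toFun := twistFun χ
  map_one' := by
    ext a
    rw [twistFun_coeff, HahnSeries.coeff_one]
    by_cases h : a = 0
    · subst h
      simp
    · simp [h]
  map_zero' := by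
    ext a
    simp [twistFun_coeff]
  map_add' p q := by
    ext a
    simp [twistFun_coeff, mul_add]
  map_mul' p q := by
    ext a
    rw [twistFun_coeff, HahnSeries.coeff_mul, HahnSeries.coeff_mul, Finset.mul_sum]
    refine Finset.sum_congr ?_ ?_
    · ext ij
      simp only [Finset.mem_addAntidiagonal, mem_support_twistFun]
    · intro ij hij
      simp only [Finset.mem_addAntidiagonal] at hij
      rw [twistFun_coeff, twistFun_coeff, ← hij.2.2, AddChar.map_add_eq_mul]
      ring

end

section

variable {Λ : Type} [AddCommGroup Λ] [LinearOrder Λ] [IsOrderedAddMonoid Λ]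

theorem exists_sqrt_one (u : HahnSeries Λ ℂ) (hu : 0 < (u - 1).orderTop) :
    ∃ q : HahnSeries Λ ℂ, q ^ 2 = u := by
  refine ⟨PowerSeries.heval (u - 1) (PowerSeries.binomialSeries ℂ (1 / 2 : ℂ)), ?_⟩
  rw [sq, ← PowerSeries.heval_mul, ← PowerSeries.binomialSeries_add]
  have h1 : (1 / 2 : ℂ) + 1 / 2 = ((1 : ℕ) : ℂ) := by norm_num
  rw [h1, PowerSeries.binomialSeries_nat, pow_one, map_add, map_one, PowerSeries.heval_X _ hu]
  ring

theorem hahn_exists_sqrt (hΛ : ∀ a : Λ, ∃ b : Λ, b + b = a) (p : HahnSeries Λ ℂ) :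
    ∃ q : HahnSeries Λ ℂ, q ^ 2 = p := by
  by_cases hp : p = 0
  · exact ⟨0, by rw [hp, zero_pow two_ne_zero]⟩
  · obtain ⟨b, hb⟩ := hΛ p.order
    obtain ⟨d, hd⟩ := IsAlgClosed.exists_pow_nat_eq p.leadingCoeff (n := 2) two_pos
    have hlc : p.leadingCoeff ≠ 0 := HahnSeries.leadingCoeff_ne_zero.2 hp
    have hd0 : d ≠ 0 := by
      rintro rfl
      rw [zero_pow two_ne_zero] at hd
      exact hlc hd.symm
    obtain ⟨q, hq⟩ := exists_sqrt_one (HahnSeries.single (-p.order) p.leadingCoeff⁻¹ * p) (by
      rw [HahnSeries.orderTop_self_sub_one_pos_iff]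
      constructor
      · rw [HahnSeries.orderTop_mul, HahnSeries.orderTop_single (inv_ne_zero hlc),
          ← HahnSeries.order_eq_orderTop_of_ne_zero hp]
        norm_cast
        simp
      · rw [HahnSeries.leadingCoeff_mul, HahnSeries.leadingCoeff_of_single, inv_mul_cancel₀ hlc])
    refine ⟨HahnSeries.single b d * q, ?_⟩
    rw [mul_pow, hq, HahnSeries.single_pow, hd, ← mul_assoc, HahnSeries.single_mul_single]
    have h2 : 2 • b + -p.order = 0 := by
      rw [two_nsmul, hb]
      abel
    rw [h2, mul_inv_cancel₀ hlc]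
    simp

end

/-! ### automorphisms from characters -/

section

variable {Λ : Type} [AddCommGroup Λ] [LinearOrder Λ] [IsOrderedAddMonoid Λ]

theorem twist_coeff (χ : AddChar Λ ℂ) (p : HahnSeries Λ ℂ) (a : Λ) :
    (twist χ p).coeff a = χ a * p.coeff a := rfl

theorem twist_comm (χ χ' : AddChar Λ ℂ) (p : HahnSeries Λ ℂ) :
    twist χ (twist χ' p) = twist χ' (twist χ p) := by
  ext a
  simp only [twist_coeff]
  ring

theorem twist_inv (χ : AddChar Λ ℂ) (p : HahnSeries Λ ℂ) : twist χ (twist χ⁻¹ p) = p := by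
  ext a
  simp only [twist_coeff]
  rw [← mul_assoc, AddChar.inv_apply, ← AddChar.map_add_eq_mul, add_neg_cancel,
    AddChar.map_zero_eq_one, one_mul]

/-- the automorphism attached to a character -/
def twistEquiv (χ : AddChar Λ ℂ) : HahnSeries Λ ℂ ≃+* HahnSeries Λ ℂ where
  toFun := twist χ
  invFun := twist χ⁻¹
  left_inv p := by rw [twist_comm, twist_inv]
  right_inv p := twist_inv χ p
  map_mul' := map_mul _
  map_add' := map_add _

theorem twist_single (χ : AddChar Λ ℂ) (a : Λ) :
    twist χ (HahnSeries.single a 1) = HahnSeries.single a (χ a) := by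
  ext b
  rw [twist_coeff]
  by_cases h : b = a
  · subst h
    simp
  · rw [HahnSeries.coeff_single_of_ne h, HahnSeries.coeff_single_of_ne h, mul_zero]

end

/-! ### the concrete value groups and characters -/

/-- value group of rank two -/
abbrev Lam0 : Type := Lex (ℚ × ℚ)

/-- value group of rank three -/
abbrev Lam : Type := Lex (ℚ × Lam0)

/-- the field in which everything happens -/
abbrev HF : Type := HahnSeries Lam ℂ

/-- `q ↦ exp (2 π i q)` -/
def expChar : AddChar ℚ ℂ where
  toFun q := Complex.exp (2 * Real.pi * Complex.I * q)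
  map_zero_eq_one' := by simp
  map_add_eq_mul' a b := by
    rw [← Complex.exp_add]
    congr 1
    push_cast
    ring

theorem expChar_one : expChar 1 = 1 := by
  show Complex.exp (2 * Real.pi * Complex.I * ((1 : ℚ) : ℂ)) = 1
  rw [Rat.cast_one, mul_one, Complex.exp_two_pi_mul_I]

theorem expChar_half : expChar (1 / 2) = -1 := by
  show Complex.exp (2 * Real.pi * Complex.I * ((1 / 2 : ℚ) : ℂ)) = -1
  have : 2 * Real.pi * Complex.I * ((1 / 2 : ℚ) : ℂ) = Real.pi * Complex.I := by
    push_cast
    ring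
  rw [this, Complex.exp_pi_mul_I]

/-- first coordinate -/
def pr1 : Lam →+ ℚ where
  toFun l := (ofLex l).1
  map_zero' := rfl
  map_add' _ _ := rfl

/-- second coordinate -/
def pr2 : Lam →+ ℚ where
  toFun l := (ofLex (ofLex l).2).1
  map_zero' := rfl
  map_add' _ _ := rfl

/-- third coordinate -/
def pr3 : Lam →+ ℚ where
  toFun l := (ofLex (ofLex l).2).2
  map_zero' := rfl
  map_add' _ _ := rfl

/-- vectors -/
def vec (q r s : ℚ) : Lam := toLex (q, toLex (r, s))

theorem pr1_vec (q r s : ℚ) : pr1 (vec q r s) = q := rfl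
theorem pr2_vec (q r s : ℚ) : pr2 (vec q r s) = r := rfl
theorem pr3_vec (q r s : ℚ) : pr3 (vec q r s) = s := rfl

/-- the characters -/
def chi (p : Lam →+ ℚ) : AddChar Lam ℂ := expChar.compAddMonoidHom p

theorem chi_apply (p : Lam →+ ℚ) (l : Lam) : chi p l = expChar (p l) := rfl

theorem halve_Lam0 (a : Lam0) : ∃ b : Lam0, b + b = a := by
  refine ⟨toLex ((ofLex a).1 / 2, (ofLex a).2 / 2), ?_⟩
  apply ofLex.injective
  ext
  · show (ofLex a).1 / 2 + (ofLex a).1 / 2 = (ofLex a).1
    ring
  · show (ofLex a).2 / 2 + (ofLex a).2 / 2 = (ofLex a).2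
    ring

theorem halve_Lam (a : Lam) : ∃ b : Lam, b + b = a := by
  obtain ⟨c, hc⟩ := halve_Lam0 (ofLex a).2
  refine ⟨toLex ((ofLex a).1 / 2, c), ?_⟩
  apply ofLex.injective
  refine Prod.ext ?_ ?_
  · show (ofLex a).1 / 2 + (ofLex a).1 / 2 = (ofLex a).1
    ring
  · exact hc

/-- the inclusion of value groups -/
def incl : Lam0 →+ Lam where
  toFun l := toLex (0, l)
  map_zero' := rfl
  map_add' a b := by
    apply ofLex.injective
    refine Prod.ext ?_ ?_
    · show (0 : ℚ) = 0 + 0
      ring
    · rfl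

theorem incl_injective : Function.Injective incl := by
  intro a b h
  exact congrArg (fun l : Lam => (ofLex l).2) h

theorem incl_le (a b : Lam0) : incl a ≤ incl b ↔ a ≤ b := by
  show toLex ((0 : ℚ), a) ≤ toLex ((0 : ℚ), b) ↔ a ≤ b
  rw [Prod.Lex.toLex_le_toLex]
  simp

/-- the inclusion of fields of Hahn series -/
def inclHF : HahnSeries Lam0 ℂ →+* HF := HahnSeries.embDomainRingHom incl incl_injective incl_le

theorem twist_inclHF (p : HahnSeries Lam0 ℂ) : twist (chi pr1) (inclHF p) = inclHF p := by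
  ext a
  rw [twist_coeff]
  by_cases h : a ∈ Set.range incl
  · obtain ⟨b, rfl⟩ := h
    have : chi pr1 (incl b) = 1 := by
      rw [chi_apply]
      exact AddChar.map_zero_eq_one expChar
    rw [this, one_mul]
  · have : (inclHF p).coeff a = 0 := HahnSeries.embDomain_of_notMem_range (by
      rintro ⟨b, hb⟩
      exact h ⟨b, hb⟩)
    rw [this, mul_zero]

end Pool.Agent.Work.MP_0fba91_ag
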