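import Pool.Agent.Work.MP_0fba91_ag.Torsion

/-!
Explicit division by `2` in the divisor class group.
-/

open Polynomial

set_option linter.unusedVariables false
set_option linter.unusedSectionVars false

noncomputable section

namespace Pool.Agent.Work.MP_0fba91_ag

namespace Model

variable {K F : Type} [Field K] [IsAlgClosed K] [CharZero K] [Field F] [Algebra K F]
  {e : Fin 5 → K} (M : Model K F e)

/-- Closed points with coordinates in the subfield `E0`. -/
def Good (E0 : Subfield K) (P : Place K F) : Prop :=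
  P = M.inf ∨ ∃ a b : K, a ∈ E0 ∧ b ∈ E0 ∧ P.At M.u a ∧ P.At M.w b

/-- the even part -/
def polA (a : K) (r : Fin 5 → K) : K[X] :=
  C (r 0 + r 1 + r 2 + r 3 + r 4) * (C a - X) ^ 2 +
  C (r 0 * r 1 * r 2 + r 0 * r 1 * r 3 + r 0 * r 1 * r 4 + r 0 * r 2 * r 3 + r 0 * r 2 * r 4 +
    r 0 * r 3 * r 4 + r 1 * r 2 * r 3 + r 1 * r 2 * r 4 + r 1 * r 3 * r 4 + r 2 * r 3 * r 4) *
    (C a - X) +
  C (r 0 * r 1 * r 2 * r 3 * r 4)

/-- the odd part -/
def polB (a : K) (r : Fin 5 → K) : K[X] :=
  (C a - X) ^ 2 +
  C (r 0 * r 1 + r 0 * r 2 + r 0 * r 3 + r 0 * r 4 + r 1 * r 2 + r 1 * r 3 + r 1 * r 4 +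
    r 2 * r 3 + r 2 * r 4 + r 3 * r 4) * (C a - X) +
  C (r 0 * r 1 * r 2 * r 3 + r 0 * r 1 * r 2 * r 4 + r 0 * r 1 * r 3 * r 4 +
    r 0 * r 2 * r 3 * r 4 + r 1 * r 2 * r 3 * r 4)

theorem quintic_eq (a : K) (r : Fin 5 → K) (h : ∀ i, e i = a - r i ^ 2) :
    quintic e = polA a r ^ 2 + (X - C a) * polB a r ^ 2 := by
  rw [quintic, Fin.prod_univ_five, h, h, h, h, h, polA, polB]
  simp only [C_sub, C_pow, C_add, C_mul]
  ring

theorem natDegree_polA (a : K) (r : Fin 5 → K) : (polA a r).natDegree ≤ 2 := by
  unfold polA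
  compute_degree

theorem quintic_deriv_ne (he : Function.Injective e) (i : Fin 5) :
    ∃ h : K[X], quintic e = (X - C (e i)) * h ∧ h.eval (e i) ≠ 0 := by
  refine ⟨∏ j ∈ Finset.univ.erase i, (X - C (e j)), ?_, ?_⟩
  · exact (Finset.mul_prod_erase Finset.univ (fun j => X - C (e j)) (Finset.mem_univ i)).symm
  · rw [eval_prod, Finset.prod_ne_zero_iff]
    intro j hj
    rw [eval_sub, eval_X, eval_C, sub_ne_zero]
    exact fun h => (Finset.ne_of_mem_erase hj) (he h).symm

theorem polB_ne (he : Function.Injective e) (a : K) (r : Fin 5 → K)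
    (h : ∀ i, e i = a - r i ^ 2) (i : Fin 5) (hA : (polA a r).eval (e i) = 0) :
    (polB a r).eval (e i) ≠ 0 := by
  intro hB
  obtain ⟨A1, hA1⟩ := dvd_iff_isRoot.2 hA
  obtain ⟨B1, hB1⟩ := dvd_iff_isRoot.2 hB
  obtain ⟨q, hq, hq0⟩ := quintic_deriv_ne he i
  have h1 := quintic_eq a r h
  rw [hq, hA1, hB1] at h1
  have h2 : (X - C (e i)) * q =
      (X - C (e i)) * ((X - C (e i)) * (A1 ^ 2 + (X - C a) * B1 ^ 2)) := by
    rw [h1]
    ring
  have h3 := mul_left_cancel₀ (X_sub_C_ne_zero (e i)) h2
  apply hq0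
  rw [h3, eval_mul, eval_sub, eval_X, eval_C, sub_self, zero_mul]

theorem polB_ne_zero (a : K) (r : Fin 5 → K) (h : ∀ i, e i = a - r i ^ 2) : polB a r ≠ 0 := by
  intro hB
  have h1 := quintic_eq a r h
  rw [hB, zero_pow two_ne_zero, mul_zero, add_zero] at h1
  have h2 := congrArg natDegree h1
  rw [quintic_natDegree, natDegree_pow] at h2
  omega

theorem eval_polA_mem (E0 : Subfield K) {a : K} {r : Fin 5 → K} (ha : a ∈ E0)
    (hr : ∀ i, r i ∈ E0) {x : K} (hx : x ∈ E0) : (polA a r).eval x ∈ E0 := by
  unfold polA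
  simp only [eval_add, eval_mul, eval_pow, eval_sub, eval_C, eval_X]
  have h0 := hr 0
  have h1 := hr 1
  have h2 := hr 2
  have h3 := hr 3
  have h4 := hr 4
  have hax := E0.sub_mem ha hx
  refine E0.add_mem (E0.add_mem (E0.mul_mem ?_ (E0.pow_mem hax 2)) (E0.mul_mem ?_ hax)) ?_
  · exact E0.add_mem (E0.add_mem (E0.add_mem (E0.add_mem h0 h1) h2) h3) h4
  · repeat' first | exact h0 | exact h1 | exact h2 | exact h3 | exact h4 | apply E0.add_mem | apply E0.mul_mem
  · repeat' first | exact h0 | exact h1 | exact h2 | exact h3 | exact h4 | apply E0.mul_mem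

theorem root_polB_mem (E0 : Subfield K) (hsq : ∀ x ∈ E0, ∃ y ∈ E0, y ^ 2 = x)
    {a : K} {r : Fin 5 → K} (ha : a ∈ E0)
    (hr : ∀ i, r i ∈ E0) {x : K} (hx : (polB a r).eval x = 0) : x ∈ E0 := by
  unfold polB at hx
  simp only [eval_add, eval_mul, eval_pow, eval_sub, eval_C, eval_X] at hx
  have h0 := hr 0
  have h1 := hr 1
  have h2 := hr 2
  have h3 := hr 3
  have h4 := hr 4
  have hs2 : r 0 * r 1 + r 0 * r 2 + r 0 * r 3 + r 0 * r 4 + r 1 * r 2 + r 1 * r 3 + r 1 * r 4 +
    r 2 * r 3 + r 2 * r 4 + r 3 * r 4 ∈ E0 := by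
    repeat' first | exact h0 | exact h1 | exact h2 | exact h3 | exact h4 | apply E0.add_mem | apply E0.mul_mem
  have hs4 : r 0 * r 1 * r 2 * r 3 + r 0 * r 1 * r 2 * r 4 + r 0 * r 1 * r 3 * r 4 +
    r 0 * r 2 * r 3 * r 4 + r 1 * r 2 * r 3 * r 4 ∈ E0 := by
    repeat' first | exact h0 | exact h1 | exact h2 | exact h3 | exact h4 | apply E0.add_mem | apply E0.mul_mem
  generalize r 0 * r 1 + r 0 * r 2 + r 0 * r 3 + r 0 * r 4 + r 1 * r 2 + r 1 * r 3 + r 1 * r 4 +
    r 2 * r 3 + r 2 * r 4 + r 3 * r 4 = s2 at *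
  generalize r 0 * r 1 * r 2 * r 3 + r 0 * r 1 * r 2 * r 4 + r 0 * r 1 * r 3 * r 4 +
    r 0 * r 2 * r 3 * r 4 + r 1 * r 2 * r 3 * r 4 = s4 at *
  have h2m : (2 : K) ∈ E0 := by
    have := E0.add_mem E0.one_mem E0.one_mem
    rwa [one_add_one_eq_two] at this
  have h4m : (4 : K) ∈ E0 := by
    have h := E0.mul_mem h2m h2m
    have h' : (2 : K) * 2 = 4 := by norm_num
    rwa [h'] at h
  obtain ⟨d, hd, hd2⟩ := hsq (s2 ^ 2 - 4 * s4)
    (E0.sub_mem (E0.pow_mem hs2 2) (E0.mul_mem h4m hs4))
  have h5 : (2 * (a - x) + s2) ^ 2 = d ^ 2 := by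
    rw [hd2]
    linear_combination 4 * hx
  have h6 : 2 * (a - x) + s2 ∈ E0 := by
    rcases sq_eq_sq_iff_eq_or_eq_neg.1 h5 with h | h
    · rw [h]
      exact hd
    · rw [h]
      exact E0.neg_mem hd
  have h7 : x = a - (2 * (a - x) + s2 - s2) / 2 := by
    field_simp
    ring
  rw [h7]
  exact E0.sub_mem ha (E0.div_mem (E0.sub_mem h6 hs2) h2m)

open Classical in
/-- the function realizing the division by `2` -/
theorem exists_half_fun (he : Function.Injective e) (E0 : Subfield K)
    (hsq : ∀ x ∈ E0, ∃ y ∈ E0, y ^ 2 = x) (hei : ∀ i, e i ∈ E0) {P : Place K F} {a b : K}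
    (ha0 : a ∈ E0) (hb0 : b ∈ E0) (ha : P.At M.u a) (hb : P.At M.w b) :
    ∃ (φ : F) (D : Divisor K F), IsDiv D φ ∧
      (∀ Q : Place K F, D Q ≠ 0 → M.Good E0 Q) ∧
      (∀ Q : Place K F, Even (D Q - (if P = Q then 1 else 0) - (if M.inf = Q then 1 else 0))) := by
  -- square roots of `a - e i`
  have hr' : ∀ i, ∃ y ∈ E0, y ^ 2 = a - e i := fun i => hsq _ (E0.sub_mem ha0 (hei i))
  choose r' hr'm hr'2 using hr'
  have hprod : b ^ 2 = (r' 0 * r' 1 * r' 2 * r' 3 * r' 4) ^ 2 := by
    rw [M.at_eqn ha hb, quintic, eval_prod, Fin.prod_univ_five]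
    simp only [eval_sub, eval_X, eval_C, mul_pow, hr'2]
  obtain ⟨r, hrm, hr2, hrb⟩ : ∃ r : Fin 5 → K, (∀ i, r i ∈ E0) ∧ (∀ i, r i ^ 2 = a - e i) ∧
      r 0 * r 1 * r 2 * r 3 * r 4 = b := by
    rcases sq_eq_sq_iff_eq_or_eq_neg.1 hprod with h | h
    · exact ⟨r', hr'm, hr'2, h.symm⟩
    · refine ⟨Function.update r' 0 (-r' 0), ?_, ?_, ?_⟩
      · intro i
        by_cases hi : i = 0
        · subst hi
          rw [Function.update_self]
          exact E0.neg_mem (hr'm 0)
        · rw [Function.update_of_ne hi]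
          exact hr'm i
      · intro i
        by_cases hi : i = 0
        · subst hi
          rw [Function.update_self, neg_sq]
          exact hr'2 0
        · rw [Function.update_of_ne hi]
          exact hr'2 i
      · rw [Function.update_self, Function.update_of_ne (by decide),
          Function.update_of_ne (by decide), Function.update_of_ne (by decide),
          Function.update_of_ne (by decide), h]
        ring
  have hei' : ∀ i, e i = a - r i ^ 2 := fun i => by rw [hr2]; ring
  have hquint := quintic_eq a r hei'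
  have hAa : (polA a r).eval a = b := by
    unfold polA
    simp only [eval_add, eval_mul, eval_pow, eval_sub, eval_C, eval_X]
    rw [hrb]
    ring
  have hw_ne : ∀ A : K[X], M.w - aeval M.u A ≠ 0 := by
    intro A h
    have h1 := congrArg M.inv h
    rw [map_sub, M.inv_w, M.inv_aeval_u, map_zero] at h1
    have h2 : 2 * M.w = 0 := by linear_combination h - h1
    exact M.w_ne_zero ((mul_eq_zero.1 h2).resolve_left (two_ne_zero_F K F))
  set φ : F := M.w - aeval M.u (polA a r) with hφ
  have hφ0 : φ ≠ 0 := hw_ne _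
  have hφ'0 : M.w + aeval M.u (polA a r) ≠ 0 := by
    have := hw_ne (-(polA a r))
    rwa [map_neg, sub_neg_eq_add] at this
  have hB0 : aeval M.u (polB a r) ≠ 0 := M.aeval_ne_zero (polB_ne_zero a r hei')
  have hprod2 : φ * (M.w + aeval M.u (polA a r)) =
      (M.u - algebraMap K F a) * aeval M.u (polB a r) ^ 2 := by
    have h1 := M.eqn'
    rw [hquint] at h1
    simp only [map_add, map_mul, map_sub, map_pow, aeval_X, aeval_C] at h1
    rw [hφ]
    linear_combination h1
  obtain ⟨D, hD, -⟩ := M.exists_isDiv he φ hφ0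
  have hsum : ∀ Q : Place K F, Q.ord φ + Q.ord (M.w + aeval M.u (polA a r)) =
      Q.ord (M.u - algebraMap K F a) + 2 * Q.ord (aeval M.u (polB a r)) := by
    intro Q
    rw [← Place.ord_mul hφ0 hφ'0, hprod2, Place.ord_mul (M.u_sub_ne_zero a) (pow_ne_zero _ hB0),
      Place.ord_pow hB0]
    norm_cast
  have hpt : ∀ {Q : Place K F} {a' b' : K}, Q.At M.u a' → Q.At M.w b' →
      b' ^ 2 = (polA a r).eval a' ^ 2 + (a' - a) * (polB a r).eval a' ^ 2 := by
    intro Q a' b' ha' hb'
    have := M.at_eqn ha' hb'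
    rw [hquint] at this
    simpa using this
  refine ⟨φ, D, hD, ?_, ?_⟩
  · -- support
    intro Q hQ
    rcases M.cases_place Q with h | ⟨a', b', ha', hb'⟩
    · exact Or.inl h
    · right
      have hval : Q.At φ (b' - (polA a r).eval a') := hb'.sub (ha'.aeval _)
      have h1 : b' - (polA a r).eval a' = 0 := by
        by_contra h
        have h2 := hval.val_eq_one h
        rw [Place.val_eq_one_iff hφ0, ← hD.2] at h2
        exact hQ h2
      have h2 := hpt ha' hb'
      rw [sub_eq_zero.1 h1] at h2
      have h3 : (a' - a) * (polB a r).eval a' ^ 2 = 0 := by linear_combination -h2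
      have h4 : a' ∈ E0 := by
        rcases mul_eq_zero.1 h3 with h | h
        · rw [sub_eq_zero.1 h]
          exact ha0
        · exact root_polB_mem E0 hsq ha0 hrm (pow_eq_zero_iff two_ne_zero |>.1 h)
      refine ⟨a', b', h4, ?_, ha', hb'⟩
      rw [sub_eq_zero.1 h1]
      exact eval_polA_mem E0 ha0 hrm h4
  · -- parity
    intro Q
    rw [hD.2]
    have hPinf : P ≠ M.inf := M.ne_inf_of_at ha
    rcases M.cases_place Q with rfl | ⟨a', b', ha', hb'⟩
    · rw [if_neg hPinf, if_pos rfl]
      have h1 : M.inf.ord φ = -5 := by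
        by_cases hA : polA a r = 0
        · rw [hφ, hA, map_zero, sub_zero]
          exact M.ord_inf_w
        · have h2 := M.ord_aeval_inf M.ord_inf_neg (polA a r) hA
          have h3 := natDegree_polA a r
          rw [M.ord_inf_u] at h2
          rw [hφ, sub_eq_add_neg, (Place.ord_add_of_lt M.w_ne_zero _ _).2]
          · exact M.ord_inf_w
          · rw [neg_ne_zero]
            exact M.aeval_ne_zero hA
          · rw [Place.ord_neg, h2, M.ord_inf_w]
            omega
      rw [h1]
      exact ⟨-3, by norm_num⟩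
    · have hQinf : M.inf ≠ Q := (M.ne_inf_of_at ha').symm
      rw [if_neg hQinf, sub_zero]
      have hval : Q.At φ (b' - (polA a r).eval a') := hb'.sub (ha'.aeval _)
      have hval' : Q.At (M.w + aeval M.u (polA a r)) (b' + (polA a r).eval a') :=
        hb'.add (ha'.aeval _)
      by_cases h1 : b' - (polA a r).eval a' = 0
      · have h1' := sub_eq_zero.1 h1
        by_cases hb'0 : b' = 0
        · subst hb'0
          have h2 := M.at_eqn ha' hb'
          rw [zero_pow two_ne_zero] at h2
          obtain ⟨i, rfl⟩ := eval_quintic_eq_zero h2.symm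
          have h3 := polB_ne he a r hei' i h1'.symm
          have h4 := hpt ha' hb'
          rw [← h1', zero_pow two_ne_zero, zero_add] at h4
          have h5 : e i = a := by
            rcases mul_eq_zero.1 h4.symm with h | h
            · exact sub_eq_zero.1 h
            · exact absurd (pow_eq_zero_iff two_ne_zero |>.1 h) h3
          have h6 : b = 0 := by
            rw [← hAa]
            subst h5
            exact h1'.symm
          subst h6
          have h7 : P = Q := M.eq_of_at he ha hb (h5 ▸ ha') hb'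
          rw [if_pos h7]
          have h8 : Q.ord φ = 1 := by
            by_cases hA : polA a r = 0
            · rw [hφ, hA, map_zero, sub_zero]
              exact M.ord_w_of_fixed he ha' hb'
            · obtain ⟨A1, hA1⟩ := dvd_iff_isRoot.2 h1'.symm
              have hA10 : A1 ≠ 0 := by
                rintro rfl
                rw [mul_zero] at hA1
                exact hA hA1
              have h9 : Q.ord (aeval M.u (polA a r)) = 2 + Q.ord (aeval M.u A1) := by
                rw [hA1, map_mul, map_sub, aeval_X, aeval_C, Place.ord_mul (M.u_sub_ne_zero _)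
                  (M.aeval_ne_zero hA10), M.ord_u_sub_of_fixed he ha' hb']
              have h10 : 0 ≤ Q.ord (aeval M.u A1) :=
                (Place.val_le_one_iff (M.aeval_ne_zero hA10)).1 (Place.val_aeval_le ha'.val_le _)
              rw [hφ, sub_eq_add_neg, (Place.ord_add_of_lt M.w_ne_zero _ _).2]
              · exact M.ord_w_of_fixed he ha' hb'
              · rw [neg_ne_zero]
                exact M.aeval_ne_zero hA
              · rw [Place.ord_neg, h9, M.ord_w_of_fixed he ha' hb']
                omega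
          rw [h8]
          exact ⟨0, by norm_num⟩
        · have h2 : b' + (polA a r).eval a' ≠ 0 := by
            rw [← h1', ← two_mul]
            exact mul_ne_zero two_ne_zero hb'0
          have h3 := hval'.val_eq_one h2
          rw [Place.val_eq_one_iff hφ'0] at h3
          have h4 := hsum Q
          rw [h3, add_zero] at h4
          rw [h4]
          by_cases haa : a' = a
          · subst haa
            rw [hAa] at h1'
            subst h1'
            have h7 : P = Q := M.eq_of_at he ha hb ha' hb'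
            rw [if_pos h7, M.ord_u_sub_of_eq ha' hb' hb'0]
            exact ⟨Q.ord (aeval M.u (polB a' r)), by ring⟩
          · have h7 : P ≠ Q := by
              rintro rfl
              exact haa (ha'.unique ha)
            rw [if_neg h7, M.ord_u_sub_of_ne ha' haa]
            exact ⟨Q.ord (aeval M.u (polB a r)), by ring⟩
      · have h2 := hval.val_eq_one h1
        rw [Place.val_eq_one_iff hφ0] at h2
        have h7 : P ≠ Q := by
          rintro rfl
          have h3 := ha.unique ha'
          have h4 := hb.unique hb'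
          subst h3
          subst h4
          rw [hAa, sub_self] at h1
          exact h1 rfl
        rw [h2, if_neg h7]
        exact ⟨0, by norm_num⟩

/-- Division by `2` of the class of `P - ∞`. -/
theorem exists_half (he : Function.Injective e) (E0 : Subfield K)
    (hsq : ∀ x ∈ E0, ∃ y ∈ E0, y ^ 2 = x) (hei : ∀ i, e i ∈ E0) {P : Place K F}
    (hP : M.Good E0 P) :
    ∃ (φ : F) (D D1 : Divisor K F), IsDiv D φ ∧ (∀ Q : Place K F, D1 Q ≠ 0 → M.Good E0 Q) ∧
      Finsupp.single P 1 - Finsupp.single M.inf 1 = (2 : ℤ) • D1 + D := by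
  classical
  rcases hP with rfl | ⟨a, b, ha0, hb0, ha, hb⟩
  · refine ⟨1, 0, 0, ?_, ?_, by simp⟩
    · have := IsDiv.const (F := F) (one_ne_zero (α := K))
      rwa [map_one] at this
    · intro Q hQ
      exact absurd rfl hQ
  · obtain ⟨φ, D, hD, hsupp, hpar⟩ := M.exists_half_fun he E0 hsq hei ha0 hb0 ha hb
    let G : Divisor K F := D - Finsupp.single P 1 - Finsupp.single M.inf 1
    have hG : ∀ Q, G Q = D Q - (if P = Q then 1 else 0) - (if M.inf = Q then 1 else 0) := by
      intro Q
      simp only [G, Finsupp.sub_apply, Finsupp.single_apply]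
    let H : Divisor K F := G.mapRange (fun n => n / 2) (by norm_num)
    have hH : (2 : ℤ) • H = G := by
      ext Q
      rw [Finsupp.smul_apply, Finsupp.mapRange_apply, smul_eq_mul]
      have h1 := hpar Q
      rw [← hG] at h1
      exact Int.mul_ediv_cancel' h1.two_dvd
    refine ⟨φ, D, -(H + Finsupp.single M.inf 1), hD, ?_, ?_⟩
    · intro Q hQ
      by_contra hgood
      have h1 : D Q = 0 := by
        by_contra h
        exact hgood (hsupp Q h)
      have h2 : P ≠ Q := by
        rintro rfl
        exact hgood (Or.inr ⟨a, b, ha0, hb0, ha, hb⟩)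
      have h3 : M.inf ≠ Q := by
        rintro rfl
        exact hgood (Or.inl rfl)
      have h4 : G Q = 0 := by rw [hG, h1, if_neg h2, if_neg h3]; rfl
      have h5 : H Q = 0 := by
        rw [Finsupp.mapRange_apply, h4]
        rfl
      apply hQ
      rw [Finsupp.neg_apply, Finsupp.add_apply, h5, Finsupp.single_apply, if_neg h3]
      rfl
    · have h1 : (2 : ℤ) • -(H + Finsupp.single M.inf 1) + D =
          -((2 : ℤ) • H) - (2 : ℤ) • Finsupp.single M.inf 1 + D := by
        rw [smul_neg, smul_add]
        abel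
      rw [h1, hH]
      simp only [G]
      rw [two_smul]
      abel

/-- Division by `2` of the class of a divisor, up to multiples of infinity, with control of the
coordinates. -/
theorem exists_half_divisor (he : Function.Injective e) (E0 : Subfield K)
    (hsq : ∀ x ∈ E0, ∃ y ∈ E0, y ^ 2 = x) (hei : ∀ i, e i ∈ E0) (D : Divisor K F)
    (hD : ∀ Q : Place K F, D Q ≠ 0 → M.Good E0 Q) :
    ∃ (φ : F) (G D1 : Divisor K F), IsDiv G φ ∧ (∀ Q : Place K F, D1 Q ≠ 0 → M.Good E0 Q) ∧
      D - Finsupp.single M.inf (deg D) = (2 : ℤ) • D1 + G := by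
  classical
  induction D using Finsupp.induction with
  | zero =>
    refine ⟨1, 0, 0, ?_, ?_, by simp⟩
    · have := IsDiv.const (F := F) (one_ne_zero (α := K))
      rwa [map_one] at this
    · intro Q hQ
      exact absurd rfl hQ
  | single_add P n D hPD hn ih =>
    have hD' : ∀ Q : Place K F, D Q ≠ 0 → M.Good E0 Q := by
      intro Q hQ
      apply hD
      rw [Finsupp.add_apply, Finsupp.single_apply]
      by_cases h : P = Q
      · subst h
        exact absurd (Finsupp.notMem_support_iff.1 hPD) hQ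
      · rw [if_neg h, zero_add]
        exact hQ
    have hPgood : M.Good E0 P := by
      apply hD
      rw [Finsupp.add_apply, Finsupp.single_eq_same, Finsupp.notMem_support_iff.1 hPD, add_zero]
      exact hn
    obtain ⟨φ, G, D1, hG, hD1, hEq⟩ := ih hD'
    obtain ⟨ψ, G', D1', hG', hD1', hEq'⟩ := M.exists_half he E0 hsq hei hPgood
    refine ⟨ψ ^ n * φ, n • G' + G, n • D1' + D1, (hG'.zpow n).mul hG, ?_, ?_⟩
    · intro Q hQ
      by_contra hgood
      apply hQ
      have h1 : D1 Q = 0 := by
        by_contra h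
        exact hgood (hD1 Q h)
      have h2 : D1' Q = 0 := by
        by_contra h
        exact hgood (hD1' Q h)
      rw [Finsupp.add_apply, Finsupp.smul_apply, h1, h2, smul_zero, add_zero]
    · have hdeg : deg (Finsupp.single P n + D) = n + deg D := by
        rw [map_add]
        congr 1
        simp [deg, Finsupp.degree_single]
      have e1 : (Finsupp.single P n : Divisor K F) = n • Finsupp.single P 1 := by
        rw [Finsupp.smul_single, smul_eq_mul, mul_one]
      have e2 : (Finsupp.single M.inf (n + deg D) : Divisor K F) =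
          n • Finsupp.single M.inf 1 + Finsupp.single M.inf (deg D) := by
        rw [Finsupp.smul_single, smul_eq_mul, mul_one, Finsupp.single_add]
      rw [hdeg, e1, e2]
      have h3 : n • Finsupp.single P 1 + D - (n • Finsupp.single M.inf 1 +
          Finsupp.single M.inf (deg D)) =
          n • (Finsupp.single P 1 - Finsupp.single M.inf 1 : Divisor K F) +
            (D - Finsupp.single M.inf (deg D)) := by
        rw [smul_sub]
        abel
      rw [h3, hEq, hEq', smul_add, smul_add, smul_comm n (2 : ℤ) D1']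
      abel

end Model

end Pool.Agent.Work.MP_0fba91_ag
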