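import Pool.Agent.Work.MP_0fba91_ag.Hahn

/-!
The field `k` and its absolute Galois group.
-/

open Polynomial

set_option linter.unusedVariables false
set_option linter.unusedSectionVars false

noncomputable section

namespace Pool.Agent.Work.MP_0fba91_ag

/-- The Galois theoretic data used in the construction. -/
structure Setup (k Ω : Type) [Field k] [Field Ω] [Algebra k Ω] where
  a : k
  b : k
  t : k
  α : Ω
  β : Ω
  s : Ω
  hα : α ^ 2 = algebraMap k Ω a
  hβ : β ^ 2 = algebraMap k Ω b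
  hs : s ^ 2 = algebraMap k Ω t
  hα0 : α ≠ 0
  hβ0 : β ≠ 0
  hs0 : s ≠ 0
  τ : Gal(Ω/k)
  g₁ : Gal(Ω/k)
  g₂ : Gal(Ω/k)
  τs : τ s = -s
  g₁α : g₁ α = -α
  g₁β : g₁ β = β
  g₂α : g₂ α = α
  g₂β : g₂ β = -β
  E : IntermediateField k Ω
  E0 : Subfield Ω
  E0_le : ∀ x ∈ E0, x ∈ E
  sE : s ∈ E
  αE0 : α ∈ E0
  βE0 : β ∈ E0
  sqE : ∀ x ∈ E, ∃ y ∈ E, y ^ 2 = x
  sqE0 : ∀ x ∈ E0, ∃ y ∈ E0, y ^ 2 = x
  τE0 : ∀ x ∈ E0, τ x = x
  comm₁ : ∀ x ∈ E, τ (g₁ x) = g₁ (τ x)
  comm₂ : ∀ x ∈ E, τ (g₂ x) = g₂ (τ x)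

/-- Extension of automorphisms to the algebraic closure. -/
theorem exists_extend {k E Ω : Type} [Field k] [Field E] [Algebra k E] [Field Ω] [Algebra k Ω]
    [IsAlgClosed Ω] [Algebra.IsAlgebraic k Ω] (j : E →ₐ[k] Ω) (σ : E ≃ₐ[k] E) :
    ∃ σ' : Gal(Ω/k), ∀ x, σ' (j x) = j (σ x) := by
  let _ : Algebra E Ω := j.toRingHom.toAlgebra
  have hj : ∀ x, algebraMap E Ω x = j x := fun _ => rfl
  have : IsScalarTower k E Ω := IsScalarTower.of_algebraMap_eq (fun x => (j.commutes x).symm)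
  have : Normal k Ω := normal_iff.2 fun x =>
    ⟨(Algebra.IsAlgebraic.isAlgebraic x).isIntegral, IsAlgClosed.splits _⟩
  exact ⟨σ.liftNormal Ω, fun x => σ.liftNormal_commutes Ω x⟩

/-- the fixed field of the three automorphisms -/
def kk : Subfield HF :=
  (twist (chi pr1)).eqLocusField (RingHom.id _) ⊓ (twist (chi pr2)).eqLocusField (RingHom.id _) ⊓
    (twist (chi pr3)).eqLocusField (RingHom.id _)

theorem mem_kk {x : HF} : x ∈ kk ↔ (twist (chi pr1) x = x ∧ twist (chi pr2) x = x) ∧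
    twist (chi pr3) x = x := Iff.rfl

/-- automorphisms of `HF` over `kk` -/
def aut (χ : AddChar Lam ℂ) (h : ∀ x ∈ kk, twist χ x = x) : HF ≃ₐ[kk] HF :=
  { twistEquiv χ with commutes' := fun c => h c.1 c.2 }

/-- the three automorphisms -/
def aut1 : HF ≃ₐ[kk] HF := aut (chi pr1) (fun x hx => hx.1.1)
/-- the three automorphisms -/
def aut2 : HF ≃ₐ[kk] HF := aut (chi pr2) (fun x hx => hx.1.2)
/-- the three automorphisms -/
def aut3 : HF ≃ₐ[kk] HF := aut (chi pr3) (fun x hx => hx.2)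

/-- relative algebraic closure -/
abbrev EH : IntermediateField kk HF := algebraicClosure kk HF

/-- restriction to the relative algebraic closure -/
def res (φ : HF ≃ₐ[kk] HF) : EH ≃ₐ[kk] EH := algebraicClosure.algEquivOfAlgEquiv φ

theorem res_coe (φ : HF ≃ₐ[kk] HF) (x : EH) : ((res φ x : EH) : HF) = φ x := rfl

theorem twist_single' (p : Lam →+ ℚ) (a : Lam) :
    twist (chi p) (HahnSeries.single a 1) = HahnSeries.single a (expChar (p a)) :=
  twist_single _ _

theorem expChar_zero : expChar 0 = 1 := AddChar.map_zero_eq_one _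

/-- the monomials -/
def mon (a : Lam) : HF := HahnSeries.single a 1

theorem mon_ne_zero (a : Lam) : mon a ≠ 0 := by
  unfold mon
  simp

theorem mon_sq (a : Lam) : mon a ^ 2 = mon (a + a) := by
  rw [mon, mon, sq, HahnSeries.single_mul_single, mul_one]

theorem twist_mon_of_one {p : Lam →+ ℚ} {a : Lam} (h : expChar (p a) = 1) :
    twist (chi p) (mon a) = mon a := by
  rw [mon, twist_single', h]

theorem twist_mon_of_neg {p : Lam →+ ℚ} {a : Lam} (h : expChar (p a) = -1) :
    twist (chi p) (mon a) = -mon a := by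
  rw [mon, twist_single', h]
  ext b
  by_cases hb : b = a
  · subst hb
    simp
  · simp [HahnSeries.coeff_single_of_ne hb]

theorem expChar_int_sum : expChar (1 / 2 + 1 / 2) = 1 := by
  rw [show (1 / 2 + 1 / 2 : ℚ) = 1 by norm_num, expChar_one]

theorem expChar_zero_sum : expChar (0 + 0) = 1 := by
  rw [add_zero, expChar_zero]

theorem mem_EH_of_sq {x : HF} {c : HF} (hc : c ∈ kk) (h : x ^ 2 = c) : x ∈ EH := by
  rw [mem_algebraicClosure_iff]
  refine ⟨X ^ 2 - C (⟨c, hc⟩ : kk), ?_, ?_⟩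
  · exact (monic_X_pow_sub_C _ two_ne_zero).ne_zero
  · rw [map_sub, map_pow, aeval_X, aeval_C, h]
    exact sub_self c

theorem exists_setup : ∃ (k : Type) (_ : Field k) (_ : CharZero k),
    Nonempty (Setup k (AlgebraicClosure k)) := by
  have hchar : CharZero HF := charZero_of_injective_algebraMap (algebraMap ℂ HF).injective
  refine ⟨kk, inferInstance, ?_, ?_⟩
  · refine ⟨fun m n h => ?_⟩
    have h1 := congrArg (Subtype.val : kk → HF) h
    exact_mod_cast h1
  · have : Module.IsTorsionFree kk EH := inferInstance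
    let Ω := AlgebraicClosure kk
    let j : EH →ₐ[kk] Ω := IsAlgClosed.lift
    obtain ⟨τ, hτ⟩ := exists_extend j (res aut1)
    obtain ⟨g₁, hg₁⟩ := exists_extend j (res aut2)
    obtain ⟨g₂, hg₂⟩ := exists_extend j (res aut3)
    -- the monomials
    have ht : mon (vec (1/2) 0 0) ^ 2 ∈ kk := by
      rw [mon_sq, mem_kk]
      exact ⟨⟨twist_mon_of_one expChar_int_sum, twist_mon_of_one expChar_zero_sum⟩,
        twist_mon_of_one expChar_zero_sum⟩
    have ha : mon (vec 0 (1/2) 0) ^ 2 ∈ kk := by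
      rw [mon_sq, mem_kk]
      exact ⟨⟨twist_mon_of_one expChar_zero_sum, twist_mon_of_one expChar_int_sum⟩,
        twist_mon_of_one expChar_zero_sum⟩
    have hb : mon (vec 0 0 (1/2)) ^ 2 ∈ kk := by
      rw [mon_sq, mem_kk]
      exact ⟨⟨twist_mon_of_one expChar_zero_sum, twist_mon_of_one expChar_zero_sum⟩,
        twist_mon_of_one expChar_int_sum⟩
    let sE : EH := ⟨mon (vec (1/2) 0 0), mem_EH_of_sq ht rfl⟩
    let αE : EH := ⟨mon (vec 0 (1/2) 0), mem_EH_of_sq ha rfl⟩
    let βE : EH := ⟨mon (vec 0 0 (1/2)), mem_EH_of_sq hb rfl⟩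
    have hsE0 : sE ≠ 0 := fun h => mon_ne_zero _ (congrArg Subtype.val h)
    have hαE0 : αE ≠ 0 := fun h => mon_ne_zero _ (congrArg Subtype.val h)
    have hβE0 : βE ≠ 0 := fun h => mon_ne_zero _ (congrArg Subtype.val h)
    let F0 : Subfield EH := (inclHF.fieldRange).comap (algebraMap EH HF)
    have hsingle : ∀ l : Lam0, mon (incl l) ∈ inclHF.fieldRange := by
      intro l
      refine ⟨HahnSeries.single l 1, ?_⟩
      exact HahnSeries.embDomain_single
    refine ⟨{
      a := ⟨_, ha⟩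
      b := ⟨_, hb⟩
      t := ⟨_, ht⟩
      α := j αE
      β := j βE
      s := j sE
      hα := ?_
      hβ := ?_
      hs := ?_
      hα0 := (map_ne_zero_iff _ j.injective).2 hαE0
      hβ0 := (map_ne_zero_iff _ j.injective).2 hβE0
      hs0 := (map_ne_zero_iff _ j.injective).2 hsE0
      τ := τ
      g₁ := g₁
      g₂ := g₂
      τs := ?_
      g₁α := ?_
      g₁β := ?_
      g₂α := ?_
      g₂β := ?_
      E := j.fieldRange
      E0 := F0.map j.toRingHom
      E0_le := ?_
      sE := ⟨sE, rfl⟩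
      αE0 := ?_
      βE0 := ?_
      sqE := ?_
      sqE0 := ?_
      τE0 := ?_
      comm₁ := ?_
      comm₂ := ?_ }⟩
    · rw [← map_pow, ← j.commutes]
      congr 1
    · rw [← map_pow, ← j.commutes]
      congr 1
    · rw [← map_pow, ← j.commutes]
      congr 1
    · rw [hτ, ← map_neg]
      congr 1
      exact Subtype.ext (twist_mon_of_neg expChar_half)
    · rw [hg₁, ← map_neg]
      congr 1
      exact Subtype.ext (twist_mon_of_neg expChar_half)
    · rw [hg₁]
      congr 1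
      exact Subtype.ext (twist_mon_of_one expChar_zero)
    · rw [hg₂]
      congr 1
      exact Subtype.ext (twist_mon_of_one expChar_zero)
    · rw [hg₂, ← map_neg]
      congr 1
      exact Subtype.ext (twist_mon_of_neg expChar_half)
    · rintro x ⟨y, -, rfl⟩
      exact ⟨y, rfl⟩
    · exact ⟨αE, hsingle (toLex (1/2, 0)), rfl⟩
    · exact ⟨βE, hsingle (toLex (0, 1/2)), rfl⟩
    · rintro x ⟨y, rfl⟩
      obtain ⟨z, hz⟩ := hahn_exists_sqrt halve_Lam (y : HF)
      have hzE : z ∈ EH := by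
        rw [mem_algebraicClosure_iff]
        apply IsAlgebraic.of_pow two_pos
        rw [hz]
        exact mem_algebraicClosure_iff.1 y.2
      refine ⟨j ⟨z, hzE⟩, ⟨_, rfl⟩, ?_⟩
      rw [← map_pow]
      show j _ = j y
      congr 1
      exact Subtype.ext hz
    · rintro x ⟨y, ⟨w, hw⟩, rfl⟩
      obtain ⟨v, hv⟩ := hahn_exists_sqrt halve_Lam0 w
      have hw' : inclHF w = (y : HF) := hw
      have hzE : inclHF v ∈ EH := by
        rw [mem_algebraicClosure_iff]
        apply IsAlgebraic.of_pow two_pos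
        rw [← map_pow, hv, hw']
        exact mem_algebraicClosure_iff.1 y.2
      refine ⟨j ⟨inclHF v, hzE⟩, ⟨⟨inclHF v, hzE⟩, ⟨v, rfl⟩, rfl⟩, ?_⟩
      rw [← map_pow]
      show j _ = j y
      congr 1
      apply Subtype.ext
      show inclHF v ^ 2 = (y : HF)
      rw [← map_pow, hv, hw']
    · rintro x ⟨y, ⟨w, hw⟩, rfl⟩
      have hw' : inclHF w = (y : HF) := hw
      show τ (j y) = j y
      rw [hτ]
      congr 1
      apply Subtype.ext
      show twist (chi pr1) (y : HF) = y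
      rw [← hw', twist_inclHF]
    · rintro x ⟨y, rfl⟩
      show τ (g₁ (j y)) = g₁ (τ (j y))
      rw [hg₁, hτ, hτ, hg₁]
      congr 1
      exact Subtype.ext (twist_comm _ _ _)
    · rintro x ⟨y, rfl⟩
      show τ (g₂ (j y)) = g₂ (τ (j y))
      rw [hg₂, hτ, hτ, hg₂]
      congr 1
      exact Subtype.ext (twist_comm _ _ _)

end Pool.Agent.Work.MP_0fba91_ag
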