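import Pool.Agent.Work.MP_0fba91_ag.FF
import Pool.Agent.Work.MP_0fba91_ag.Jac
import Pool.Agent.Work.MP_0fba91_ag.Coh
import Pool.Agent.Work.MP_0fba91_ag.Setup

/-!
The main argument.
-/

open Polynomial

set_option linter.unusedVariables false
set_option linter.unusedSectionVars false

noncomputable section

namespace Pool.Agent.Work.MP_0fba91_ag

/-! ### general facts on the Galois action -/

section

variable (k : Type) [Field k] [CharZero k] (f : k[X])

theorem galFun_x (σ : Gal(AlgebraicClosure k/k)) : galFun k f σ (coordX k f) = coordX k f := by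
  rw [coordX, galFun_coord, galCoord_of, Polynomial.map_X]

theorem galFun_y (σ : Gal(AlgebraicClosure k/k)) : galFun k f σ (coordY k f) = coordY k f := by
  rw [coordY, galFun_coord, galCoord_root]

theorem galAction_apply (σ : Gal(AlgebraicClosure k/k)) (g : FunField k f) :
    (galAction k f σ).1 g = galFun k f σ g := rfl

end

namespace Setup

variable {k : Type} [Field k] [CharZero k] (S : Setup k (AlgebraicClosure k))

/-- the sextic -/
def sextic : k[X] := C S.t * (X ^ 2 - C S.a) * (X ^ 2 - C S.b) * (X ^ 2 - C (S.a * S.b))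

/-- its roots -/
def θ : Fin 6 → AlgebraicClosure k := ![S.α, -S.α, S.β, -S.β, S.α * S.β, -(S.α * S.β)]

theorem θ0 : S.θ 0 = S.α := rfl
theorem θ1 : S.θ 1 = -S.α := rfl
theorem θ2 : S.θ 2 = S.β := rfl
theorem θ3 : S.θ 3 = -S.β := rfl
theorem θ4 : S.θ 4 = S.α * S.β := rfl
theorem θ5 : S.θ 5 = -(S.α * S.β) := rfl

theorem map_sextic : S.sextic.map (algebraMap k (AlgebraicClosure k)) =
    C (S.s ^ 2) * ∏ i, (X - C (S.θ i)) := by
  rw [Fin.prod_univ_six, θ0, θ1, θ2, θ3, θ4, θ5, sextic, S.hs]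
  simp only [Polynomial.map_mul, Polynomial.map_sub, Polynomial.map_pow, Polynomial.map_X,
    Polynomial.map_C, map_mul, ← S.hα, ← S.hβ, C_neg, C_mul, C_pow]
  ring

theorem neg_ne {x : AlgebraicClosure k} (hx : x ≠ 0) : x ≠ -x := by
  intro h
  have h1 : 2 * x = 0 := by linear_combination h
  exact hx ((mul_eq_zero.1 h1).resolve_left two_ne_zero)

theorem αβ0 : S.α * S.β ≠ 0 := mul_ne_zero S.hα0 S.hβ0

theorem α_ne_β : S.α ≠ S.β := by
  intro h
  have h1 := S.g₁α
  rw [h, S.g₁β] at h1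
  exact neg_ne S.hβ0 h1

theorem α_ne_neg_β : S.α ≠ -S.β := by
  intro h
  have h1 := S.g₁α
  rw [h, map_neg, S.g₁β, neg_neg] at h1
  exact neg_ne S.hβ0 h1.symm

theorem α_ne_αβ : S.α ≠ S.α * S.β := by
  intro h
  have h1 : S.β = 1 := by
    apply mul_left_cancel₀ S.hα0
    rw [mul_one]
    exact h.symm
  have h2 := S.g₂β
  rw [h1, map_one] at h2
  exact neg_ne one_ne_zero h2

theorem α_ne_neg_αβ : S.α ≠ -(S.α * S.β) := by
  intro h
  have h1 : S.β = -1 := by
    apply mul_left_cancel₀ S.hα0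
    linear_combination h
  have h2 := S.g₂β
  rw [h1, map_neg, map_one, neg_neg] at h2
  exact neg_ne one_ne_zero h2.symm

theorem β_ne_αβ : S.β ≠ S.α * S.β := by
  intro h
  have h1 : S.α = 1 := by
    apply mul_right_cancel₀ S.hβ0
    rw [one_mul]
    exact h.symm
  have h2 := S.g₁α
  rw [h1, map_one] at h2
  exact neg_ne one_ne_zero h2

theorem β_ne_neg_αβ : S.β ≠ -(S.α * S.β) := by
  intro h
  have h1 : S.α = -1 := by
    apply mul_right_cancel₀ S.hβ0
    linear_combination h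
  have h2 := S.g₁α
  rw [h1, map_neg, map_one, neg_neg] at h2
  exact neg_ne one_ne_zero h2.symm

theorem θ_injective : Function.Injective S.θ := by
  have e1 := neg_ne S.hα0
  have e2 := neg_ne S.hβ0
  have e3 := neg_ne S.αβ0
  have e4 := S.α_ne_β
  have e5 := S.α_ne_neg_β
  have e6 := S.α_ne_αβ
  have e7 := S.α_ne_neg_αβ
  have e8 := S.β_ne_αβ
  have e9 := S.β_ne_neg_αβ
  have n : ∀ {x y : AlgebraicClosure k}, x ≠ y → -x ≠ -y := fun h h' => h (neg_injective h')
  have n' : ∀ {x y : AlgebraicClosure k}, x ≠ -y → -x ≠ y := fun h h' => h (by rw [← h', neg_neg])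
  intro i j hij
  fin_cases i <;> fin_cases j <;> simp only [θ] at hij <;> first
    | rfl
    | exact absurd hij e1 | exact absurd hij e1.symm
    | exact absurd hij e2 | exact absurd hij e2.symm
    | exact absurd hij e3 | exact absurd hij e3.symm
    | exact absurd hij e4 | exact absurd hij e4.symm
    | exact absurd hij e5 | exact absurd hij e5.symm
    | exact absurd hij e6 | exact absurd hij e6.symm
    | exact absurd hij e7 | exact absurd hij e7.symm
    | exact absurd hij e8 | exact absurd hij e8.symm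
    | exact absurd hij e9 | exact absurd hij e9.symm
    | exact absurd hij (n e4) | exact absurd hij (n e4).symm
    | exact absurd hij (n' e5) | exact absurd hij (n' e5).symm
    | exact absurd hij (n e6) | exact absurd hij (n e6).symm
    | exact absurd hij (n' e7) | exact absurd hij (n' e7).symm
    | exact absurd hij (n e8) | exact absurd hij (n e8).symm
    | exact absurd hij (n' e9) | exact absurd hij (n' e9).symm

theorem natDegree_sextic : S.sextic.natDegree = 6 := by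
  have h1 : (S.sextic.map (algebraMap k (AlgebraicClosure k))).natDegree = 6 := by
    rw [map_sextic, natDegree_C_mul (pow_ne_zero 2 S.hs0),
      natDegree_prod_of_monic _ _ fun i _ => monic_X_sub_C _]
    simp
  rwa [natDegree_map] at h1

theorem separable_sextic : S.sextic.Separable := by
  rw [← separable_map (algebraMap k (AlgebraicClosure k)), map_sextic]
  have h1 : (∏ i, (X - C (S.θ i))).Separable := separable_prod_X_sub_C_iff.2 S.θ_injective
  have h2 : IsUnit (C (S.s ^ 2) : (AlgebraicClosure k)[X]) :=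
    isUnit_C.2 (isUnit_iff_ne_zero.2 (pow_ne_zero 2 S.hs0))
  exact Separable.unit_mul h2 h1

theorem squarefree_map_sextic :
    Squarefree (S.sextic.map (algebraMap k (AlgebraicClosure k))) :=
  (S.separable_sextic.map).squarefree

instance : IsDomain (CoordRing k S.sextic) :=
  coordRing_isDomain k S.sextic S.squarefree_map_sextic (by rw [natDegree_sextic]; norm_num)

theorem θ_mem (i : Fin 6) : S.θ i ∈ S.E0 := by
  have h1 := S.αE0
  have h2 := S.βE0
  fin_cases i
  · exact h1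
  · exact S.E0.neg_mem h1
  · exact h2
  · exact S.E0.neg_mem h2
  · exact S.E0.mul_mem h1 h2
  · exact S.E0.neg_mem (S.E0.mul_mem h1 h2)

theorem prodθ_ne_zero : ∏ i : Fin 5, (S.θ 5 - S.θ i.castSucc) ≠ 0 := by
  rw [Finset.prod_ne_zero_iff]
  intro i _ h
  exact absurd (S.θ_injective (sub_eq_zero.1 h)) (Fin.castSucc_lt_last i).ne'

theorem exists_δ0 : ∃ d ∈ S.E0, d ^ 2 = (∏ i : Fin 5, (S.θ 5 - S.θ i.castSucc))⁻¹ :=
  S.sqE0 _ (S.E0.inv_mem (S.E0.prod_mem fun i _ => S.E0.sub_mem (S.θ_mem _) (S.θ_mem _)))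

/-- normalizing constant -/
def δ0 : AlgebraicClosure k := S.exists_δ0.choose

theorem δ0_mem : S.δ0 ∈ S.E0 := S.exists_δ0.choose_spec.1

theorem δ0_sq : S.δ0 ^ 2 = (∏ i : Fin 5, (S.θ 5 - S.θ i.castSucc))⁻¹ :=
  S.exists_δ0.choose_spec.2

/-- normalizing constant -/
def δ : AlgebraicClosure k := S.δ0 / S.s

theorem hδ : S.δ ^ 2 * S.s ^ 2 * ∏ i : Fin 5, (S.θ 5 - S.θ i.castSucc) = 1 := by
  rw [δ, div_pow, div_mul_cancel₀ _ (pow_ne_zero 2 S.hs0), δ0_sq,
    inv_mul_cancel₀ S.prodθ_ne_zero]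

/-- the functions `x` and `y` -/
def N : XYModel (AlgebraicClosure k) (FunField k S.sextic)
    (S.sextic.map (algebraMap k (AlgebraicClosure k))) := xyModel k S.sextic

/-- branch points of the quintic model -/
def e (i : Fin 5) : AlgebraicClosure k := (S.θ i.castSucc - S.θ 5)⁻¹

/-- the quintic model -/
def M : Model (AlgebraicClosure k) (FunField k S.sextic) S.e :=
  S.N.toModel (S.s ^ 2) S.θ S.map_sextic S.θ_injective S.δ S.hδ

theorem e_injective : Function.Injective S.e := by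
  intro i j h
  have h1 : S.θ i.castSucc - S.θ 5 = S.θ j.castSucc - S.θ 5 := inv_injective h
  have h2 : S.θ i.castSucc = S.θ j.castSucc := by linear_combination h1
  exact Fin.castSucc_injective 5 (S.θ_injective h2)

theorem e_mem (i : Fin 5) : S.e i ∈ S.E0 :=
  S.E0.inv_mem (S.E0.sub_mem (S.θ_mem _) (S.θ_mem _))

theorem M_u : S.M.u = (S.N.x - algebraMap _ _ (S.θ 5))⁻¹ := rfl

theorem M_w : S.M.w = algebraMap _ _ S.δ * S.N.y * (S.N.x - algebraMap _ _ (S.θ 5))⁻¹ ^ 3 := rfl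

/-- the Galois action -/
def ρ (σ : Gal(AlgebraicClosure k/k)) : SemiAut (AlgebraicClosure k) (FunField k S.sextic) :=
  galAction k S.sextic σ

theorem ρ_mul (σ τ : Gal(AlgebraicClosure k/k)) : S.ρ (σ * τ) = S.ρ σ * S.ρ τ :=
  map_mul _ _ _

theorem ρ_x (σ : Gal(AlgebraicClosure k/k)) : (S.ρ σ).1 S.N.x = S.N.x := galFun_x k _ σ

theorem ρ_y (σ : Gal(AlgebraicClosure k/k)) : (S.ρ σ).1 S.N.y = S.N.y := galFun_y k _ σ

theorem ρ_c (σ : Gal(AlgebraicClosure k/k)) (c : AlgebraicClosure k) :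
    (S.ρ σ).1 (algebraMap _ _ c) = algebraMap _ _ (σ c) := galFun_algebraMap k _ σ c

theorem ρ_u {σ : Gal(AlgebraicClosure k/k)} (h : σ (S.θ 5) = S.θ 5) :
    (S.ρ σ).1 S.M.u = S.M.u := by
  rw [M_u, map_inv₀, map_sub, ρ_x, ρ_c, h]

theorem ρ_w {σ : Gal(AlgebraicClosure k/k)} (h : σ (S.θ 5) = S.θ 5) (h' : σ S.δ = S.δ) :
    (S.ρ σ).1 S.M.w = S.M.w := by
  rw [M_w, map_mul, map_mul, map_pow, map_inv₀, map_sub, ρ_x, ρ_y, ρ_c, ρ_c, h, h']

theorem ρ_w_neg {σ : Gal(AlgebraicClosure k/k)} (h : σ (S.θ 5) = S.θ 5) (h' : σ S.δ = -S.δ) :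
    (S.ρ σ).1 S.M.w = -S.M.w := by
  rw [M_w, map_mul, map_mul, map_pow, map_inv₀, map_sub, ρ_x, ρ_y, ρ_c, ρ_c, h, h', map_neg]
  ring

theorem τ_δ : S.τ S.δ = -S.δ := by
  rw [δ, map_div₀, S.τs, S.τE0 _ S.δ0_mem, div_neg]

theorem δ_mem_E : S.δ ∈ S.E := S.E.div_mem (S.E0_le _ S.δ0_mem) S.sE

/-! ### Weierstrass points -/

theorem _root_.Pool.Agent.Work.MP_0fba91_ag.Place.At.inv {K F : Type} [Field K] [Field F]
    [Algebra K F] {P : Place K F} {x : F} {c : K} (hx : P.At x c) (hc : c ≠ 0) :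
    P.At x⁻¹ c⁻¹ := by
  have h1 := hx.val_eq_one hc
  have hx0 : x ≠ 0 := by
    rintro rfl
    rw [map_zero] at h1
    exact zero_ne_one h1
  have hc1 : algebraMap K F c ≠ 0 := (_root_.map_ne_zero _).2 hc
  rw [Place.At, map_inv₀]
  have h2 : x⁻¹ - (algebraMap K F c)⁻¹ = -(x - algebraMap K F c) * x⁻¹ * (algebraMap K F c)⁻¹ := by
    field_simp
    ring
  rw [h2, map_mul, map_mul, Valuation.map_neg, map_inv₀, map_inv₀, h1, P.trivial_on c hc,
    inv_one, mul_one, mul_one]
  exact hx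

theorem x_eq : S.N.x = algebraMap _ _ (S.θ 5) + S.M.u⁻¹ := by
  rw [M_u, inv_inv]
  ring

theorem at_x_inf : S.M.inf.At S.N.x (S.θ 5) := by
  rw [Place.At]
  have h1 : S.N.x - algebraMap _ _ (S.θ 5) = S.M.u⁻¹ := by
    rw [M_u, inv_inv]
  rw [h1, Place.val_lt_one_iff (inv_ne_zero S.M.u_ne_zero), Place.ord_inv S.M.u_ne_zero,
    S.M.ord_inf_u]
  norm_num

theorem eq_inf_of_at_x {P : Place (AlgebraicClosure k) (FunField k S.sextic)}
    (h : P.At S.N.x (S.θ 5)) : P = S.M.inf := by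
  apply S.M.eq_inf
  rw [Place.At] at h
  have h1 : S.N.x - algebraMap _ _ (S.θ 5) = S.M.u⁻¹ := by
    rw [M_u, inv_inv]
  rw [h1, Place.val_lt_one_iff (inv_ne_zero S.M.u_ne_zero), Place.ord_inv S.M.u_ne_zero] at h
  omega

theorem e_ne_zero (i : Fin 5) : S.e i ≠ 0 := by
  apply inv_ne_zero
  intro h
  exact absurd (S.θ_injective (sub_eq_zero.1 h)) (Fin.castSucc_lt_last i).ne

theorem at_x_of_at_u {P : Place (AlgebraicClosure k) (FunField k S.sextic)} {i : Fin 5}
    (h : P.At S.M.u (S.e i)) : P.At S.N.x (S.θ i.castSucc) := by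
  have h1 := (Place.at_const (P := P) (S.θ 5)).add (h.inv (S.e_ne_zero i))
  rw [← x_eq, e, inv_inv, add_sub_cancel] at h1
  exact h1

theorem at_u_of_at_x {P : Place (AlgebraicClosure k) (FunField k S.sextic)} {i : Fin 5}
    (h : P.At S.N.x (S.θ i.castSucc)) : P.At S.M.u (S.e i) := by
  have h1 := (h.sub (Place.at_const (P := P) (S.θ 5))).inv (by
    intro h
    exact absurd (S.θ_injective (sub_eq_zero.1 h)) (Fin.castSucc_lt_last i).ne)
  exact h1

theorem exists_W (j : Fin 6) : ∃ P : Place (AlgebraicClosure k) (FunField k S.sextic),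
    P.At S.N.x (S.θ j) ∧ S.M.invS • P = P := by
  refine Fin.lastCases ?_ (fun i => ?_) j
  · exact ⟨S.M.inf, S.at_x_inf, S.M.inv_smul_inf⟩
  · obtain ⟨P, hP, hP'⟩ := S.M.exists_at (S.e i) 0 (by
      rw [zero_pow two_ne_zero, quintic, eval_prod]
      exact (Finset.prod_eq_zero (Finset.mem_univ i) (by simp)).symm)
    exact ⟨P, S.at_x_of_at_u hP, (S.M.fixed_iff S.e_injective P).2 (Or.inr ⟨i, hP, hP'⟩)⟩

theorem unique_W {j : Fin 6} {P Q : Place (AlgebraicClosure k) (FunField k S.sextic)}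
    (hP : P.At S.N.x (S.θ j)) (hQ : Q.At S.N.x (S.θ j)) : P = Q := by
  revert hP hQ
  refine Fin.lastCases ?_ (fun i => ?_) j
  · intro hP hQ
    rw [S.eq_inf_of_at_x hP, S.eq_inf_of_at_x hQ]
  · intro hP hQ
    have h1 := S.at_u_of_at_x hP
    have h2 := S.at_u_of_at_x hQ
    have h3 : ∀ R : Place (AlgebraicClosure k) (FunField k S.sextic), R.At S.M.u (S.e i) →
        R.At S.M.w 0 := by
      intro R hR
      obtain ⟨b, hb⟩ := S.M.exists_at_w hR
      have h4 := S.M.at_eqn hR hb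
      have h5 : (quintic S.e).eval (S.e i) = 0 := by
        rw [quintic, eval_prod]
        exact Finset.prod_eq_zero (Finset.mem_univ i) (by simp)
      rw [h5] at h4
      have h6 : b = 0 := pow_eq_zero_iff two_ne_zero |>.1 h4
      rw [h6] at hb
      exact hb
    exact S.M.eq_of_at S.e_injective h1 (h3 P h1) h2 (h3 Q h2)

/-- the six Weierstrass points -/
def W (j : Fin 6) : Place (AlgebraicClosure k) (FunField k S.sextic) := (S.exists_W j).choose

theorem W_at (j : Fin 6) : (S.W j).At S.N.x (S.θ j) := (S.exists_W j).choose_spec.1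

theorem W_fixed (j : Fin 6) : S.M.invS • S.W j = S.W j := (S.exists_W j).choose_spec.2

theorem eq_W {j : Fin 6} {P : Place (AlgebraicClosure k) (FunField k S.sextic)}
    (hP : P.At S.N.x (S.θ j)) : P = S.W j := S.unique_W hP (S.W_at j)

theorem W_injective : Function.Injective S.W := by
  intro i j h
  have h1 := S.W_at i
  rw [h] at h1
  exact S.θ_injective (h1.unique (S.W_at j))

theorem W_all (P : Place (AlgebraicClosure k) (FunField k S.sextic)) (hP : S.M.invS • P = P) :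
    ∃ j, P = S.W j := by
  rcases (S.M.fixed_iff S.e_injective P).1 hP with h | ⟨i, hi, hw⟩
  · exact ⟨5, S.eq_W (by rw [h]; exact S.at_x_inf)⟩
  · exact ⟨i.castSucc, S.eq_W (S.at_x_of_at_u hi)⟩

theorem W5 : S.W 5 = S.M.inf := (S.eq_W S.at_x_inf).symm

theorem smul_W (σ : Gal(AlgebraicClosure k/k)) {i j : Fin 6} (h : σ (S.θ i) = S.θ j) :
    S.ρ σ • S.W i = S.W j := by
  apply S.eq_W
  have h1 := (S.W_at i).smul (S.ρ σ) (S.ρ_c σ _)
  rw [ρ_x, h] at h1
  exact h1

/-- a Galois automorphism permutes the roots -/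
theorem exists_perm (σ : Gal(AlgebraicClosure k/k)) (i : Fin 6) : ∃ j, σ (S.θ i) = S.θ j := by
  have h1 : (S.sextic.map (algebraMap k (AlgebraicClosure k))).eval (S.θ i) = 0 := by
    rw [map_sextic, eval_mul, eval_prod]
    apply mul_eq_zero_of_right
    exact Finset.prod_eq_zero (Finset.mem_univ i) (by simp)
  have h2 : (S.sextic.map (algebraMap k (AlgebraicClosure k))).eval (σ (S.θ i)) = 0 := by
    rw [eval_map_algebraMap] at h1 ⊢
    have h3 := Polynomial.aeval_algHom_apply (σ : AlgebraicClosure k →ₐ[k] AlgebraicClosure k)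
      (S.θ i) S.sextic
    have h4 : aeval (σ (S.θ i)) S.sextic = σ (aeval (S.θ i) S.sextic) := h3
    rw [h4, h1, map_zero]
  rw [map_sextic, eval_mul, eval_C, eval_prod] at h2
  have h3 := (mul_eq_zero.1 h2).resolve_left (pow_ne_zero 2 S.hs0)
  rw [Finset.prod_eq_zero_iff] at h3
  obtain ⟨j, -, hj⟩ := h3
  refine ⟨j, ?_⟩
  rwa [eval_sub, eval_X, eval_C, sub_eq_zero] at hj

/-! ### continuity -/

theorem exists_open_place (P : Place (AlgebraicClosure k) (FunField k S.sextic)) :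
    ∃ U : Subgroup Gal(AlgebraicClosure k/k), IsOpen (U : Set Gal(AlgebraicClosure k/k)) ∧
      ∀ σ ∈ U, S.ρ σ • P = P := by
  have hopen : ∀ x : AlgebraicClosure k,
      IsOpen (MulAction.stabilizer Gal(AlgebraicClosure k/k) x : Set Gal(AlgebraicClosure k/k)) :=
    fun x => stabilizer_isOpen_of_isIntegral x
  rcases S.M.cases_place P with rfl | ⟨a, b, ha, hb⟩
  · exact ⟨_, hopen (S.θ 5), fun σ hσ => S.M.smul_inf_of_fix _ (S.ρ_u hσ)⟩
  · refine ⟨MulAction.stabilizer _ (S.θ 5) ⊓ MulAction.stabilizer _ S.δ ⊓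
      (MulAction.stabilizer _ a ⊓ MulAction.stabilizer _ b), ?_, ?_⟩
    · exact ((hopen _).inter (hopen _)).inter ((hopen _).inter (hopen _))
    · rintro σ ⟨⟨h1, h2⟩, h3, h4⟩
      have h1' : σ (S.θ 5) = S.θ 5 := h1
      have h2' : σ S.δ = S.δ := h2
      have h3' : σ a = a := h3
      have h4' : σ b = b := h4
      exact S.M.smul_of_fix S.e_injective _ (S.ρ_u h1') (S.ρ_w h1' h2') ha hb
        (by rw [ρ_c, h3']) (by rw [ρ_c, h4'])

theorem exists_open_divisor (D : Divisor (AlgebraicClosure k) (FunField k S.sextic)) :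
    ∃ U : Subgroup Gal(AlgebraicClosure k/k), IsOpen (U : Set Gal(AlgebraicClosure k/k)) ∧
      ∀ σ ∈ U, S.ρ σ • D = D := by
  induction D using Finsupp.induction_linear with
  | zero => exact ⟨⊤, isOpen_univ, fun σ _ => smul_zero _⟩
  | add D E hD hE =>
    obtain ⟨U, hU, hU'⟩ := hD
    obtain ⟨V, hV, hV'⟩ := hE
    exact ⟨U ⊓ V, hU.inter hV, fun σ hσ => by rw [smul_add, hU' σ hσ.1, hV' σ hσ.2]⟩
  | single P n =>
    obtain ⟨U, hU, hU'⟩ := S.exists_open_place P
    exact ⟨U, hU, fun σ hσ => by rw [smul_single_place, hU' σ hσ]⟩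

theorem locallyConstant_smul (m : Pic (AlgebraicClosure k) (FunField k S.sextic)) :
    IsLocallyConstant (fun σ : Gal(AlgebraicClosure k/k) => S.ρ σ • m) := by
  obtain ⟨D, rfl⟩ := cls_surjective m
  obtain ⟨U, hU, hU'⟩ := S.exists_open_divisor D
  rw [IsLocallyConstant.iff_exists_open]
  intro σ
  refine ⟨(fun τ => σ⁻¹ * τ) ⁻¹' (U : Set Gal(AlgebraicClosure k/k)),
    hU.preimage (continuous_const_mul _), ?_, ?_⟩
  · show σ⁻¹ * σ ∈ U
    rw [inv_mul_cancel]
    exact U.one_mem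
  · intro τ hτ
    have h1 : σ⁻¹ * τ ∈ U := hτ
    have h2 : τ = σ * (σ⁻¹ * τ) := by group
    have h3 : S.ρ (σ⁻¹ * τ) • (Divisor.cls D) = Divisor.cls D := by
      rw [Divisor.smul_cls, hU' _ h1]
    show S.ρ τ • (Divisor.cls D) = S.ρ σ • (Divisor.cls D)
    rw [h2, ρ_mul, mul_smul, h3]

end Setup

end Pool.Agent.Work.MP_0fba91_ag
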