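import Pool.Agent.Work.MP_0fba91_ag.Semi

/-!
Closed points of a curve `w² = ∏ (u - eᵢ)` (five factors) over an algebraically closed field.
-/

open Polynomial

set_option linter.unusedVariables false
set_option linter.unusedSectionVars false

noncomputable section

namespace Pool.Agent.Work.MP_0fba91_ag

theorem poly_induction {K : Type} [Field K] [IsAlgClosed K] {motive : K[X] → Prop}
    (hC : ∀ c : K, c ≠ 0 → motive (C c))
    (hX : ∀ a : K, motive (X - C a))
    (hmul : ∀ p q : K[X], p ≠ 0 → q ≠ 0 → motive p → motive q → motive (p * q))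
    (p : K[X]) (hp : p ≠ 0) : motive p := by
  obtain ⟨m, hm⟩ := splits_iff_exists_multiset.1 (IsAlgClosed.splits p)
  have key : ∀ m : Multiset K, motive (m.map (fun a => X - C a)).prod ∧
      (m.map (fun a => X - C a)).prod ≠ 0 := by
    intro m
    induction m using Multiset.induction_on with
    | empty =>
      simp only [Multiset.map_zero, Multiset.prod_zero]
      exact ⟨by simpa using hC 1 one_ne_zero, one_ne_zero⟩
    | cons a m ih =>
      simp only [Multiset.map_cons, Multiset.prod_cons]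
      exact ⟨hmul _ _ (X_sub_C_ne_zero a) ih.2 (hX a) ih.1,
        mul_ne_zero (X_sub_C_ne_zero a) ih.2⟩
  rw [hm]
  have hlc : p.leadingCoeff ≠ 0 := leadingCoeff_ne_zero.2 hp
  exact hmul _ _ (C_ne_zero.2 hlc) (key m).2 (hC _ hlc) (key m).1

/-! ### Values at a place -/

section ResidueField

variable {K F : Type} [Field K] [Field F] [Algebra K F]

namespace Place

variable (P : Place K F)

/-- The function `x` takes the value `c` at `P`. -/
def At (x : F) (c : K) : Prop := P.val (x - algebraMap K F c) < 1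

variable {P}

theorem val_const_le (c : K) : P.val (algebraMap K F c) ≤ 1 := by
  by_cases hc : c = 0
  · rw [hc, map_zero, map_zero]
    exact zero_le_one
  · rw [P.trivial_on c hc]

theorem At.val_le {x : F} {c : K} (h : P.At x c) : P.val x ≤ 1 := by
  have h1 : x = (x - algebraMap K F c) + algebraMap K F c := by ring
  rw [h1]
  exact (P.val.map_add _ _).trans (max_le h.le (val_const_le c))

theorem at_const (c : K) : P.At (algebraMap K F c) c := by
  rw [At, sub_self, map_zero]
  exact zero_lt_one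

theorem At.add {x y : F} {c d : K} (hx : P.At x c) (hy : P.At y d) : P.At (x + y) (c + d) := by
  rw [At, map_add]
  have : x + y - (algebraMap K F c + algebraMap K F d) =
    (x - algebraMap K F c) + (y - algebraMap K F d) := by ring
  rw [this]
  exact (P.val.map_add _ _).trans_lt (max_lt hx hy)

theorem At.neg {x : F} {c : K} (hx : P.At x c) : P.At (-x) (-c) := by
  rw [At, map_neg]
  have : -x - -(algebraMap K F c) = -(x - algebraMap K F c) := by ring
  rw [this, Valuation.map_neg]
  exact hx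

theorem At.sub {x y : F} {c d : K} (hx : P.At x c) (hy : P.At y d) : P.At (x - y) (c - d) := by
  rw [sub_eq_add_neg, sub_eq_add_neg]
  exact hx.add hy.neg

theorem At.mul {x y : F} {c d : K} (hx : P.At x c) (hy : P.At y d) : P.At (x * y) (c * d) := by
  rw [At, map_mul]
  have : x * y - (algebraMap K F c * algebraMap K F d) =
    (x - algebraMap K F c) * y + algebraMap K F c * (y - algebraMap K F d) := by ring
  rw [this]
  refine (P.val.map_add _ _).trans_lt (max_lt ?_ ?_)
  · rw [map_mul]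
    calc P.val (x - algebraMap K F c) * P.val y ≤ P.val (x - algebraMap K F c) * 1 := by
          gcongr
          exact hy.val_le
      _ < 1 := by rw [mul_one]; exact hx
  · rw [map_mul]
    calc P.val (algebraMap K F c) * P.val (y - algebraMap K F d)
        ≤ 1 * P.val (y - algebraMap K F d) := by
          gcongr
          exact val_const_le c
      _ < 1 := by rw [one_mul]; exact hy

theorem At.pow {x : F} {c : K} (hx : P.At x c) (n : ℕ) : P.At (x ^ n) (c ^ n) := by
  induction n with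
  | zero => simpa using at_const (P := P) (1 : K)
  | succ n ih =>
    rw [pow_succ, pow_succ]
    exact ih.mul hx

theorem At.aeval {x : F} {c : K} (hx : P.At x c) (p : K[X]) : P.At (aeval x p) (p.eval c) := by
  induction p using Polynomial.induction_on' with
  | add p q hp hq =>
    rw [map_add, eval_add]
    exact hp.add hq
  | monomial n a =>
    rw [aeval_monomial, eval_monomial]
    exact (at_const a).mul (hx.pow n)

theorem At.val_eq_one {x : F} {c : K} (hx : P.At x c) (hc : c ≠ 0) : P.val x = 1 := by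
  have h1 : x = algebraMap K F c + (x - algebraMap K F c) := by ring
  rw [h1, Valuation.map_add_eq_of_lt_left, P.trivial_on c hc]
  rw [P.trivial_on c hc]
  exact hx

theorem At.val_lt_one_iff {x : F} {c : K} (hx : P.At x c) : P.val x < 1 ↔ c = 0 := by
  constructor
  · intro h
    by_contra hc
    rw [hx.val_eq_one hc] at h
    exact lt_irrefl _ h
  · rintro rfl
    simpa [At] using hx

theorem At.eq_zero {x : F} {c : K} (hx : P.At x c) (h : P.val x < 1) : c = 0 :=
  hx.val_lt_one_iff.1 h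

theorem At.unique {x : F} {c d : K} (hx : P.At x c) (hy : P.At x d) : c = d := by
  have h := hx.sub hy
  rw [sub_self] at h
  have : P.val (0 : F) < 1 := by rw [map_zero]; exact zero_lt_one
  exact sub_eq_zero.1 (h.eq_zero this)

theorem at_zero_iff {x : F} : P.At x 0 ↔ P.val x < 1 := by
  rw [At, map_zero, sub_zero]

theorem at_iff_sub {x : F} {c : K} : P.At x c ↔ P.val (x - algebraMap K F c) < 1 := Iff.rfl

theorem val_aeval_le {x : F} (hx : P.val x ≤ 1) (p : K[X]) : P.val (aeval x p) ≤ 1 := by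
  induction p using Polynomial.induction_on' with
  | add p q hp hq =>
    rw [map_add]
    exact (P.val.map_add _ _).trans (max_le hp hq)
  | monomial n a =>
    rw [aeval_monomial, map_mul, map_pow]
    calc P.val (algebraMap K F a) * P.val x ^ n ≤ 1 * 1 ^ n := by
          gcongr
          exact val_const_le a
      _ = 1 := by simp

/-! additive form -/

theorem val_ne_zero {g : F} (hg : g ≠ 0) : P.val g ≠ 0 := (Valuation.ne_zero_iff _).2 hg

theorem val_eq_exp {g : F} (hg : g ≠ 0) : P.val g = WithZero.exp (-P.ord g) := by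
  rw [Place.ord, neg_neg, WithZero.exp_log (val_ne_zero hg)]

theorem ord_mul {g h : F} (hg : g ≠ 0) (hh : h ≠ 0) : P.ord (g * h) = P.ord g + P.ord h := by
  rw [Place.ord, map_mul, WithZero.log_mul (val_ne_zero hg) (val_ne_zero hh), Place.ord, Place.ord]
  ring

theorem ord_one : P.ord (1 : F) = 0 := by simp [Place.ord]

theorem ord_pow {g : F} (hg : g ≠ 0) (n : ℕ) : P.ord (g ^ n) = n * P.ord g := by
  induction n with
  | zero => simp [ord_one]
  | succ n ih =>
    rw [pow_succ, ord_mul (pow_ne_zero _ hg) hg, ih]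
    push_cast
    ring

theorem ord_inv {g : F} (hg : g ≠ 0) : P.ord g⁻¹ = -P.ord g := by
  have h := ord_mul (P := P) hg (inv_ne_zero hg)
  rw [mul_inv_cancel₀ hg, ord_one] at h
  omega

theorem ord_div {g h : F} (hg : g ≠ 0) (hh : h ≠ 0) : P.ord (g / h) = P.ord g - P.ord h := by
  rw [div_eq_mul_inv, ord_mul hg (inv_ne_zero hh), ord_inv hh]
  ring

theorem ord_zpow {g : F} (hg : g ≠ 0) (n : ℤ) : P.ord (g ^ n) = n * P.ord g := by
  cases n with
  | ofNat n => simpa using ord_pow hg n
  | negSucc n =>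
    rw [zpow_negSucc, ord_inv (pow_ne_zero _ hg), ord_pow hg, Int.negSucc_eq]
    push_cast
    ring

theorem ord_const {c : K} (hc : c ≠ 0) : P.ord (algebraMap K F c) = 0 := by
  rw [Place.ord, P.trivial_on c hc, WithZero.log_one, neg_zero]

theorem ord_neg (g : F) : P.ord (-g) = P.ord g := by
  rw [Place.ord, Valuation.map_neg, Place.ord]

theorem val_lt_one_iff {g : F} (hg : g ≠ 0) : P.val g < 1 ↔ 0 < P.ord g := by
  rw [val_eq_exp hg, ← WithZero.exp_zero, WithZero.exp_lt_exp]
  omega

theorem val_le_one_iff {g : F} (hg : g ≠ 0) : P.val g ≤ 1 ↔ 0 ≤ P.ord g := by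
  rw [val_eq_exp hg, ← WithZero.exp_zero, WithZero.exp_le_exp]
  omega

theorem one_lt_val_iff {g : F} (hg : g ≠ 0) : 1 < P.val g ↔ P.ord g < 0 := by
  rw [val_eq_exp hg, ← WithZero.exp_zero, WithZero.exp_lt_exp]
  omega

theorem val_eq_one_iff {g : F} (hg : g ≠ 0) : P.val g = 1 ↔ P.ord g = 0 := by
  rw [val_eq_exp hg, ← WithZero.exp_zero, WithZero.exp_inj]
  omega

theorem exists_ord_eq (P : Place K F) (n : ℤ) : ∃ g : F, g ≠ 0 ∧ P.ord g = n := by
  obtain ⟨g, hg⟩ := P.surjective (WithZero.exp (-n))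
  refine ⟨g, ?_, ?_⟩
  · rintro rfl
    rw [map_zero] at hg
    exact WithZero.exp_ne_zero hg.symm
  · rw [Place.ord, hg, WithZero.log_exp, neg_neg]

theorem ext_ord {P Q : Place K F} (h : ∀ g : F, g ≠ 0 → P.ord g = Q.ord g) : P = Q := by
  apply Place.ext
  intro g
  by_cases hg : g = 0
  · rw [hg, map_zero, map_zero]
  · rw [val_eq_exp hg, val_eq_exp hg, h g hg]

theorem ord_add_of_lt {g h : F} (hg : g ≠ 0) (hh : h ≠ 0) (hlt : P.ord g < P.ord h) :
    g + h ≠ 0 ∧ P.ord (g + h) = P.ord g := by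
  have h1 : P.val h < P.val g := by
    rw [val_eq_exp hg, val_eq_exp hh, WithZero.exp_lt_exp]
    omega
  have h2 : P.val (g + h) = P.val g := P.val.map_add_eq_of_lt_left h1
  refine ⟨?_, ?_⟩
  · intro h0
    rw [h0, map_zero] at h2
    exact val_ne_zero hg h2.symm
  · rw [Place.ord, h2, Place.ord]

theorem le_ord_add {g h : F} {n : ℤ} (hg : g ≠ 0) (hh : h ≠ 0) (hgh : g + h ≠ 0)
    (h1 : n ≤ P.ord g) (h2 : n ≤ P.ord h) : n ≤ P.ord (g + h) := by
  have h3 := P.val.map_add g h
  rw [val_eq_exp hg, val_eq_exp hh, val_eq_exp hgh, le_max_iff, WithZero.exp_le_exp,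
    WithZero.exp_le_exp] at h3
  omega

/-- Two places whose orders are synchronized by a common parameter coincide, and the parameter
is a uniformizer. -/
theorem sync {P Q : Place K F} {π : F} (hP : 0 < P.ord π) (hQ : 0 < Q.ord π)
    (h : ∀ g : F, g ≠ 0 → ∃ m : ℤ, P.ord g = m * P.ord π ∧ Q.ord g = m * Q.ord π) :
    P = Q ∧ P.ord π = 1 := by
  have h1 : P.ord π = 1 := by
    obtain ⟨g, hg, hg1⟩ := P.exists_ord_eq 1
    obtain ⟨m, hm, -⟩ := h g hg
    rw [hg1] at hm
    exact (Int.eq_one_or_neg_one_of_mul_eq_one' hm.symm).elim (fun h => h.2) (fun h => by omega)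
  have h2 : Q.ord π = 1 := by
    obtain ⟨g, hg, hg1⟩ := Q.exists_ord_eq 1
    obtain ⟨m, -, hm⟩ := h g hg
    rw [hg1] at hm
    exact (Int.eq_one_or_neg_one_of_mul_eq_one' hm.symm).elim (fun h => h.2) (fun h => by omega)
  refine ⟨ext_ord fun g hg => ?_, h1⟩
  obtain ⟨m, hm, hm'⟩ := h g hg
  rw [hm, hm', h1, h2]

end Place

end ResidueField

/-! ### The model -/

/-- A presentation `w² = ∏ (u - eᵢ)` of the function field `F`. -/
structure Model (K F : Type) [Field K] [Field F] [Algebra K F] (e : Fin 5 → K) where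
  u : F
  w : F
  inv : F ≃ₐ[K] F
  inv_u : inv u = u
  inv_w : inv w = -w
  trans : ∀ p : K[X], aeval u p = 0 → p = 0
  eqn : w ^ 2 = aeval u (∏ i, (X - C (e i)))
  gen : ∀ g : F, ∃ A B D : K[X], D ≠ 0 ∧ g * aeval u D = aeval u A + aeval u B * w

namespace Model

variable {K F : Type} [Field K] [Field F] [Algebra K F] {e : Fin 5 → K} (M : Model K F e)

/-- the quintic polynomial -/
def _root_.Pool.Agent.Work.MP_0fba91_ag.quintic (e : Fin 5 → K) : K[X] := ∏ i, (X - C (e i))

theorem eqn' : M.w ^ 2 = aeval M.u (quintic e) := M.eqn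

theorem quintic_monic (e : Fin 5 → K) : (quintic e).Monic :=
  monic_prod_of_monic _ _ fun i _ => monic_X_sub_C _

theorem quintic_natDegree (e : Fin 5 → K) : (quintic e).natDegree = 5 := by
  rw [quintic, natDegree_prod_of_monic _ _ fun i _ => monic_X_sub_C _]
  simp

theorem w_ne_zero : M.w ≠ 0 := by
  intro h
  have h1 := M.eqn'
  rw [h, zero_pow two_ne_zero] at h1
  have h2 := M.trans _ h1.symm
  exact (quintic_monic e).ne_zero h2

theorem aeval_ne_zero {p : K[X]} (hp : p ≠ 0) : aeval M.u p ≠ 0 := fun h => hp (M.trans p h)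

variable [IsAlgClosed K]

/-- At a place where `u` is regular, `u` has a value. -/
theorem exists_at_u (P : Place K F) (hP : P.val M.u ≤ 1) : ∃ a : K, P.At M.u a := by
  by_contra hcon
  push Not at hcon
  have h1 : ∀ a : K, P.val (M.u - algebraMap K F a) = 1 := by
    intro a
    refine le_antisymm ?_ (not_lt.1 (hcon a))
    exact (P.val.map_sub _ _).trans (max_le hP (Place.val_const_le a))
  have h2 : ∀ p : K[X], p ≠ 0 → P.val (aeval M.u p) = 1 := by
    refine fun p hp => poly_induction (motive := fun p => P.val (aeval M.u p) = 1)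
      ?_ ?_ ?_ p hp
    · intro c hc
      rw [aeval_C, P.trivial_on c hc]
    · intro a
      rw [map_sub, aeval_X, aeval_C, h1]
    · intro p q hp hq ihp ihq
      rw [map_mul, map_mul, ihp, ihq, one_mul]
  have h3 : P.val M.w = 1 := by
    have : P.val M.w ^ 2 = 1 := by
      rw [← map_pow, M.eqn', h2 _ (quintic_monic e).ne_zero]
    exact (pow_eq_one_iff.1 this).resolve_right two_ne_zero
  obtain ⟨g, hg⟩ := P.surjective (WithZero.exp 1)
  obtain ⟨A, B, D, hD, hgD⟩ := M.gen g
  have h4 : P.val g ≤ 1 := by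
    have : P.val (g * aeval M.u D) = P.val g := by rw [map_mul, h2 D hD, mul_one]
    rw [← this, hgD]
    refine (P.val.map_add _ _).trans (max_le (Place.val_aeval_le hP A) ?_)
    rw [map_mul, h3, mul_one]
    exact Place.val_aeval_le hP B
  rw [hg] at h4
  have h5 : (1 : WithZero (Multiplicative ℤ)) < WithZero.exp 1 := by
    rw [← WithZero.exp_zero, WithZero.exp_lt_exp]
    exact zero_lt_one
  exact absurd h4 (not_le.2 h5)

omit [IsAlgClosed K] in
theorem w_val_le {P : Place K F} (hP : P.val M.u ≤ 1) : P.val M.w ≤ 1 := by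
  have : P.val M.w ^ 2 ≤ 1 := by
    rw [← map_pow, M.eqn']
    exact Place.val_aeval_le hP _
  exact (pow_le_one_iff two_ne_zero).1 this

omit [IsAlgClosed K] in
/-- values satisfy the equation of the curve -/
theorem at_eqn {P : Place K F} {a b : K} (ha : P.At M.u a) (hb : P.At M.w b) :
    b ^ 2 = (quintic e).eval a := by
  have h1 := ha.aeval (quintic e)
  rw [← M.eqn'] at h1
  exact (hb.pow 2).unique h1

theorem exists_at_w {P : Place K F} {a : K} (ha : P.At M.u a) : ∃ b : K, P.At M.w b := by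
  obtain ⟨b, hb⟩ := IsAlgClosed.exists_pow_nat_eq ((quintic e).eval a) (n := 2) two_pos
  have h1 := ha.aeval (quintic e)
  rw [← M.eqn', ← hb] at h1
  have h2 : P.val (M.w - algebraMap K F b) * P.val (M.w - algebraMap K F (-b)) < 1 := by
    rw [← map_mul]
    have : (M.w - algebraMap K F b) * (M.w - algebraMap K F (-b)) =
        M.w ^ 2 - algebraMap K F (b ^ 2) := by
      rw [map_neg, map_pow]
      ring
    rw [this]
    exact h1
  have h3 := M.w_val_le ha.val_le
  have h4 : ∀ c : K, P.val (M.w - algebraMap K F c) ≤ 1 := fun c =>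
    (P.val.map_sub _ _).trans (max_le h3 (Place.val_const_le c))
  rcases lt_or_eq_of_le (h4 b) with h5 | h5
  · exact ⟨b, h5⟩
  · rw [h5, one_mul] at h2
    exact ⟨-b, h2⟩

/-- regular functions on the affine part -/
def Reg (g : F) : Prop := ∃ A B : K[X], g = aeval M.u A + aeval M.u B * M.w

omit [IsAlgClosed K] in
theorem reg_aeval (A : K[X]) : M.Reg (aeval M.u A) := ⟨A, 0, by simp⟩

omit [IsAlgClosed K] in
theorem reg_w : M.Reg M.w := ⟨0, 1, by simp⟩

omit [IsAlgClosed K] in
theorem Reg.add {g h : F} (hg : M.Reg g) (hh : M.Reg h) : M.Reg (g + h) := by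
  obtain ⟨A, B, rfl⟩ := hg
  obtain ⟨A', B', rfl⟩ := hh
  exact ⟨A + A', B + B', by simp only [map_add]; ring⟩

omit [IsAlgClosed K] in
theorem Reg.mul {g h : F} (hg : M.Reg g) (hh : M.Reg h) : M.Reg (g * h) := by
  obtain ⟨A, B, rfl⟩ := hg
  obtain ⟨A', B', rfl⟩ := hh
  refine ⟨A * A' + B * B' * quintic e, A * B' + B * A', ?_⟩
  simp only [map_add, map_mul, ← M.eqn']
  ring

omit [IsAlgClosed K] in
theorem Reg.val_le {g : F} (hg : M.Reg g) {P : Place K F} {a b : K} (ha : P.At M.u a)
    (hb : P.At M.w b) : P.val g ≤ 1 := by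
  obtain ⟨A, B, rfl⟩ := hg
  exact ((ha.aeval A).add ((ha.aeval B).mul hb)).val_le

omit [IsAlgClosed K] in
theorem reg_step {a b : K} (hab : b ^ 2 = (quintic e).eval a) {A B : K[X]}
    (h0 : A.eval a + B.eval a * b = 0) :
    ∃ G : F, M.Reg G ∧ (M.w + algebraMap K F b) * (aeval M.u A + aeval M.u B * M.w) =
      (M.u - algebraMap K F a) * G := by
  obtain ⟨A1, hA1⟩ := X_sub_C_dvd_sub_C_eval (p := A) (a := a)
  obtain ⟨B1, hB1⟩ := X_sub_C_dvd_sub_C_eval (p := B) (a := a)
  obtain ⟨h, hh⟩ := X_sub_C_dvd_sub_C_eval (p := quintic e) (a := a)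
  refine ⟨(aeval M.u A1 + aeval M.u B1 * M.w) * (M.w + algebraMap K F b) +
    algebraMap K F (B.eval a) * aeval M.u h, ?_, ?_⟩
  · refine Reg.add M (Reg.mul M ⟨A1, B1, rfl⟩ ⟨C b, 1, by simp [add_comm]⟩) ?_
    exact ⟨C (B.eval a) * h, 0, by simp⟩
  · have e1 := congrArg (aeval M.u) hA1
    have e2 := congrArg (aeval M.u) hB1
    have e3 := congrArg (aeval M.u) hh
    simp only [map_sub, map_mul, aeval_X, aeval_C] at e1 e2 e3
    rw [← M.eqn', ← hab, map_pow] at e3
    have e4 := congrArg (algebraMap K F) h0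
    simp only [map_add, map_mul, map_zero] at e4
    linear_combination (M.w + algebraMap K F b) * e1 +
      (M.w + algebraMap K F b) * M.w * e2 + algebraMap K F (B.eval a) * e3 +
      (M.w + algebraMap K F b) * e4

omit [IsAlgClosed K] in
theorem reg_step0 {a : K} {h : K[X]} (hh : quintic e = (X - C a) * h) {A B : K[X]}
    (h0 : A.eval a = 0) :
    ∃ G : F, M.Reg G ∧ aeval M.u h * (aeval M.u A + aeval M.u B * M.w) = M.w * G := by
  obtain ⟨A1, hA1⟩ := X_sub_C_dvd_sub_C_eval (p := A) (a := a)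
  refine ⟨aeval M.u A1 * M.w + aeval M.u h * aeval M.u B, ?_, ?_⟩
  · exact ⟨h * B, A1, by simp [add_comm]⟩
  · rw [h0, C_0, sub_zero] at hA1
    have e1 := congrArg (aeval M.u) hA1
    have e3 := congrArg (aeval M.u) hh
    rw [← M.eqn'] at e3
    simp only [map_sub, map_mul, aeval_X, aeval_C] at e1 e3
    linear_combination (aeval M.u h) * e1 - (aeval M.u A1) * e3

/-- Core induction: regular functions at two places with the same center. -/
theorem sync_aux {P Q : Place K F} {a b : K} (haP : P.At M.u a) (hbP : P.At M.w b)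
    (haQ : Q.At M.u a) (hbQ : Q.At M.w b) {π : F} (hπ : π ≠ 0) (hπP : 0 < P.ord π)
    (step : ∀ A B : K[X], A.eval a + B.eval a * b = 0 →
      ∃ G v : F, M.Reg G ∧ P.val v = 1 ∧ Q.val v = 1 ∧
        v * (aeval M.u A + aeval M.u B * M.w) = π * G) :
    ∀ n : ℕ, ∀ g : F, M.Reg g → g ≠ 0 → P.ord g ≤ n →
      ∃ m : ℤ, P.ord g = m * P.ord π ∧ Q.ord g = m * Q.ord π := by
  intro n
  induction n using Nat.strong_induction_on with
  | _ n ih =>
    intro g hg hg0 hn
    obtain ⟨A, B, rfl⟩ := hg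
    have hP := (haP.aeval A).add ((haP.aeval B).mul hbP)
    have hQ := (haQ.aeval A).add ((haQ.aeval B).mul hbQ)
    by_cases h0 : A.eval a + B.eval a * b = 0
    · obtain ⟨G, v, hG, hvP, hvQ, hv⟩ := step A B h0
      have hv0 : v ≠ 0 := by
        rintro rfl
        rw [map_zero] at hvP
        exact zero_ne_one hvP
      have hG0 : G ≠ 0 := by
        rintro rfl
        rw [mul_zero] at hv
        exact (mul_ne_zero hv0 hg0) hv
      have e1 : P.ord (aeval M.u A + aeval M.u B * M.w) = P.ord π + P.ord G := by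
        rw [← Place.ord_mul hπ hG0, ← hv, Place.ord_mul hv0 hg0,
          (Place.val_eq_one_iff hv0).1 hvP, zero_add]
      have e2 : Q.ord (aeval M.u A + aeval M.u B * M.w) = Q.ord π + Q.ord G := by
        rw [← Place.ord_mul hπ hG0, ← hv, Place.ord_mul hv0 hg0,
          (Place.val_eq_one_iff hv0).1 hvQ, zero_add]
      have hGn : 0 ≤ P.ord G := (Place.val_le_one_iff hG0).1 (hG.val_le M haP hbP)
      obtain ⟨m, hm, hm'⟩ := ih (P.ord G).toNat (by omega) G hG hG0 (by omega)
      refine ⟨m + 1, ?_, ?_⟩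
      · rw [e1, hm]; ring
      · rw [e2, hm']; ring
    · refine ⟨0, ?_, ?_⟩
      · rw [zero_mul, ← Place.val_eq_one_iff hg0]
        exact hP.val_eq_one h0
      · rw [zero_mul, ← Place.val_eq_one_iff hg0]
        exact hQ.val_eq_one h0

/-- From regular functions to all functions. -/
theorem sync_all {P Q : Place K F} {a b : K} (haP : P.At M.u a) (hbP : P.At M.w b)
    (haQ : Q.At M.u a) (hbQ : Q.At M.w b) {π : F} (hπ : π ≠ 0) (hπP : 0 < P.ord π)
    (step : ∀ A B : K[X], A.eval a + B.eval a * b = 0 →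
      ∃ G v : F, M.Reg G ∧ P.val v = 1 ∧ Q.val v = 1 ∧
        v * (aeval M.u A + aeval M.u B * M.w) = π * G) (g : F) (hg : g ≠ 0) :
    ∃ m : ℤ, P.ord g = m * P.ord π ∧ Q.ord g = m * Q.ord π := by
  obtain ⟨A, B, D, hD, hgD⟩ := M.gen g
  have hD0 := M.aeval_ne_zero hD
  have h1 : M.Reg (aeval M.u A + aeval M.u B * M.w) := ⟨A, B, rfl⟩
  have h10 : aeval M.u A + aeval M.u B * M.w ≠ 0 := by
    rw [← hgD]
    exact mul_ne_zero hg hD0
  obtain ⟨m, hm, hm'⟩ := M.sync_aux haP hbP haQ hbQ hπ hπP step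
    (P.ord (aeval M.u A + aeval M.u B * M.w)).toNat _ h1 h10 (Int.self_le_toNat _)
  obtain ⟨n, hn, hn'⟩ := M.sync_aux haP hbP haQ hbQ hπ hπP step
    (P.ord (aeval M.u D)).toNat _ (M.reg_aeval D) hD0 (Int.self_le_toNat _)
  refine ⟨m - n, ?_, ?_⟩
  · rw [← hgD, Place.ord_mul hg hD0, hn] at hm
    linarith
  · rw [← hgD, Place.ord_mul hg hD0, hn'] at hm'
    linarith

theorem u_sub_ne_zero (a : K) : M.u - algebraMap K F a ≠ 0 := by
  have := M.aeval_ne_zero (X_sub_C_ne_zero a)
  rwa [map_sub, aeval_X, aeval_C] at this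

/-- Uniqueness of the place above a non-Weierstrass point, and the uniformizer `u - a`. -/
theorem eq_of_at_of_ne {P Q : Place K F} {a b : K} (h2 : (2 : K) ≠ 0) (hb0 : b ≠ 0)
    (haP : P.At M.u a) (hbP : P.At M.w b) (haQ : Q.At M.u a) (hbQ : Q.At M.w b) :
    P = Q ∧ P.ord (M.u - algebraMap K F a) = 1 := by
  have hπ := M.u_sub_ne_zero a
  have hπP : 0 < P.ord (M.u - algebraMap K F a) := (Place.val_lt_one_iff hπ).1 haP
  have hπQ : 0 < Q.ord (M.u - algebraMap K F a) := (Place.val_lt_one_iff hπ).1 haQ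
  have h2b : b + b ≠ 0 := by
    rw [← two_mul]
    exact mul_ne_zero h2 hb0
  refine Place.sync hπP hπQ (M.sync_all haP hbP haQ hbQ hπ hπP ?_)
  intro A B h0
  obtain ⟨G, hG, hG'⟩ := M.reg_step (M.at_eqn haP hbP) h0
  exact ⟨G, M.w + algebraMap K F b, hG, (hbP.add (Place.at_const b)).val_eq_one h2b,
    (hbQ.add (Place.at_const b)).val_eq_one h2b, hG'⟩

/-- Uniqueness of the place above a Weierstrass point, and the uniformizer `w`. -/
theorem eq_of_at_zero {P Q : Place K F} {i : Fin 5} (he : Function.Injective e)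
    (haP : P.At M.u (e i)) (hbP : P.At M.w 0) (haQ : Q.At M.u (e i)) (hbQ : Q.At M.w 0) :
    P = Q ∧ P.ord M.w = 1 := by
  have hπ := M.w_ne_zero
  have hπP : 0 < P.ord M.w := (Place.val_lt_one_iff hπ).1 (Place.at_zero_iff.1 hbP)
  have hπQ : 0 < Q.ord M.w := (Place.val_lt_one_iff hπ).1 (Place.at_zero_iff.1 hbQ)
  refine Place.sync hπP hπQ (M.sync_all haP hbP haQ hbQ hπ hπP ?_)
  intro A B h0
  rw [mul_zero, add_zero] at h0
  obtain ⟨h, hh, hh0⟩ : ∃ h : K[X], quintic e = (X - C (e i)) * h ∧ h.eval (e i) ≠ 0 := by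
    refine ⟨∏ j ∈ Finset.univ.erase i, (X - C (e j)), ?_, ?_⟩
    · exact (Finset.mul_prod_erase Finset.univ (fun j => X - C (e j)) (Finset.mem_univ i)).symm
    · rw [eval_prod, Finset.prod_ne_zero_iff]
      intro j hj
      rw [eval_sub, eval_X, eval_C, sub_ne_zero]
      exact fun h => (Finset.ne_of_mem_erase hj) (he h).symm
  obtain ⟨G, hG, hG'⟩ := M.reg_step0 hh h0
  exact ⟨G, aeval M.u h, hG, (haP.aeval h).val_eq_one hh0, (haQ.aeval h).val_eq_one hh0, hG'⟩

/-! infinite places -/

theorem u_ne_zero : M.u ≠ 0 := by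
  have := M.aeval_ne_zero (X_ne_zero (R := K))
  rwa [aeval_X] at this

theorem ord_aeval_inf {P : Place K F} (hP : P.ord M.u < 0) (p : K[X]) (hp : p ≠ 0) :
    P.ord (aeval M.u p) = p.natDegree * P.ord M.u := by
  refine poly_induction (motive := fun p => P.ord (aeval M.u p) = p.natDegree * P.ord M.u)
      ?_ ?_ ?_ p hp
  · intro c hc
    rw [aeval_C, Place.ord_const hc, natDegree_C]
    simp
  · intro a
    rw [map_sub, aeval_X, aeval_C, natDegree_X_sub_C]
    by_cases ha : a = 0
    · rw [ha, map_zero, sub_zero]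
      simp
    · rw [sub_eq_add_neg, (Place.ord_add_of_lt M.u_ne_zero _ _).2]
      · simp
      · rw [neg_ne_zero]
        exact (_root_.map_ne_zero _).2 ha
      · rw [Place.ord_neg, Place.ord_const ha]
        exact hP
  · intro p q hp hq ihp ihq
    rw [map_mul, Place.ord_mul (M.aeval_ne_zero hp) (M.aeval_ne_zero hq), ihp, ihq,
      natDegree_mul hp hq]
    push_cast
    ring

theorem ord_w_inf {P : Place K F} (hP : P.ord M.u < 0) :
    2 * P.ord M.w = 5 * P.ord M.u := by
  have h := M.ord_aeval_inf hP (quintic e) (quintic_monic e).ne_zero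
  rw [← M.eqn', Place.ord_pow M.w_ne_zero, quintic_natDegree] at h
  exact_mod_cast h

/-- exponent of a regular function at infinity -/
theorem exists_exponent (A B : K[X]) (h0 : aeval M.u A + aeval M.u B * M.w ≠ 0) :
    ∃ N : ℤ, ∀ P : Place K F, P.ord M.u < 0 →
      P.ord (aeval M.u A + aeval M.u B * M.w) = N * (P.ord M.w - 2 * P.ord M.u) := by
  by_cases hA : A = 0
  · subst hA
    have hB : B ≠ 0 := by
      rintro rfl
      simp at h0
    refine ⟨2 * B.natDegree + 5, fun P hP => ?_⟩
    rw [map_zero, zero_add, Place.ord_mul (M.aeval_ne_zero hB) M.w_ne_zero,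
      M.ord_aeval_inf hP B hB]
    have hw := M.ord_w_inf hP
    obtain ⟨j, hj⟩ : ∃ j : ℤ, j = P.ord M.w - 2 * P.ord M.u := ⟨_, rfl⟩
    have hu : P.ord M.u = 2 * j := by linarith
    have hw' : P.ord M.w = 5 * j := by linarith
    rw [hu, hw']
    ring
  · by_cases hB : B = 0
    · subst hB
      refine ⟨2 * A.natDegree, fun P hP => ?_⟩
      rw [map_zero, zero_mul, add_zero, M.ord_aeval_inf hP A hA]
      have hw := M.ord_w_inf hP
      obtain ⟨j, hj⟩ : ∃ j : ℤ, j = P.ord M.w - 2 * P.ord M.u := ⟨_, rfl⟩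
      have hu : P.ord M.u = 2 * j := by linarith
      have hw' : P.ord M.w = 5 * j := by linarith
      rw [hu, hw']
      ring
    · refine ⟨max (2 * A.natDegree) (2 * B.natDegree + 5), fun P hP => ?_⟩
      have hw := M.ord_w_inf hP
      have hA0 := M.aeval_ne_zero hA
      have hB0 := mul_ne_zero (M.aeval_ne_zero hB) M.w_ne_zero
      have h1 := M.ord_aeval_inf hP A hA
      have h2 : P.ord (aeval M.u B * M.w) = B.natDegree * P.ord M.u + P.ord M.w := by
        rw [Place.ord_mul (M.aeval_ne_zero hB) M.w_ne_zero, M.ord_aeval_inf hP B hB]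
      obtain ⟨j, hj⟩ : ∃ j : ℤ, j = P.ord M.w - 2 * P.ord M.u := ⟨_, rfl⟩
      have hu : P.ord M.u = 2 * j := by linarith
      have hw' : P.ord M.w = 5 * j := by linarith
      have hj0 : j < 0 := by linarith
      rw [← hj]
      rw [hu] at h1 h2
      rw [hw'] at h2
      rcases lt_or_gt_of_ne (show (2 * (A.natDegree : ℤ)) ≠ 2 * B.natDegree + 5 by omega)
        with hlt | hlt
      · rw [max_eq_right hlt.le, add_comm, (Place.ord_add_of_lt hB0 hA0 _).2, h2]
        · ring
        · rw [h1, h2]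
          nlinarith
      · rw [max_eq_left hlt.le, (Place.ord_add_of_lt hA0 hB0 _).2, h1]
        · ring
        · rw [h1, h2]
          nlinarith

/-- Uniqueness of the place at infinity. -/
theorem eq_of_inf {P Q : Place K F} (hP : P.ord M.u < 0) (hQ : Q.ord M.u < 0) :
    P = Q ∧ P.ord M.u = -2 ∧ P.ord M.w = -5 := by
  have hwP := M.ord_w_inf hP
  have hwQ := M.ord_w_inf hQ
  have hπ : M.u ^ 2 / M.w ≠ 0 := div_ne_zero (pow_ne_zero _ M.u_ne_zero) M.w_ne_zero
  have eP : P.ord (M.u ^ 2 / M.w) = -(P.ord M.w - 2 * P.ord M.u) := by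
    rw [Place.ord_div (pow_ne_zero _ M.u_ne_zero) M.w_ne_zero, Place.ord_pow M.u_ne_zero]
    push_cast
    ring
  have eQ : Q.ord (M.u ^ 2 / M.w) = -(Q.ord M.w - 2 * Q.ord M.u) := by
    rw [Place.ord_div (pow_ne_zero _ M.u_ne_zero) M.w_ne_zero, Place.ord_pow M.u_ne_zero]
    push_cast
    ring
  have key := Place.sync (P := P) (Q := Q) (π := M.u ^ 2 / M.w) (by rw [eP]; linarith)
    (by rw [eQ]; linarith) ?_
  · refine ⟨key.1, ?_, ?_⟩
    · have := key.2
      rw [eP] at this
      linarith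
    · have := key.2
      rw [eP] at this
      linarith
  · intro g hg
    obtain ⟨A, B, D, hD, hgD⟩ := M.gen g
    have hD0 := M.aeval_ne_zero hD
    have h10 : aeval M.u A + aeval M.u B * M.w ≠ 0 := by
      rw [← hgD]
      exact mul_ne_zero hg hD0
    obtain ⟨N, hN⟩ := M.exists_exponent A B h10
    obtain ⟨N', hN'⟩ := M.exists_exponent D 0 (by simpa using hD0)
    have hN1 := hN P hP
    have hN2 := hN Q hQ
    have hN3 := hN' P hP
    have hN4 := hN' Q hQ
    rw [← hgD, Place.ord_mul hg hD0] at hN1 hN2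
    rw [map_zero, zero_mul, add_zero] at hN3 hN4
    refine ⟨N' - N, ?_, ?_⟩
    · rw [eP]
      linarith
    · rw [eQ]
      linarith

end Model

end Pool.Agent.Work.MP_0fba91_ag
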