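import Pool.Agent.Work.MP_0fba91_ag.Defs

/-!
The spaces `L(D)` and the genus of a curve, in terms of its function field.
-/

open Polynomial

noncomputable section

namespace Pool.Agent.Work.MP_0fba91_ag

variable {K F : Type} [Field K] [CommRing F] [Algebra K F]

/-- `g ∈ L(D)`: the function `g` vanishes or satisfies `ord_P(g) ≥ -D(P)` for all closed
points `P`. -/
def IsInL (D : Divisor K F) (g : F) : Prop := ∀ P : Place K F, P.val g ≤ WithZero.exp (D P)

theorem IsInL.zero (D : Divisor K F) : IsInL D (0 : F) := fun P => by
  rw [map_zero]
  exact zero_le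

theorem IsInL.add {D : Divisor K F} {g h : F} (hg : IsInL D g) (hh : IsInL D h) :
    IsInL D (g + h) := fun P => (P.val.map_add g h).trans (max_le (hg P) (hh P))

theorem IsInL.smul {D : Divisor K F} (c : K) {g : F} (hg : IsInL D g) : IsInL D (c • g) := by
  intro P
  by_cases hc : c = 0
  · rw [hc, zero_smul, map_zero]
    exact zero_le
  · rw [Algebra.smul_def, map_mul, P.trivial_on c hc, one_mul]
    exact hg P

/-- The Riemann-Roch space `L(D)` of a divisor `D`. -/
def rrSpace (D : Divisor K F) : Submodule K F where
  carrier := {g | IsInL D g}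
  zero_mem' := IsInL.zero D
  add_mem' := IsInL.add
  smul_mem' := IsInL.smul

variable (K F)

/-- The curve over the algebraically closed field `K` with function field `F` has genus `n`:
the spaces `L(D)` are finite dimensional, and `n` is the maximum of `deg D + 1 - dim L(D)` over
all divisors `D`. -/
def HasGenus (n : ℤ) : Prop :=
  (∀ D : Divisor K F, Module.Finite K (rrSpace D)) ∧
    IsGreatest {m : ℤ | ∃ D : Divisor K F, m = deg D + 1 - Module.finrank K (rrSpace D)} n

end Pool.Agent.Work.MP_0fba91_ag
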