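import Pool.Agent.Work.MP_0fba91_ag.Half
import Pool.Agent.Work.MP_0fba91_ag.RR

/-!
Residue fields: every function regular at a closed point has a value there.
-/

open Polynomial

set_option linter.unusedVariables false
set_option linter.unusedSectionVars false

noncomputable section

namespace Pool.Agent.Work.MP_0fba91_ag

theorem Place.At.div {K F : Type} [Field K] [Field F] [Algebra K F] {P : Place K F} {x y : F}
    {c d : K} (hx : P.At x c) (hy : P.At y d) (hd : d ≠ 0) : P.At (x / y) (c / d) := by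
  have h1 := hy.val_eq_one hd
  have hy0 : y ≠ 0 := by
    rintro rfl
    rw [map_zero] at h1
    exact zero_ne_one h1
  have hd1 : algebraMap K F d ≠ 0 := (_root_.map_ne_zero _).2 hd
  have h2 : P.At (x * algebraMap K F d - y * algebraMap K F c) 0 := by
    have h3 := (hx.mul (Place.at_const (P := P) d)).sub (hy.mul (Place.at_const (P := P) c))
    rwa [mul_comm d c, sub_self] at h3
  rw [Place.At, map_div₀]
  have h3 : x / y - algebraMap K F c / algebraMap K F d =
      (x * algebraMap K F d - y * algebraMap K F c) * (y)⁻¹ * (algebraMap K F d)⁻¹ := by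
    field_simp
  rw [h3, map_mul, map_mul, map_inv₀, map_inv₀, h1, P.trivial_on d hd, inv_one, mul_one, mul_one]
  exact Place.at_zero_iff.1 h2

namespace Model

variable {K F : Type} [Field K] [IsAlgClosed K] [CharZero K] [Field F] [Algebra K F]
  {e : Fin 5 → K} (M : Model K F e)

theorem residue_aux {P : Place K F} {a b : K} (haP : P.At M.u a) (hbP : P.At M.w b)
    {π : F} (hπ : π ≠ 0) (hπP : P.ord π = 1)
    (step : ∀ A B : K[X], A.eval a + B.eval a * b = 0 →
      ∃ G v : F, M.Reg G ∧ M.Reg v ∧ P.val v = 1 ∧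
        v * (aeval M.u A + aeval M.u B * M.w) = π * G) :
    ∀ n : ℕ, ∀ G H : F, M.Reg G → M.Reg H → H ≠ 0 → P.ord H = n → P.val G ≤ P.val H →
      ∃ c : K, P.At (G / H) c := by
  intro n
  induction n with
  | zero =>
    intro G H hG hH hH0 hn hval
    obtain ⟨A, B, rfl⟩ := hG
    obtain ⟨A', B', rfl⟩ := hH
    have h1 := (haP.aeval A).add ((haP.aeval B).mul hbP)
    have h2 := (haP.aeval A').add ((haP.aeval B').mul hbP)
    refine ⟨_, h1.div h2 ?_⟩
    intro h0
    have h3 := (h2.val_lt_one_iff).2 h0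
    rw [Place.val_lt_one_iff hH0, hn] at h3
    exact absurd h3 (by norm_num)
  | succ n ih =>
    intro G H hG hH hH0 hn hval
    have hHlt : P.val H < 1 := by
      rw [Place.val_lt_one_iff hH0, hn]
      positivity
    obtain ⟨A, B, rfl⟩ := hG
    obtain ⟨A', B', rfl⟩ := hH
    have h1 := (haP.aeval A).add ((haP.aeval B).mul hbP)
    have h2 := (haP.aeval A').add ((haP.aeval B').mul hbP)
    obtain ⟨G1, v1, hG1, hv1, hv1P, e1⟩ := step A B (h1.eq_zero (hval.trans_lt hHlt))
    obtain ⟨G2, v2, hG2, hv2, hv2P, e2⟩ := step A' B' (h2.eq_zero hHlt)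
    have hv10 : v1 ≠ 0 := by
      rintro rfl
      rw [map_zero] at hv1P
      exact zero_ne_one hv1P
    have hv20 : v2 ≠ 0 := by
      rintro rfl
      rw [map_zero] at hv2P
      exact zero_ne_one hv2P
    have hG20 : G2 ≠ 0 := by
      rintro rfl
      rw [mul_zero] at e2
      exact (mul_ne_zero hv20 hH0) e2
    have hval1 := congrArg P.val e1
    have hval2 := congrArg P.val e2
    rw [map_mul, map_mul, hv1P, one_mul] at hval1
    rw [map_mul, map_mul, hv2P, one_mul] at hval2
    obtain ⟨c, hc⟩ := ih (G1 * v2) (G2 * v1) (hG1.mul M hv2) (hG2.mul M hv1)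
      (mul_ne_zero hG20 hv10) (by
        have h3 : P.ord (aeval M.u A' + aeval M.u B' * M.w) = P.ord π + P.ord G2 := by
          rw [← Place.ord_mul hπ hG20, ← e2, Place.ord_mul hv20 hH0,
            (Place.val_eq_one_iff hv20).1 hv2P, zero_add]
        rw [Place.ord_mul hG20 hv10, (Place.val_eq_one_iff hv10).1 hv1P, add_zero]
        rw [hn, hπP] at h3
        push_cast at h3
        linarith) (by
        rw [map_mul, map_mul, hv1P, hv2P, mul_one, mul_one]
        rw [hval1, hval2] at hval
        have hπ0 : 0 < P.val π := by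
          rw [zero_lt_iff]
          exact Place.val_ne_zero hπ
        exact (mul_le_mul_iff_right₀ hπ0).1 hval)
    refine ⟨c, ?_⟩
    have h4 : (aeval M.u A + aeval M.u B * M.w) / (aeval M.u A' + aeval M.u B' * M.w) =
        (G1 * v2) / (G2 * v1) := by
      rw [div_eq_div_iff hH0 (mul_ne_zero hG20 hv10)]
      apply mul_left_cancel₀ hπ
      linear_combination G2 * π * e1 - G1 * π * e2
    rw [h4]
    exact hc

theorem residue_fin (he : Function.Injective e) {P : Place K F} {a b : K} (haP : P.At M.u a)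
    (hbP : P.At M.w b) (g : F) (hg : P.val g ≤ 1) : ∃ c : K, P.At g c := by
  obtain ⟨A, B, D, hD, hgD⟩ := M.gen g
  have hD0 := M.aeval_ne_zero hD
  have hDval : 0 < P.val (aeval M.u D) := by
    rw [zero_lt_iff]
    exact Place.val_ne_zero hD0
  have hval : P.val (aeval M.u A + aeval M.u B * M.w) ≤ P.val (aeval M.u D) := by
    rw [← hgD, map_mul]
    exact mul_le_of_le_one_left zero_le hg
  have hord : 0 ≤ P.ord (aeval M.u D) :=
    (Place.val_le_one_iff hD0).1 (Place.val_aeval_le haP.val_le D)
  have hgeq : g = (aeval M.u A + aeval M.u B * M.w) / aeval M.u D := by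
    rw [← hgD, mul_div_cancel_right₀ _ hD0]
  rw [hgeq]
  by_cases hb0 : b = 0
  · subst hb0
    have h := M.at_eqn haP hbP
    rw [zero_pow two_ne_zero] at h
    obtain ⟨i, rfl⟩ := eval_quintic_eq_zero h.symm
    obtain ⟨h, hh, hh0⟩ := quintic_deriv_ne he i
    refine M.residue_aux haP hbP M.w_ne_zero (M.ord_w_of_fixed he haP hbP) ?_
      (P.ord (aeval M.u D)).toNat _ _ ⟨A, B, rfl⟩ (M.reg_aeval D) hD0
      (Int.toNat_of_nonneg hord).symm hval
    intro A B h0
    rw [mul_zero, add_zero] at h0
    obtain ⟨G, hG, hG'⟩ := M.reg_step0 hh h0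
    exact ⟨G, aeval M.u h, hG, M.reg_aeval h, (haP.aeval h).val_eq_one hh0, hG'⟩
  · have h2b : b + b ≠ 0 := by
      rw [← two_mul]
      exact mul_ne_zero two_ne_zero hb0
    refine M.residue_aux haP hbP (M.u_sub_ne_zero a) (M.ord_u_sub_of_eq haP hbP hb0) ?_
      (P.ord (aeval M.u D)).toNat _ _ ⟨A, B, rfl⟩ (M.reg_aeval D) hD0
      (Int.toNat_of_nonneg hord).symm hval
    intro A B h0
    obtain ⟨G, hG, hG'⟩ := M.reg_step (M.at_eqn haP hbP) h0
    exact ⟨G, M.w + algebraMap K F b, hG, ⟨C b, 1, by simp [add_comm]⟩,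
      (hbP.add (Place.at_const b)).val_eq_one h2b, hG'⟩

/-- the order of `A(u)` at infinity -/
theorem ord_inf_aeval (p : K[X]) (hp : p ≠ 0) :
    M.inf.ord (aeval M.u p) = -2 * p.natDegree := by
  rw [M.ord_aeval_inf M.ord_inf_neg p hp, M.ord_inf_u]
  ring

theorem val_inf_aeval_le (p : K[X]) (n : ℤ) (hn : (p.natDegree : ℤ) * 2 ≤ n) :
    M.inf.val (aeval M.u p) ≤ WithZero.exp n := by
  by_cases hp : p = 0
  · rw [hp, map_zero, map_zero]
    exact zero_le
  · rw [Place.val_eq_exp (M.aeval_ne_zero hp), M.ord_inf_aeval p hp, WithZero.exp_le_exp]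
    linarith

theorem residue_inf (g : F) (hg : M.inf.val g ≤ 1) : ∃ c : K, M.inf.At g c := by
  obtain ⟨A, B, D, hD, hgD⟩ := M.gen g
  have hD0 := M.aeval_ne_zero hD
  by_cases hg0 : g = 0
  · exact ⟨0, by rw [Place.at_zero_iff, hg0, map_zero]; exact zero_lt_one⟩
  rcases lt_or_eq_of_le hg with hlt | heq
  · exact ⟨0, Place.at_zero_iff.2 hlt⟩
  have hord : M.inf.ord g = 0 := (Place.val_eq_one_iff hg0).1 heq
  have h1 := congrArg M.inf.ord hgD
  rw [Place.ord_mul hg0 hD0, hord, zero_add, M.ord_inf_aeval D hD] at h1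
  have hS0 : aeval M.u A + aeval M.u B * M.w ≠ 0 := by
    rw [← hgD]
    exact mul_ne_zero hg0 hD0
  -- the part with `w` has smaller size
  have hBord : B ≠ 0 → (2 * B.natDegree + 5 : ℤ) < 2 * D.natDegree ∧ A ≠ 0 ∧
      A.natDegree = D.natDegree := by
    intro hB
    have hB0 := M.aeval_ne_zero hB
    have h2 : M.inf.ord (aeval M.u B * M.w) = -(2 * B.natDegree + 5) := by
      rw [Place.ord_mul hB0 M.w_ne_zero, M.ord_inf_aeval B hB, M.ord_inf_w]
      ring
    by_cases hA : A = 0
    · rw [hA, map_zero, zero_add, h2] at h1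
      omega
    · have h3 := M.ord_inf_aeval A hA
      have hA0 := M.aeval_ne_zero hA
      rcases lt_trichotomy (M.inf.ord (aeval M.u A)) (M.inf.ord (aeval M.u B * M.w)) with
        h | h | h
      · have h4 := (Place.ord_add_of_lt hA0 (mul_ne_zero hB0 M.w_ne_zero) h).2
        rw [← h1, h3] at h4
        rw [h2, h3] at h
        refine ⟨by omega, hA, by omega⟩
      · rw [h2, h3] at h
        omega
      · have h4 := (Place.ord_add_of_lt (mul_ne_zero hB0 M.w_ne_zero) hA0 h).2
        rw [add_comm, ← h1, h2] at h4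
        omega
  have hAD : A ≠ 0 ∧ A.natDegree = D.natDegree := by
    by_cases hB : B = 0
    · rw [hB, map_zero, zero_mul, add_zero] at h1 hS0
      have hA : A ≠ 0 := by
        rintro rfl
        exact hS0 (map_zero _)
      rw [M.ord_inf_aeval A hA] at h1
      exact ⟨hA, by omega⟩
    · exact (hBord hB).2
  obtain ⟨hA, hdeg⟩ := hAD
  refine ⟨A.leadingCoeff / D.leadingCoeff, ?_⟩
  have hlc : D.leadingCoeff ≠ 0 := leadingCoeff_ne_zero.2 hD
  set c := A.leadingCoeff / D.leadingCoeff with hc
  have h5 : (g - algebraMap K F c) * aeval M.u D = aeval M.u (A - C c * D) + aeval M.u B * M.w := by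
    rw [sub_mul, hgD, map_sub, map_mul, aeval_C]
    ring
  have h6 : M.inf.val (aeval M.u (A - C c * D)) < M.inf.val (aeval M.u D) := by
    by_cases h0 : A - C c * D = 0
    · rw [h0, map_zero, map_zero, zero_lt_iff]
      exact Place.val_ne_zero hD0
    · rw [Place.val_eq_exp (M.aeval_ne_zero h0), Place.val_eq_exp hD0, M.ord_inf_aeval _ h0,
        M.ord_inf_aeval D hD, WithZero.exp_lt_exp]
      have h7 : (A - C c * D).degree < A.degree := by
        apply degree_sub_lt_left
        · rw [degree_C_mul (by rw [hc]; exact div_ne_zero (leadingCoeff_ne_zero.2 hA) hlc),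
            degree_eq_natDegree hA, degree_eq_natDegree hD, hdeg]
        · exact hA
        · rw [leadingCoeff_mul, leadingCoeff_C, hc, div_mul_cancel₀ _ hlc]
      have h8 := natDegree_lt_natDegree h0 h7
      omega
  have h7 : M.inf.val (aeval M.u B * M.w) < M.inf.val (aeval M.u D) := by
    by_cases hB : B = 0
    · rw [hB, map_zero, zero_mul, map_zero, zero_lt_iff]
      exact Place.val_ne_zero hD0
    · have hB0 := M.aeval_ne_zero hB
      rw [Place.val_eq_exp (mul_ne_zero hB0 M.w_ne_zero), Place.val_eq_exp hD0,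
        Place.ord_mul hB0 M.w_ne_zero, M.ord_inf_aeval B hB, M.ord_inf_w,
        M.ord_inf_aeval D hD, WithZero.exp_lt_exp]
      have := (hBord hB).1
      omega
  have h8 : M.inf.val ((g - algebraMap K F c) * aeval M.u D) < M.inf.val (aeval M.u D) := by
    rw [h5]
    exact (M.inf.val.map_add _ _).trans_lt (max_lt h6 h7)
  rw [map_mul] at h8
  have hDpos : 0 < M.inf.val (aeval M.u D) := by
    rw [zero_lt_iff]
    exact Place.val_ne_zero hD0
  exact (mul_lt_iff_lt_one_left hDpos).1 h8

include M in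
/-- every function regular at a place has a value there -/
theorem exists_residue (he : Function.Injective e) (P : Place K F) (g : F) (hg : P.val g ≤ 1) :
    ∃ c : K, P.At g c := by
  rcases M.cases_place P with rfl | ⟨a, b, ha, hb⟩
  · exact M.residue_inf g hg
  · exact M.residue_fin he ha hb g hg

end Model

end Pool.Agent.Work.MP_0fba91_ag
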