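import Pool.Agent.Work.MP_0fba91_ag.Defs

/-!
The group of all automorphisms preserving the constants, used in the proofs.
-/

open Polynomial

set_option linter.unusedVariables false

noncomputable section

namespace Pool.Agent.Work.MP_0fba91_ag

/-- The group of ring automorphisms of `F` that map (the image of) `K` onto itself. -/
def SemiAut (K F : Type) [Field K] [CommRing F] [Algebra K F] : Subgroup (RingAut F) where
  carrier := {φ | ∀ x : F, φ x ∈ Set.range (algebraMap K F) ↔ x ∈ Set.range (algebraMap K F)}
  mul_mem' := by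
    intro φ ψ hφ hψ x
    rw [RingAut.mul_apply, hφ, hψ]
  one_mem' := by
    intro x
    rw [RingAut.one_apply]
  inv_mem' := by
    intro φ hφ x
    rw [← hφ (φ⁻¹ x), ← RingAut.mul_apply, mul_inv_cancel, RingAut.one_apply]

section

variable {K F : Type} [Field K] [CommRing F] [Algebra K F]

instance : ActsOnConst (SemiAut K F) K F := ⟨fun φ c => by
  obtain ⟨c', hc'⟩ := (φ.2 (algebraMap K F c)).2 ⟨c, rfl⟩
  exact ⟨c', hc'.symm⟩⟩

theorem SemiAut.smul_apply (φ : SemiAut K F) (x : F) : φ • x = φ.1 x := rfl

theorem Place.smul_val (φ : SemiAut K F) (P : Place K F) (g : F) :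
    (φ • P).val g = P.val ((φ⁻¹ : SemiAut K F).1 g) := rfl

theorem Place.smul_ord (φ : SemiAut K F) (P : Place K F) (g : F) :
    (φ • P).ord g = P.ord ((φ⁻¹ : SemiAut K F).1 g) := rfl

theorem Divisor.smul_def (φ : SemiAut K F) (D : Divisor K F) :
    φ • D = Finsupp.mapDomain (fun P => φ • P) D := rfl

theorem Divisor.smul_apply (φ : SemiAut K F) (D : Divisor K F) (P : Place K F) :
    (φ • D) P = D (φ⁻¹ • P) := Divisor.smul_apply' φ D P

theorem deg_smul (φ : SemiAut K F) (D : Divisor K F) : deg (φ • D) = deg D := by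
  show Finsupp.degree (Finsupp.mapDomain _ D) = Finsupp.degree D
  exact Finsupp.degree_mapDomain _ _

theorem Divisor.smul_cls (φ : SemiAut K F) (D : Divisor K F) :
    φ • (Divisor.cls D) = Divisor.cls (φ • D) := rfl

theorem smul_mem_Pic0 (φ : SemiAut K F) {x : Pic K F} (hx : x ∈ Pic0 K F) : φ • x ∈ Pic0 K F :=
  smul_mem_Pic0' φ hx

theorem Pic.induction {motive : Pic K F → Prop} (h : ∀ D : Divisor K F, motive D.cls)
    (x : Pic K F) : motive x := by
  obtain ⟨D, rfl⟩ := cls_surjective x
  exact h D

end

section

variable (k : Type) [Field k] (f : k[X])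

/-- The Galois action, as a homomorphism to the group `SemiAut`. -/
def galAction : Gal(AlgebraicClosure k/k) →* SemiAut (AlgebraicClosure k) (FunField k f) where
  toFun σ := ⟨galFun k f σ, by
    intro x
    constructor
    · rintro ⟨c, hc⟩
      refine ⟨σ⁻¹ c, ?_⟩
      rw [← galFun_algebraMap, hc, ← galFun_mul, inv_mul_cancel, galFun_one]
    · rintro ⟨c, rfl⟩
      exact ⟨σ c, (galFun_algebraMap k f σ c).symm⟩⟩
  map_one' := Subtype.ext (RingEquiv.ext (galFun_one k f))
  map_mul' σ τ := by
    apply Subtype.ext
    apply RingEquiv.ext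
    intro x
    rw [Subgroup.coe_mul, RingAut.mul_apply]
    exact galFun_mul k f σ τ x

theorem smul_place_eq (σ : Gal(AlgebraicClosure k/k))
    (P : Place (AlgebraicClosure k) (FunField k f)) : σ • P = galAction k f σ • P := by
  apply Place.ext
  intro x
  rw [Place.smul_val', Place.smul_val, ← map_inv]
  rfl

theorem smul_divisor_eq (σ : Gal(AlgebraicClosure k/k))
    (D : Divisor (AlgebraicClosure k) (FunField k f)) : σ • D = galAction k f σ • D := by
  have h : (fun P : Place (AlgebraicClosure k) (FunField k f) => σ • P) =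
      fun P => galAction k f σ • P := by
    funext P
    exact smul_place_eq k f σ P
  rw [Divisor.smul_def', Divisor.smul_def, h]

theorem smul_pic_eq (σ : Gal(AlgebraicClosure k/k))
    (x : Pic (AlgebraicClosure k) (FunField k f)) : σ • x = galAction k f σ • x := by
  induction x using Pic.induction with
  | h D => rw [Divisor.smul_cls', Divisor.smul_cls, smul_divisor_eq]

end

end Pool.Agent.Work.MP_0fba91_ag
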