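import Pool.Agent.Work.MP_0fba91_ag.Divisors

/-!
`2`-torsion divisor classes and division by `2`.
-/

open Polynomial

set_option linter.unusedVariables false
set_option linter.unusedSectionVars false

noncomputable section

namespace Pool.Agent.Work.MP_0fba91_ag

namespace Model

variable {K F : Type} [Field K] [IsAlgClosed K] [CharZero K] [Field F] [Algebra K F]
  {e : Fin 5 → K} (M : Model K F e)

theorem even_ord_aeval (he : Function.Injective e) {Q : Place K F} (hQ : M.invS • Q = Q)
    (p : K[X]) (hp : p ≠ 0) : Even (Q.ord (aeval M.u p)) := by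
  refine poly_induction (motive := fun p => Even (Q.ord (aeval M.u p))) ?_ ?_ ?_ p hp
  · intro c hc
    rw [aeval_C, Place.ord_const hc]
    exact Even.zero
  · intro a
    rw [map_sub, aeval_X, aeval_C]
    rcases (M.fixed_iff he Q).1 hQ with rfl | ⟨i, hi, hw⟩
    · have h3 := M.ord_aeval_inf M.ord_inf_neg (X - C a) (X_sub_C_ne_zero a)
      rw [map_sub, aeval_X, aeval_C, natDegree_X_sub_C, M.ord_inf_u] at h3
      rw [h3]
      exact ⟨-1, by norm_num⟩
    · by_cases h : e i = a
      · subst h
        rw [M.ord_u_sub_of_fixed he hi hw]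
        exact ⟨1, by norm_num⟩
      · rw [M.ord_u_sub_of_ne hi h]
        exact Even.zero
  · intro p q hp hq ihp ihq
    rw [map_mul, Place.ord_mul (M.aeval_ne_zero hp) (M.aeval_ne_zero hq)]
    exact ihp.add ihq

theorem two_ne_zero_F (K F : Type) [Field K] [CharZero K] [Field F] [Algebra K F] :
    (2 : F) ≠ 0 := by
  have : algebraMap K F 2 ≠ 0 := (_root_.map_ne_zero _).2 two_ne_zero
  rwa [map_ofNat] at this

theorem even_ord_of_inv (he : Function.Injective e) {Q : Place K F} (hQ : M.invS • Q = Q)
    {φ : F} (hφ : φ ≠ 0) (hinv : M.inv φ = φ) : Even (Q.ord φ) := by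
  obtain ⟨A, B, D, hD, hg⟩ := M.gen φ
  have hD0 := M.aeval_ne_zero hD
  have h1 := congrArg M.inv hg
  simp only [map_add, map_mul, M.inv_aeval_u, M.inv_w, hinv] at h1
  have h2 : 2 * (aeval M.u B * M.w) = 0 := by linear_combination h1 - hg
  have h3 : aeval M.u B * M.w = 0 := (mul_eq_zero.1 h2).resolve_left (two_ne_zero_F K F)
  rw [h3, add_zero] at hg
  have hA : A ≠ 0 := by
    rintro rfl
    rw [map_zero] at hg
    exact mul_ne_zero hφ hD0 hg
  have h4 : Q.ord φ = Q.ord (aeval M.u A) - Q.ord (aeval M.u D) := by
    rw [← hg, Place.ord_mul hφ hD0]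
    ring
  rw [h4]
  exact (M.even_ord_aeval he hQ A hA).sub (M.even_ord_aeval he hQ D hD)

theorem odd_ord_w (he : Function.Injective e) {Q : Place K F} (hQ : M.invS • Q = Q) :
    Odd (Q.ord M.w) := by
  rcases (M.fixed_iff he Q).1 hQ with rfl | ⟨i, hi, hw⟩
  · rw [M.ord_inf_w]
    exact ⟨-3, by norm_num⟩
  · rw [M.ord_w_of_fixed he hi hw]
    exact odd_one

/-- A principal divisor supported at the six fixed places has constant parity there. -/
theorem parity (he : Function.Injective e) {φ : F} {D : Divisor K F} (hD : IsDiv D φ)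
    (hsupp : ∀ Q : Place K F, M.invS • Q ≠ Q → D Q = 0) {Q Q' : Place K F}
    (hQ : M.invS • Q = Q) (hQ' : M.invS • Q' = Q') : Even (D Q - D Q') := by
  have hinvD : IsDiv D (M.inv φ) := by
    have h1 : M.invS • D = D := by
      ext P
      rw [Divisor.smul_apply, M.invS_inv]
      by_cases hP : M.invS • P = P
      · rw [hP]
      · rw [hsupp P hP, hsupp]
        rw [M.smul_smul_self]
        exact fun h => hP h.symm
    have h2 := hD.smul M.invS
    rw [h1] at h2
    exact h2
  obtain ⟨c, hc, hcφ⟩ := M.exists_const_of_isDiv hinvD hD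
  have hc2 : c * c = 1 := by
    have h1 := M.inv_inv φ
    rw [hcφ, map_mul, AlgEquiv.commutes, hcφ, ← mul_assoc, ← map_mul] at h1
    have h2 : algebraMap K F (c * c) = 1 := by
      apply mul_right_cancel₀ hD.1
      rw [h1, one_mul]
    have h3 : algebraMap K F (c * c) = algebraMap K F 1 := by rw [h2, map_one]
    have h4 := (algebraMap K F).injective h3
    exact h4
  rw [hD.2, hD.2]
  rcases mul_self_eq_one_iff.1 hc2 with h | h
  · rw [h, map_one, one_mul] at hcφ
    exact (M.even_ord_of_inv he hQ hD.1 hcφ).sub (M.even_ord_of_inv he hQ' hD.1 hcφ)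
  · rw [h, map_neg, map_one, neg_one_mul] at hcφ
    have h1 : M.inv (φ * M.w) = φ * M.w := by
      rw [map_mul, hcφ, M.inv_w]
      ring
    have h0 : φ * M.w ≠ 0 := mul_ne_zero hD.1 M.w_ne_zero
    have h2 := M.even_ord_of_inv he hQ h0 h1
    have h3 := M.even_ord_of_inv he hQ' h0 h1
    rw [Place.ord_mul hD.1 M.w_ne_zero] at h2 h3
    have h4 := M.odd_ord_w he hQ
    have h5 := M.odd_ord_w he hQ'
    have h6 : Odd (Q.ord φ) := by
      have := h2.sub_odd h4
      rwa [add_sub_cancel_right] at this
    have h7 : Odd (Q'.ord φ) := by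
      have := h3.sub_odd h5
      rwa [add_sub_cancel_right] at this
    exact h6.sub_odd h7

/-- `D + ι D` is principal up to a multiple of infinity. -/
theorem exists_add_inv (he : Function.Injective e) (D : Divisor K F) :
    ∃ (h : F) (E : Divisor K F), IsDiv E h ∧ M.inv h = h ∧
      D + M.invS • D = E + Finsupp.single M.inf (2 * deg D) := by
  induction D using Finsupp.induction_linear with
  | zero =>
    refine ⟨1, 0, ?_, map_one _, ?_⟩
    · have := IsDiv.const (F := F) (one_ne_zero (α := K))
      rwa [map_one] at this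
    · simp
  | add D D' h1 h2 =>
    obtain ⟨h, E, hE, hh, hEq⟩ := h1
    obtain ⟨h', E', hE', hh', hEq'⟩ := h2
    refine ⟨h * h', E + E', hE.mul hE', by rw [map_mul, hh, hh'], ?_⟩
    rw [smul_add, map_add, mul_add, Finsupp.single_add]
    calc D + D' + (M.invS • D + M.invS • D') = (D + M.invS • D) + (D' + M.invS • D') := by abel
      _ = _ := by rw [hEq, hEq']; abel
  | single P n =>
    have hdeg : deg (Finsupp.single P n : Divisor K F) = n := by
      simp [deg, Finsupp.degree_single]
    rw [hdeg]
    have hs : ∀ Q : Place K F, M.invS • (Finsupp.single Q n : Divisor K F) =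
        Finsupp.single (M.invS • Q) n := by
      intro Q
      rw [Divisor.smul_def, Finsupp.mapDomain_single]
    rw [hs]
    rcases M.cases_place P with rfl | ⟨a, b, ha, hb⟩
    · refine ⟨1, 0, ?_, map_one _, ?_⟩
      · have := IsDiv.const (F := F) (one_ne_zero (α := K))
        rwa [map_one] at this
      · rw [M.inv_smul_inf, ← Finsupp.single_add, zero_add, two_mul]
    · refine ⟨_, _, (M.isDiv_u_sub he ha).zpow n, ?_, ?_⟩
      · rw [map_zpow₀, map_sub, M.inv_u, AlgEquiv.commutes]
      · ext Q
        simp only [Finsupp.add_apply, Finsupp.smul_apply, Finsupp.sub_apply]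
        have e1 : (Finsupp.single P n : Divisor K F) = n • Finsupp.single P 1 := by
          rw [Finsupp.smul_single, smul_eq_mul, mul_one]
        have e2 : (Finsupp.single (M.invS • P) n : Divisor K F) =
            n • Finsupp.single (M.invS • P) 1 := by
          rw [Finsupp.smul_single, smul_eq_mul, mul_one]
        have e3 : (Finsupp.single M.inf (2 * n) : Divisor K F) = n • Finsupp.single M.inf 2 := by
          rw [Finsupp.smul_single, smul_eq_mul, mul_comm]
        rw [e1, e2, e3]
        simp only [Finsupp.smul_apply, smul_eq_mul]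
        ring

open Classical in
/-- An invariant divisor is principal up to a divisor supported at the fixed places. -/
theorem exists_of_invariant (he : Function.Injective e) (n : ℕ) : ∀ D : Divisor K F,
    M.invS • D = D → (D.support.filter (fun Q => ¬ (M.invS • Q = Q))).card ≤ n →
    ∃ (h : F) (E : Divisor K F), IsDiv E h ∧ ∀ Q : Place K F, M.invS • Q ≠ Q → (D - E) Q = 0 := by
  induction n with
  | zero =>
    intro D hD hn
    refine ⟨1, 0, ?_, ?_⟩
    · have := IsDiv.const (F := F) (one_ne_zero (α := K))
      rwa [map_one] at this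
    · intro Q hQ
      rw [sub_zero]
      by_contra h
      have h1 := Finset.card_eq_zero.1 (Nat.le_zero.1 hn)
      have h2 : Q ∈ D.support.filter (fun Q => ¬ (M.invS • Q = Q)) := by
        rw [Finset.mem_filter, Finsupp.mem_support_iff]
        exact ⟨h, hQ⟩
      rw [h1] at h2
      exact absurd h2 (Finset.notMem_empty _)
  | succ n ih =>
    intro D hD hn
    by_cases hcard : (D.support.filter (fun Q => ¬ (M.invS • Q = Q))).card = 0
    · exact ih D hD (by omega)
    · obtain ⟨P, hP⟩ := Finset.card_pos.1 (Nat.pos_of_ne_zero hcard)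
      rw [Finset.mem_filter, Finsupp.mem_support_iff] at hP
      obtain ⟨hP1, hP2⟩ := hP
      have hPinf : P ≠ M.inf := by
        rintro rfl
        exact hP2 M.inv_smul_inf
      obtain ⟨a, b, ha, hb⟩ := (M.cases_place P).resolve_left hPinf
      have hE0 := (M.isDiv_u_sub he ha).zpow (D P)
      set E0 : Divisor K F := D P • (Finsupp.single P 1 + Finsupp.single (M.invS • P) 1 -
        Finsupp.single M.inf 2) with hE0def
      have hDinv : D (M.invS • P) = D P := by
        conv_lhs => rw [← hD]
        rw [Divisor.smul_apply, M.invS_inv, M.smul_smul_self]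
      have hval : ∀ Q : Place K F, M.invS • Q ≠ Q →
          E0 Q = if Q = P ∨ Q = M.invS • P then D P else 0 := by
        intro Q hQ
        have hQinf : M.inf ≠ Q := by
          rintro rfl
          exact hQ M.inv_smul_inf
        simp only [hE0def, Finsupp.smul_apply, Finsupp.sub_apply, Finsupp.add_apply,
          Finsupp.single_apply, smul_eq_mul, if_neg hQinf]
        by_cases h1 : Q = P
        · subst h1
          rw [if_pos rfl, if_neg hQ, if_pos (Or.inl rfl)]
          ring
        · by_cases h2 : Q = M.invS • P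
          · subst h2
            rw [if_neg (fun h => h1 h.symm), if_pos rfl, if_pos (Or.inr rfl)]
            ring
          · rw [if_neg (fun h => h1 h.symm), if_neg (fun h => h2 h.symm), if_neg (by tauto)]
            ring
      have hE0inv : M.invS • E0 = E0 := by
        have hu : IsDiv (M.invS • E0) ((M.u - algebraMap K F a) ^ (D P)) := by
          have h1 := hE0.smul M.invS
          rw [M.invS_apply, map_zpow₀, map_sub, M.inv_u, AlgEquiv.commutes] at h1
          exact h1
        exact hu.unique hE0
      have hlt : ((D - E0).support.filter (fun Q => ¬ (M.invS • Q = Q))).card ≤ n := by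
        have hss : ((D - E0).support.filter (fun Q => ¬ (M.invS • Q = Q))) ⊂
            (D.support.filter (fun Q => ¬ (M.invS • Q = Q))) := by
          rw [Finset.ssubset_iff_of_subset]
          · refine ⟨P, ?_, ?_⟩
            · rw [Finset.mem_filter, Finsupp.mem_support_iff]
              exact ⟨hP1, hP2⟩
            · rw [Finset.mem_filter, Finsupp.mem_support_iff, not_and_or, not_not,
                Finsupp.sub_apply, hval P hP2, if_pos (Or.inl rfl), sub_self]
              exact Or.inl rfl
          · intro Q hQ
            rw [Finset.mem_filter, Finsupp.mem_support_iff, Finsupp.sub_apply] at hQ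
            rw [Finset.mem_filter, Finsupp.mem_support_iff]
            refine ⟨?_, hQ.2⟩
            intro h0
            apply hQ.1
            rw [hval Q hQ.2, h0]
            by_cases h1 : Q = P
            · subst h1
              exact absurd h0 hP1
            · by_cases h2 : Q = M.invS • P
              · subst h2
                rw [hDinv] at h0
                exact absurd h0 hP1
              · rw [if_neg (by tauto)]
                ring
        have := Finset.card_lt_card hss
        omega
      obtain ⟨h, E, hE, hEs⟩ := ih (D - E0) (by rw [smul_sub, hD, hE0inv]) hlt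
      refine ⟨h * _, E + E0, hE.mul hE0, ?_⟩
      intro Q hQ
      have h1 := hEs Q hQ
      rw [Finsupp.sub_apply, Finsupp.sub_apply] at h1
      rw [Finsupp.sub_apply, Finsupp.add_apply]
      linarith

/-- If `2D` is principal and `deg D = 0`, then `D` is linearly equivalent to a divisor supported
at the fixed places. -/
theorem two_torsion (he : Function.Injective e) {D : Divisor K F} (hdeg : deg D = 0) {g : F}
    (hg : IsDiv ((2 : ℤ) • D) g) :
    ∃ (ψ : F) (E : Divisor K F), IsDiv E ψ ∧ ∀ Q : Place K F, M.invS • Q ≠ Q → (D - E) Q = 0 := by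
  obtain ⟨h, H, hH, hinv, hDH⟩ := M.exists_add_inv he D
  rw [hdeg, mul_zero, Finsupp.single_zero, add_zero] at hDH
  -- g · ι g and h² have the same divisor
  have h1 : IsDiv ((2 : ℤ) • H) (g * M.inv g) := by
    have h2 := hg.mul (hg.smul M.invS)
    have h3 : (2 : ℤ) • D + M.invS • ((2 : ℤ) • D) = (2 : ℤ) • H := by
      rw [← hDH, smul_add]
      congr 1
      rw [two_smul, two_smul, smul_add]
    rw [h3] at h2
    exact h2
  have h2 : IsDiv ((2 : ℤ) • H) (h ^ (2 : ℤ)) := hH.zpow 2
  obtain ⟨c, hc, hcg⟩ := M.exists_const_of_isDiv h1 h2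
  obtain ⟨d, hd⟩ := IsAlgClosed.exists_pow_nat_eq c (n := 2) two_pos
  have hd0 : d ≠ 0 := by
    rintro rfl
    rw [zero_pow two_ne_zero] at hd
    exact hc hd.symm
  have hd1 : algebraMap K F d ≠ 0 := (_root_.map_ne_zero _).2 hd0
  have hh0 := hH.1
  set φ : F := g / (algebraMap K F d * h) with hφ
  have hφdiv : IsDiv (D - M.invS • D) φ := by
    have h3 := hg.div ((IsDiv.const (F := F) hd0).mul hH)
    have h4 : (2 : ℤ) • D - (0 + H) = D - M.invS • D := by
      rw [← hDH, two_smul]
      abel
    rw [h4] at h3
    exact h3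
  have hφinv : φ * M.inv φ = 1 := by
    rw [hφ, map_div₀, map_mul, hinv, AlgEquiv.commutes, div_mul_div_comm, hcg, ← hd, map_pow]
    have : (h : F) ^ (2 : ℤ) = h ^ 2 := by norm_cast
    rw [this]
    field_simp
  have hsymm : ∃ (ψ : F) (E : Divisor K F), IsDiv E ψ ∧ M.invS • (D - E) = D - E := by
    by_cases hφ1 : 1 + φ = 0
    · have h3 : φ = algebraMap K F (-1) := by
        rw [map_neg, map_one]
        linear_combination hφ1
      have h4 : D - M.invS • D = 0 := by
        refine hφdiv.unique ?_
        rw [h3]
        exact IsDiv.const (neg_ne_zero.2 one_ne_zero)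
      refine ⟨1, 0, ?_, ?_⟩
      · have := IsDiv.const (F := F) (one_ne_zero (α := K))
        rwa [map_one] at this
      · rw [sub_zero]
        exact (sub_eq_zero.1 h4).symm
    · obtain ⟨E, hE, -⟩ := M.exists_isDiv he (1 + φ) hφ1
      refine ⟨1 + φ, E, hE, ?_⟩
      have h3 : φ * M.inv (1 + φ) = 1 + φ := by
        rw [map_add, map_one, mul_add, hφinv]
        ring
      have h4 : D - M.invS • D + M.invS • E = E := by
        refine (hφdiv.mul (hE.smul M.invS)).unique ?_
        rw [M.invS_apply, h3]
        exact hE
      rw [smul_sub]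
      have h5 : M.invS • E = E - (D - M.invS • D) := by
        rw [eq_sub_iff_add_eq']
        exact h4
      rw [h5]
      abel
  obtain ⟨ψ, E, hE, hEinv⟩ := hsymm
  obtain ⟨h', E', hE', hs⟩ := M.exists_of_invariant he _ (D - E) hEinv le_rfl
  refine ⟨ψ * h', E + E', hE.mul hE', ?_⟩
  intro Q hQ
  have := hs Q hQ
  rwa [sub_sub] at this

end Model

end Pool.Agent.Work.MP_0fba91_ag
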